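import Pool.Agent.Lib.MP_3e612f_nt.RD.Ait

/-!
The abstract inverse theorem when only the coordinates in `Lo` are averaged inside the absolute value.

PROOF of `ait_lo`. By Cauchy - Schwarz `δ² ≤` the average over `ρ : ι → S × S` of `F2 ρ = F (fst ρ) * conj (F (mix ρ))`, where
`fst ρ k = (ρ k).1`, `mix ρ k = if k ∈ Lo then (ρ k).2 else (ρ k).1` (for fixed coordinates outside `Lo` the square of the norm of
the average is the average over two independent copies of the coordinates in `Lo`). Switches on `S × S`: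
`w2.lab k s = w.lab k s.1`, `w2.flip k s = (w.flip k s.1, s.2)`, `w2.sg k s = w.sg k s.1`. Then
`fst (w2.flp u ρ) = w.flp u (fst ρ)`, `mix (w2.flp u ρ) = w.flp (u on the complement of Lo) (mix ρ)`; so `b2`, `φ2 = φ (fst ρ) - φ (mix ρ)`,
`g2`, `P2` satisfy the hypotheses of `gamma` and `ait` with `c2 x = if ∃ i, (x i).1 ∈ Lo then c x else 0` (if a place of the
tuple is in `Lo` the alternating sum of `P (mix ρ)` vanishes, otherwise the two alternating sums are equal). Degree: if
`u ↦ P (w.flp u (mix ρ))` is in `Dg (act (mix ρ)) d'`, then `u ↦ P (w.flp (u off Lo) (mix ρ))` is in `Dg (act ρ) d'` (compose with the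
restriction; generators go to generators with `S \ Lo`). The variation of `g2` is at most `4 η`, `η = δ⁴ / 256` (`(x - y)² ≤ 2 x² + 2 y²`;
`fst ρ` and `mix ρ` are uniformly distributed). `4 √(4 η) ≤ δ² / 2`. `gamma` and then `ait` for `δ² / 2`.
-/

set_option autoImplicit false

namespace Pool.Agent.Lib.MP_3e612f_nt.RD

open Finset
open Pool.Agent.Lib.MP_3e612f_nt.PI (ee)
open Pool.Agent.Lib.MP_3e612f_nt.DI (av pr)
open Pool.Agent.Lib.MP_3e612f_nt.LORT (Dg cst)

/-- the switches of the first component of `S × S` -/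
private def Sw.two {ι S Θ : Type} (w : Sw ι S Θ) : Sw ι (S × S) Θ where
  lab k s := w.lab k s.1
  flip k s := (w.flip k s.1, s.2)
  sg k s := w.sg k s.1
  flip_flip k s := by simp only [w.flip_flip]
  lab_flip k s := by simp only [w.lab_flip]
  flip_none k s h := by simp only [w.flip_none k s.1 h]
  sg_flip k s h := w.sg_flip k s.1 h
  sg_one k s h := w.sg_one k s.1 h

section al
variable {α β : Type} [Fintype α] [Fintype β]

private theorem al_const [Nonempty α] (c : ℝ) : ave (fun _ : α => c) = c := by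
  unfold ave
  have h : (Fintype.card α : ℝ) ≠ 0 := by exact_mod_cast Fintype.card_ne_zero
  rw [Finset.sum_const, card_univ, nsmul_eq_mul, inv_mul_cancel_left₀ h]

private theorem al_add (f g : α → ℝ) : ave (fun a => f a + g a) = ave f + ave g := by
  unfold ave
  rw [Finset.sum_add_distrib, mul_add]

private theorem al_mul (c : ℝ) (f : α → ℝ) : ave (fun a => c * f a) = c * ave f := by
  unfold ave
  rw [← Finset.mul_sum, mul_left_comm]

private theorem al_mono {f g : α → ℝ} (h : ∀ a, f a ≤ g a) : ave f ≤ ave g := by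
  unfold ave
  exact mul_le_mul_of_nonneg_left (Finset.sum_le_sum fun a _ => h a) (by positivity)

private theorem al_equiv (σ : α ≃ β) (f : β → ℝ) : ave (fun a => f (σ a)) = ave f := by
  unfold ave
  rw [Fintype.card_congr σ, Equiv.sum_comp σ f]

private theorem al_prod (f : α × β → ℝ) : ave f = ave fun a => ave fun b => f (a, b) := by
  unfold ave
  rw [Fintype.card_prod, Fintype.sum_prod_type, ← Finset.mul_sum, Nat.cast_mul, mul_inv, mul_assoc]

private theorem al_sq (f : α → ℝ) : (ave f) ^ 2 ≤ ave fun a => f a ^ 2 := by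
  unfold ave
  rcases Nat.eq_zero_or_pos (Fintype.card α) with h0 | h0
  · simp [h0]
  · have h2 : (0 : ℝ) < Fintype.card α := by exact_mod_cast h0
    have h3 : (∑ a, f a) ^ 2 ≤ (Fintype.card α : ℝ) * ∑ a, f a ^ 2 := by
      have := sq_sum_le_card_mul_sum_sq (s := (univ : Finset α)) (f := f)
      rwa [card_univ] at this
    rw [mul_pow, sq ((Fintype.card α : ℝ)⁻¹), mul_assoc]
    refine mul_le_mul_of_nonneg_left ?_ (by positivity)
    rw [inv_mul_le_iff₀ h2]
    exact h3

private theorem al_ofReal (f : α → ℝ) : ((ave f : ℝ) : ℂ) = av fun a => ((f a : ℝ) : ℂ) := by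
  unfold ave av
  push_cast
  rfl

end al

private theorem al_et_add (x y : UnitAddCircle) : et (x + y) = et x * et y := by
  unfold et
  rw [AddCircle.toCircle_add]
  simp

private theorem al_et_neg (x : UnitAddCircle) : et (-x) = (starRingEnd ℂ) (et x) := by
  unfold et
  rw [AddCircle.toCircle_neg, Circle.coe_inv_eq_conj]

section al2
variable {ι S : Type} [Fintype ι] [DecidableEq ι] [Fintype S]

private def alE : (ι → S × S) ≃ (ι → S) × (ι → S) where
  toFun := fun τ => (fun k => (τ k).1, fun k => (τ k).2)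
  invFun := fun p k => (p.1 k, p.2 k)
  left_inv := fun _ => rfl
  right_inv := fun _ => rfl

/-- the mixed copy -/
private def mixc (Lo : Finset ι) (ρ : ι → S × S) : ι → S := Lo.piecewise (fun k => (ρ k).2) fun k => (ρ k).1

private theorem al_fst [Nonempty S] (G : (ι → S) → ℝ) :
    (ave fun τ : ι → S × S => G fun k => (τ k).1) = ave G := by
  have h1 := al_equiv (alE (ι := ι) (S := S)) fun p => G p.1
  have h2 : (ave fun p : (ι → S) × (ι → S) => G p.1) = ave G := by
    rw [al_prod]
    congr 1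
    funext a
    exact al_const (α := ι → S) (G a)
  rw [← h2, ← h1]
  rfl

private theorem al_mix [Nonempty S] (Lo : Finset ι) (G : (ι → S) → ℝ) :
    (ave fun τ : ι → S × S => G (mixc Lo τ)) = ave G := by
  have h1 := al_equiv (alE (ι := ι) (S := S)) fun p => G (Lo.piecewise p.2 p.1)
  have h2 : (ave fun p : (ι → S) × (ι → S) => G (Lo.piecewise p.2 p.1)) = ave G := by
    let σ : ((ι → S) × (ι → S)) ≃ ((ι → S) × (ι → S)) :=
      { toFun := fun p => (Lo.piecewise p.2 p.1, Lo.piecewise p.1 p.2)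
        invFun := fun p => (Lo.piecewise p.2 p.1, Lo.piecewise p.1 p.2)
        left_inv := by
          rintro ⟨x, u⟩
          ext c <;> by_cases hc : c ∈ Lo <;> simp [hc]
        right_inv := by
          rintro ⟨x, u⟩
          ext c <;> by_cases hc : c ∈ Lo <;> simp [hc] }
    have h3 := al_equiv σ (fun p : (ι → S) × (ι → S) => G p.1)
    refine h3.trans ?_
    rw [al_prod]
    congr 1
    funext a
    exact al_const (α := ι → S) (G a)
  rw [← h2, ← h1]
  rfl

/-- two independent copies of the coordinates in `Lo` -/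
private theorem al_sqnorm [Nonempty S] (Lo : Finset ι) (F : (ι → S) → ℂ) :
    (av fun ρ : ι → S × S => F (fun k => (ρ k).1) * (starRingEnd ℂ) (F (mixc Lo ρ))) =
      ((ave fun σ => ‖av fun σ' : ι → S => F (Lo.piecewise σ' σ)‖ ^ 2 : ℝ) : ℂ) := by
  have h1 := DI.av_equiv (alE (ι := ι) (S := S)) fun p =>
    F p.1 * (starRingEnd ℂ) (F (Lo.piecewise p.2 p.1))
  have h2 : (av fun ρ : ι → S × S => F (fun k => (ρ k).1) * (starRingEnd ℂ) (F (mixc Lo ρ))) =
      av fun p : (ι → S) × (ι → S) => F p.1 * (starRingEnd ℂ) (F (Lo.piecewise p.2 p.1)) := by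
    rw [← h1]
    rfl
  rw [h2, DI.av_prod, al_ofReal]
  have h3 := DI.av_piecewise Lo (fun σ : ι → S =>
    av fun σ'' : ι → S => F σ * (starRingEnd ℂ) (F (Lo.piecewise σ'' σ)))
  rw [← h3]
  congr 1
  funext σ
  have h4 : ∀ σ' σ'' : ι → S, Lo.piecewise σ'' (Lo.piecewise σ' σ) = Lo.piecewise σ'' σ := by
    intro σ' σ''
    funext k
    by_cases hk : k ∈ Lo <;> simp [hk]
  simp only [h4]
  rw [Complex.ofReal_pow, ← Complex.mul_conj', DI.av_conj]
  have h5 : (fun σ' : ι → S => av fun σ'' : ι → S =>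
      F (Lo.piecewise σ' σ) * (starRingEnd ℂ) (F (Lo.piecewise σ'' σ))) =
      fun σ' => (av fun σ'' : ι → S => (starRingEnd ℂ) (F (Lo.piecewise σ'' σ))) *
        F (Lo.piecewise σ' σ) := by
    funext σ'
    rw [DI.av_mul_left, mul_comm]
  rw [h5, DI.av_mul_left, mul_comm]

end al2

/-- composition with the restriction to the complement of `Lo` -/
private theorem dg_off {ι G : Type} [DecidableEq ι] [AddCommGroup G] {J J' : Finset ι} {d : ℕ}
    {ψ : (ι → Bool) → G} (h : Dg J d ψ) (Lo : Finset ι) (hJ : J \ Lo ⊆ J') :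
    Dg J' d fun u => ψ fun k => u k && !decide (k ∈ Lo) := by
  unfold Dg at h ⊢
  induction h using AddSubgroup.closure_induction with
  | mem ψ hψ =>
    obtain ⟨S, hS, h1, h2⟩ := hψ
    refine AddSubgroup.subset_closure ⟨S \ Lo, fun k hk => hJ ?_, (card_le_card sdiff_subset).trans h1,
      fun x y hxy => h2 _ _ fun k hk => ?_⟩
    · rw [mem_sdiff] at hk ⊢
      exact ⟨hS hk.1, hk.2⟩
    · by_cases hkL : k ∈ Lo
      · simp [hkL]
      · rw [hxy k (mem_sdiff.2 ⟨hk, hkL⟩)]
  | zero => exact AddSubgroup.zero_mem _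
  | add x y _ _ hx hy => exact AddSubgroup.add_mem _ hx hy
  | neg x _ hx => exact AddSubgroup.neg_mem _ hx

private theorem al_pr {S Θ : Type} [Fintype S] [Nonempty S] (f : S → Option Θ) (θ : Θ) :
    (pr fun s : S × S => f s.1 = some θ) = pr fun s => f s = some θ := by
  classical
  have h1 : ∀ {α : Type} [Fintype α] (P : α → Prop),
      pr P = ave fun a => (if P a then (1 : ℝ) else 0) := by
    intro α _ P
    unfold pr ave
    rw [Finset.sum_boole, div_eq_inv_mul]
  rw [h1, h1, al_prod]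
  congr 1
  funext a
  exact al_const (α := S) (@ite ℝ (f a = some θ) (Classical.propDecidable _) 1 0)

/-- **the abstract inverse theorem, relative version** -/
theorem ait_lo (d' d M : ℕ) [NeZero M] (hd' : 1 ≤ d') {δ ρ0 : ℝ} (hδ : 0 < δ) (hρ : 0 < ρ0) :
    ∃ (M' B' : ℕ) (C' : ℝ), 1 ≤ M' ∧ 0 ≤ C' ∧
    ∀ (ι S Θ : Type) [Fintype ι] [DecidableEq ι] [Fintype S] [Nonempty S] [Fintype Θ]
      [DecidableEq Θ] (w : Sw ι S Θ) (A Lo : Finset ι),
      (∀ k ∈ A, ∀ θ, ρ0 ≤ pr fun s => w.lab k s = some θ) →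
      ∀ (b : (ι → S) → ℂ) (φ : (ι → S) → ZMod M) (g : (ι → S) → ℝ) (P : (ι → S) → UnitAddCircle)
        (c : (Fin d' → ι × Θ) → UnitAddCircle), (∀ σ, ‖b σ‖ ≤ 1) → (∀ u σ, b (w.flp u σ) = b σ) →
        w.Deg d φ → w.Deg d' P → w.Top P c →
        ave (fun σ => ∑ k, (g (w.flp (fun k' => decide (k' = k)) σ) - g σ) ^ 2) ≤ δ ^ 4 / 256 →
        δ ≤ ave (fun σ => ‖av fun σ' : ι → S =>
          b (Lo.piecewise σ' σ) * ee (φ (Lo.piecewise σ' σ)) * et (g (Lo.piecewise σ' σ) : ℝ) *
            et (P (Lo.piecewise σ' σ))‖) →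
        ∃ E : Finset ι, E.card ≤ B' ∧
          ∑ x ∈ (Tup d' (A \ E)).filter (fun x => ∃ i, (x i).1 ∈ Lo), ‖M' • c x‖ ^ 2 ≤ C' := by
  obtain ⟨M', B', C', hM', hC', hait⟩ := ait d' d M hd' (show (0 : ℝ) < δ ^ 2 / 2 by positivity) hρ
  refine ⟨M', B', C', hM', hC', ?_⟩
  intro ι S Θ _ _ _ _ _ _ w A Lo hA b φ g P c hb hbf hφ hP hc hvar hav
  classical
  set w2 : Sw ι (S × S) Θ := w.two with hw2
  set fst : (ι → S × S) → ι → S := fun ρ k => (ρ k).1 with hfst
  have hf1 : ∀ u ρ, fst (w2.flp u ρ) = w.flp u (fst ρ) := by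
    intro u ρ
    funext k
    simp only [hfst, hw2, Sw.flp, Sw.two]
    cases u k <;> simp
  have hf2 : ∀ u ρ, mixc Lo (w2.flp u ρ) = w.flp (fun k => u k && !decide (k ∈ Lo)) (mixc Lo ρ) := by
    intro u ρ
    funext k
    by_cases hk : k ∈ Lo
    · simp only [mixc, hw2, Sw.flp, Sw.two, Finset.piecewise_eq_of_mem _ _ _ hk, hk]
      cases u k <;> simp
    · simp only [mixc, hw2, Sw.flp, Sw.two, Finset.piecewise_eq_of_notMem _ _ _ hk, hk]
      cases u k <;> simp
  -- the doubled functions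
  set b2 : (ι → S × S) → ℂ := fun ρ => b (fst ρ) * (starRingEnd ℂ) (b (mixc Lo ρ)) with hb2
  set φ2 : (ι → S × S) → ZMod M := fun ρ => φ (fst ρ) - φ (mixc Lo ρ) with hφ2
  set g2 : (ι → S × S) → ℝ := fun ρ => g (fst ρ) - g (mixc Lo ρ) with hg2
  set P2 : (ι → S × S) → UnitAddCircle := fun ρ => P (fst ρ) - P (mixc Lo ρ) with hP2
  have hb2n : ∀ ρ, ‖b2 ρ‖ ≤ 1 := by
    intro ρ
    simp only [hb2]
    rw [norm_mul, RCLike.norm_conj]
    exact mul_le_one₀ (hb _) (norm_nonneg _) (hb _)
  have hb2f : ∀ u ρ, b2 (w2.flp u ρ) = b2 ρ := by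
    intro u ρ
    simp only [hb2]
    rw [hf1, hf2, hbf, hbf]
  -- the square
  set F : (ι → S) → ℂ := fun σ => b σ * ee (φ σ) * et (g σ : ℝ) * et (P σ) with hF
  have hF2 : ∀ ρ, F (fst ρ) * (starRingEnd ℂ) (F (mixc Lo ρ)) =
      b2 ρ * ee (φ2 ρ) * et (g2 ρ : ℝ) * et (P2 ρ) := by
    intro ρ
    have e1 : ee (φ2 ρ) = ee (φ (fst ρ)) * (starRingEnd ℂ) (ee (φ (mixc Lo ρ))) := by
      simp only [hφ2]
      rw [sub_eq_add_neg, PI.Kat_ee_add, PI.Kat_ee_neg]
    have e2 : et (g2 ρ : ℝ) = et (g (fst ρ) : ℝ) * (starRingEnd ℂ) (et (g (mixc Lo ρ) : ℝ)) := by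
      simp only [hg2]
      rw [← al_et_neg, ← al_et_add, AddCircle.coe_sub, sub_eq_add_neg]
    have e3 : et (P2 ρ) = et (P (fst ρ)) * (starRingEnd ℂ) (et (P (mixc Lo ρ))) := by
      simp only [hP2]
      rw [← al_et_neg, ← al_et_add, sub_eq_add_neg]
    rw [e1, e2, e3]
    simp only [hF, hb2, map_mul]
    ring
  have h1 : δ ^ 2 ≤ ‖av fun ρ => b2 ρ * ee (φ2 ρ) * et (g2 ρ : ℝ) * et (P2 ρ)‖ := by
    have e1 := al_sqnorm Lo F
    have e2 : (av fun ρ : ι → S × S => F (fun k => (ρ k).1) * (starRingEnd ℂ) (F (mixc Lo ρ))) =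
        av fun ρ => b2 ρ * ee (φ2 ρ) * et (g2 ρ : ℝ) * et (P2 ρ) := by
      congr 1
      funext ρ
      exact hF2 ρ
    rw [← e2, e1, Complex.norm_real, Real.norm_eq_abs]
    refine le_trans ?_ (le_abs_self _)
    refine le_trans ?_ (al_sq _)
    exact pow_le_pow_left₀ hδ.le hav 2
  have h2 := h1.trans (gamma w2 b2 φ2 g2 P2 hb2n hb2f)
  -- the variation
  set V : ℝ := ave fun σ => ∑ k, (g (w.flp (fun k' => decide (k' = k)) σ) - g σ) ^ 2 with hV
  have h3 : (ave fun ρ => ∑ k, (g2 (w2.flp (fun k' => decide (k' = k)) ρ) - g2 ρ) ^ 2) ≤ 4 * V := by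
    have e1 : ∀ ρ : ι → S × S, ∑ k, (g2 (w2.flp (fun k' => decide (k' = k)) ρ) - g2 ρ) ^ 2 ≤
        2 * (∑ k, (g (w.flp (fun k' => decide (k' = k)) (fst ρ)) - g (fst ρ)) ^ 2) +
        2 * (∑ k, (g (w.flp (fun k' => decide (k' = k)) (mixc Lo ρ)) - g (mixc Lo ρ)) ^ 2) := by
      intro ρ
      rw [Finset.mul_sum, Finset.mul_sum, ← Finset.sum_add_distrib]
      refine Finset.sum_le_sum fun k _ => ?_
      simp only [hg2]
      rw [hf1, hf2]
      have key : ∀ a a' b b' : ℝ, (a - b - (a' - b')) ^ 2 ≤ 2 * (a - a') ^ 2 + 2 * (b - b') ^ 2 := by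
        intro a a' b b'
        nlinarith [sq_nonneg ((a - a') + (b - b'))]
      refine (key _ _ _ _).trans (add_le_add le_rfl (mul_le_mul_of_nonneg_left ?_ zero_le_two))
      by_cases hk : k ∈ Lo
      · have e2 : (fun k' => decide (k' = k) && !decide (k' ∈ Lo)) = fun _ : ι => false := by
          funext k'
          by_cases hkk : k' = k
          · subst hkk; simp [hk]
          · simp [hkk]
        have e3 : w.flp (fun _ : ι => false) (mixc Lo ρ) = mixc Lo ρ := by
          funext k'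
          simp [Sw.flp]
        rw [e2, e3, sub_self, zero_pow two_ne_zero]
        exact sq_nonneg _
      · have e2 : (fun k' => decide (k' = k) && !decide (k' ∈ Lo)) = fun k' : ι => decide (k' = k) := by
          funext k'
          by_cases hkk : k' = k
          · subst hkk; simp [hk]
          · simp [hkk]
        rw [e2]
    refine (al_mono e1).trans (le_of_eq ?_)
    rw [al_add, al_mul, al_mul]
    have e4 := al_fst (ι := ι) (S := S) fun σ =>
      ∑ k, (g (w.flp (fun k' => decide (k' = k)) σ) - g σ) ^ 2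
    have e5 := al_mix (ι := ι) (S := S) Lo fun σ =>
      ∑ k, (g (w.flp (fun k' => decide (k' = k)) σ) - g σ) ^ 2
    simp only [hfst]
    rw [e4, e5]
    ring
  have h4 : 4 * Real.sqrt (ave fun ρ => ∑ k, (g2 (w2.flp (fun k' => decide (k' = k)) ρ) - g2 ρ) ^ 2) ≤
      δ ^ 2 / 2 := by
    have e1 : Real.sqrt (ave fun ρ => ∑ k, (g2 (w2.flp (fun k' => decide (k' = k)) ρ) - g2 ρ) ^ 2) ≤
        δ ^ 2 / 8 := by
      refine Real.sqrt_le_iff.2 ⟨by positivity, h3.trans ?_⟩
      nlinarith
    linarith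
  have h5 : δ ^ 2 / 2 ≤ ave (fun ρ => ‖av fun u : ι → Bool =>
      ee (φ2 (w2.flp u ρ)) * et (P2 (w2.flp u ρ))‖) := by linarith
  -- the degrees
  have hact : ∀ ρ, w2.act ρ = w.act (fst ρ) := fun ρ => rfl
  have hsub : ∀ ρ, w.act (mixc Lo ρ) \ Lo ⊆ w2.act ρ := by
    intro ρ k hk
    rw [mem_sdiff] at hk
    have e1 := (mem_filter.1 hk.1).2
    refine mem_filter.2 ⟨mem_univ _, ?_⟩
    simp only [mixc, Finset.piecewise_eq_of_notMem _ _ _ hk.2] at e1
    exact e1
  have hdeg : ∀ {G : Type} [AddCommGroup G] {n : ℕ} {f : (ι → S) → G}, w.Deg n f →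
      w2.Deg n fun ρ => f (fst ρ) - f (mixc Lo ρ) := by
    intro G _ n f hf ρ
    have e1 : (fun u => f (fst (w2.flp u ρ)) - f (mixc Lo (w2.flp u ρ))) =
        (fun u => f (w.flp u (fst ρ))) -
          fun u => f (w.flp (fun k => u k && !decide (k ∈ Lo)) (mixc Lo ρ)) := by
      funext u
      simp only [hf1, hf2, Pi.sub_apply]
    rw [e1]
    exact AddSubgroup.sub_mem _ (hf (fst ρ)) (dg_off (hf (mixc Lo ρ)) Lo (hsub ρ))
  -- the top form
  set c2 : (Fin d' → ι × Θ) → UnitAddCircle := fun x => if ∃ i, (x i).1 ∈ Lo then c x else 0 with hc2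
  have htop : w2.Top P2 c2 := by
    intro ρ x hinj hlab
    have e1 : w2.alt (fun i => (x i).1) P2 ρ = w.alt (fun i => (x i).1) P (fst ρ) -
        ∑ I : Finset (Fin d'), (-1 : ℤ) ^ I.card • P (w.flp (fun k =>
          decide (k ∈ I.image fun i => (x i).1) && !decide (k ∈ Lo)) (mixc Lo ρ)) := by
      unfold Sw.alt
      rw [← Finset.sum_sub_distrib]
      refine Finset.sum_congr rfl fun I _ => ?_
      simp only [hP2]
      rw [hf1, hf2, smul_sub]
    have e2 : w.alt (fun i => (x i).1) P (fst ρ) =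
        (∏ i, w2.sg (x i).1 (ρ (x i).1)) • c x := hc (fst ρ) x hinj hlab
    rw [e1, e2]
    by_cases hLo : ∃ i, (x i).1 ∈ Lo
    · have e3 : c2 x = c x := if_pos hLo
      rw [e3, sub_eq_self]
      obtain ⟨i0, hi0⟩ := hLo
      -- pair `I` with the symmetric difference with `i0`
      refine Finset.sum_involution (fun I _ => if i0 ∈ I then I.erase i0 else insert i0 I) ?_ ?_ ?_ ?_
      · intro I _
        have e4 : ∀ J : Finset (Fin d'), (fun k => decide (k ∈ (insert i0 J).image fun i => (x i).1) &&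
            !decide (k ∈ Lo)) = fun k => decide (k ∈ J.image fun i => (x i).1) && !decide (k ∈ Lo) := by
          intro J
          funext k
          by_cases hk : k ∈ Lo
          · simp [hk]
          · have : k ≠ (x i0).1 := fun h => hk (h ▸ hi0)
            rw [Finset.image_insert]
            simp [this]
        by_cases hI : i0 ∈ I
        · rw [if_pos hI]
          have e5 := e4 (I.erase i0)
          rw [insert_erase hI] at e5
          rw [e5, ← add_smul]
          have e6 : (I.card : ℕ) = (I.erase i0).card + 1 := (card_erase_add_one hI).symm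
          rw [e6, pow_succ]
          simp
        · rw [if_neg hI]
          rw [e4 I, ← add_smul, card_insert_of_notMem hI, pow_succ]
          simp
      · intro I _ _
        by_cases hI : i0 ∈ I
        · rw [if_pos hI]
          intro h
          rw [h.symm] at hI
          exact absurd hI (notMem_erase _ _)
        · rw [if_neg hI]
          intro h
          exact hI (h ▸ mem_insert_self _ _)
      · intro I _
        exact mem_univ _
      · intro I _
        by_cases hI : i0 ∈ I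
        · simp [hI]
        · simp [hI]
    · have e3 : c2 x = 0 := if_neg hLo
      push Not at hLo
      have e4 : ∀ I : Finset (Fin d'), (fun k => decide (k ∈ I.image fun i => (x i).1) &&
          !decide (k ∈ Lo)) = fun k => decide (k ∈ I.image fun i => (x i).1) := by
        intro I
        funext k
        by_cases hk : k ∈ I.image fun i => (x i).1
        · obtain ⟨i, -, rfl⟩ := mem_image.1 hk
          simp only [hLo i, decide_false, Bool.not_false, Bool.and_true]
        · simp [hk]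
      have e5 : ∀ i, mixc Lo ρ (x i).1 = fst ρ (x i).1 := by
        intro i
        simp only [mixc, hfst, Finset.piecewise_eq_of_notMem _ _ _ (hLo i)]
      have e6 : w.alt (fun i => (x i).1) P (mixc Lo ρ) =
          (∏ i, w2.sg (x i).1 (ρ (x i).1)) • c x := by
        have e7 := hc (mixc Lo ρ) x hinj (fun i => by rw [e5]; exact hlab i)
        rw [e7]
        congr 1
        refine Finset.prod_congr rfl fun i _ => ?_
        rw [e5]
        rfl
      rw [e3, smul_zero, sub_eq_zero, ← e6]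
      unfold Sw.alt
      refine Finset.sum_congr rfl fun I _ => ?_
      rw [e4 I]
  obtain ⟨E, hE, hs⟩ := hait ι (S × S) Θ w2 A
    (fun k hk θ => (hA k hk θ).trans (le_of_eq (al_pr (fun s => w.lab k s) θ).symm)) φ2 P2 c2
    (hdeg hφ) (hdeg hP) htop h5
  refine ⟨E, hE, le_trans ?_ hs⟩
  rw [Finset.sum_filter]
  refine Finset.sum_le_sum fun x _ => ?_
  by_cases hx : ∃ i, (x i).1 ∈ Lo
  · rw [if_pos hx]
    have : c2 x = c x := if_pos hx
    rw [this]
  · rw [if_neg hx]
    positivity

end Pool.Agent.Lib.MP_3e612f_nt.RD
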