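import Pool.Agent.Lib.MP_3e612f_nt.RD.L.GlobL
import Pool.Agent.Lib.MP_3e612f_nt.LO.D.Tr
import Pool.Agent.Lib.MP_3e612f_nt.LO.D.Bridge

/-!
The theorem for all real digit polynomials with a factor `cc (n / q ^ K)`.

PROOF of `rall2`. As `rall`: `ROL q d d` by induction from `rbase2` (`lpo_all`, `mrp` in `LO/D/Bridge.lean`), for `C = 0`, `M = 1`, `φ = 0`,
`g = 0`; `truncT`.
-/

set_option autoImplicit false

namespace Pool.Agent.Lib.MP_3e612f_nt.RD

open Finset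
open Pool.Agent.Lib.MP_3e612f_nt.PI (ee mc)
open Pool.Agent.Lib.MP_3e612f_nt.DI (av pr mlt)
open Pool.Agent.Lib.MP_3e612f_nt.EM

/-- the induction on the degree of the real phase -/
private theorem rol_all {q : ℕ} (hq : 2 ≤ q) (d : ℕ) : ROL q d d := by
  have h : ∀ d' : ℕ, d' ≤ d → ROL q d d' := by
    intro d'
    induction d' with
    | zero => exact fun _ => rbase2 hq d (LOD.lpo_all hq LOD.mrp d)
    | succ e ih =>
      intro he
      exact rstep2 hq (Nat.succ_pos e) he (by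
        rw [Nat.add_sub_cancel]
        exact ih (by omega))
  exact h d le_rfl

/-- **real digit polynomials and functions of `n / q ^ K`** -/
theorem rall2 {q : ℕ} (hq : 2 ≤ q) {d : ℕ} (hd : 1 ≤ d) (D B : ℕ) {ε : ℝ} (hε : 0 < ε) :
    ∃ K0 : ℕ, ∀ K ≥ K0, ∃ N0 : ℕ, ∀ N ≥ N0, ∀ (L s : ℕ) (I : Finset ℕ) (cc β : ℕ → ℂ)
      (h : ℕ → UnitAddCircle), (∀ n, ‖cc n‖ ≤ 1) →
      I.card ≤ B → (∀ n, ‖β n‖ ≤ 1) → DepL q (q * q ^ D) I β → IsPL q (q * q ^ D) d L h →
      ‖∑ n ∈ Icc 1 N, mc n * (cc ((n + s) / q ^ K) * (β (n + s) * et (h (n + s))))‖ ≤ ε * N := by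
  obtain ⟨K0, hK0⟩ := rol_all hq d D 1 B 1 0 le_rfl ε hε
  refine ⟨K0, fun K hK => ?_⟩
  obtain ⟨N0, hN0⟩ := hK0 K hK
  refine ⟨max N0 1, fun N hN L s I cc β h hcc hI hβ hdep hh => ?_⟩
  have h0 : N0 ≤ N := le_trans (le_max_left _ _) hN
  have h1 : 1 ≤ N := le_trans (le_max_right _ _) hN
  have hNK : N ≤ q ^ Nat.clog q N := Nat.le_pow_clog (by omega) N
  have hKN : q ^ Nat.clog q N ≤ q * N := by
    rcases Nat.eq_or_lt_of_le h1 with h | h
    · subst h
      simp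
      omega
    · have h2 : q ^ (Nat.clog q N).pred < N := Nat.pow_pred_clog_lt_self (by omega) h
      have h3 : 0 < Nat.clog q N := Nat.clog_pos (by omega) (by omega)
      have h4 : q ^ Nat.clog q N = q * q ^ (Nat.clog q N).pred := by
        rw [← pow_succ']
        congr 1
        exact (Nat.succ_pred_eq_of_pos h3).symm
      rw [h4]
      exact Nat.mul_le_mul_left q h2.le
  have hm : 2 ≤ q * q ^ D := le_trans hq (Nat.le_mul_of_pos_right q (Nat.pow_pos (by omega)))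
  obtain ⟨h', hh', hff⟩ := truncT (K1 := Nat.clog q N) hq hm s N hNK hh
  have hcls : RcL q d d D 1 B K 0 (Nat.clog q N + 1)
      fun n => cc (n / q ^ K) * (β n * et (h' n)) := by
    refine ⟨cc, fun n => β n * et (h' n), hcc, ?_, fun n => rfl⟩
    refine ⟨I, β, fun _ => 0, fun _ => 0, h', hI, hβ, hdep, IsPL.const 0, infl_zero, hh', ?_⟩
    intro n
    have e1 : ee (0 : ZMod 1) = 1 := by
      unfold ee
      simp
    have e2 : et ((0 : ℝ) : UnitAddCircle) = 1 := et_zero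
    rw [e1, e2, mul_one, mul_one]
  have h5 := hN0 N h0 (Nat.clog q N) (Nat.clog q N + 1) s hNK hKN le_rfl _ hcls
  have h6 : ∑ n ∈ Icc 1 N, mc n * (cc ((n + s) / q ^ K) * (β (n + s) * et (h (n + s)))) =
      ∑ n ∈ Icc 1 N, mc n * (cc ((n + s) / q ^ K) * (β (n + s) * et (h' (n + s)))) := by
    refine Finset.sum_congr rfl fun n hn => ?_
    rw [hff n (mem_Icc.1 hn).2]
  rw [h6]
  exact h5

end Pool.Agent.Lib.MP_3e612f_nt.RD
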