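import Pool.Agent.Lib.MP_3e612f_nt.RD.L.ClsL
import Pool.Agent.Lib.MP_3e612f_nt.RD.Bas

/-!
The base, with a factor which is an arbitrary function of `n / q ^ K`.

PROOF of `rbase2`. The proof of `rbase` (`RD/Bas.lean`) with the same scales `w_0 < w_1 < ... < w_R'`, and `K0 = w_R'`. For `K ≥ K0` a
block of length `E = q ^ (w_(t+1))` is inside a block of length `q ^ K`, so `cc ((n + k + s) / q ^ K)` does not depend on `k < H` for the `n`
for which `[n + s, n + s + H)` is inside a block of length `E`, and it can be taken out of the inner sum. Nothing else changes.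
(The best way is to prove the version with `cc` by changing the proof of `rbase`.)
-/

set_option autoImplicit false

namespace Pool.Agent.Lib.MP_3e612f_nt.RD

open Finset
open Pool.Agent.Lib.MP_3e612f_nt.PI (ee mc)
open Pool.Agent.Lib.MP_3e612f_nt.DI (av pr mlt)
open Pool.Agent.Lib.MP_3e612f_nt.EM
open Pool.Agent.Lib.MP_3e612f_nt.LOD (LPO base_avg base_count)

private theorem bas_dig {q : ℕ} {i a : ℕ} (hi : i < a) {m m' : ℕ}
    (h : m % q ^ a = m' % q ^ a) : m / q ^ i % q = m' / q ^ i % q := by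
  have h2 : q ^ i * q ∣ q ^ a := by
    rw [← pow_succ]
    exact pow_dvd_pow q hi
  have h3 : ∀ x, x / q ^ i % q = x % q ^ a % (q ^ i * q) / q ^ i := by
    intro x
    rw [Nat.mod_mod_of_dvd _ h2, Nat.mod_mul_right_div_self]
  rw [h3, h3 m', h]

private theorem bas_div {q : ℕ} {i b : ℕ} (hi : b ≤ i) {m m' : ℕ}
    (h : m / q ^ b = m' / q ^ b) : m / q ^ i = m' / q ^ i := by
  obtain ⟨c, rfl⟩ := Nat.exists_eq_add_of_le hi
  rw [pow_add, ← Nat.div_div_eq_div_mul, ← Nat.div_div_eq_div_mul, h]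

private theorem bas_et_lip (x y : ℝ) :
    ‖et (x : UnitAddCircle) - et (y : UnitAddCircle)‖ ≤ 2 * Real.pi * |x - y| := by
  have h0 : (x : UnitAddCircle) = (y : UnitAddCircle) + ((x - y : ℝ) : UnitAddCircle) := by
    rw [← AddCircle.coe_add]
    congr 1
    ring
  rw [h0, et_add]
  have h2 : et (y : UnitAddCircle) * et ((x - y : ℝ) : UnitAddCircle) - et (y : UnitAddCircle) =
      et (y : UnitAddCircle) * (et ((x - y : ℝ) : UnitAddCircle) - 1) := by ring
  rw [h2, norm_mul, norm_et, one_mul]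
  have h3 : et ((x - y : ℝ) : UnitAddCircle) =
      Complex.exp (Complex.I * ((2 * Real.pi * (x - y) : ℝ) : ℂ)) := by
    unfold et
    rw [AddCircle.toCircle_apply_mk, Circle.coe_exp]
    congr 1
    push_cast
    ring
  rw [h3]
  refine (Real.norm_exp_I_mul_ofReal_sub_one_le).trans (le_of_eq ?_)
  rw [Real.norm_eq_abs, abs_mul, abs_of_pos Real.two_pi_pos]

/-- a period -/
private theorem bas_period {P : ℕ} (u : ℕ → ℝ) (hper : ∀ m, u (m % P) = u m) (s : ℕ) :
    ∑ n ∈ range P, u (n + s) = ∑ m ∈ range P, u m := by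
  induction s with
  | zero => rfl
  | succ s ih =>
    have h1 := Finset.sum_range_succ' (fun n => u (n + s)) P
    have h2 := Finset.sum_range_succ (fun n => u (n + s)) P
    rw [h1] at h2
    have h3 : u (P + s) = u (0 + s) := by
      rw [← hper (P + s), Nat.add_mod_left, hper, Nat.zero_add]
    rw [h3] at h2
    have h4 : ∑ n ∈ range P, u (n + (s + 1)) = ∑ n ∈ range P, u (n + 1 + s) :=
      Finset.sum_congr rfl fun n _ => by rw [Nat.add_assoc, Nat.add_comm 1 s]
    rw [h4, ← ih]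
    linarith

private theorem bas_periodic {P : ℕ} (hP : 0 < P) (u : ℕ → ℝ) (hu : ∀ m, 0 ≤ u m)
    (hper : ∀ m, u (m % P) = u m) (X : ℕ) : ∀ s,
    ∑ n ∈ range X, u (n + s) ≤ ((X : ℝ) / P + 1) * ∑ m ∈ range P, u m := by
  have hPr : (0 : ℝ) < P := by exact_mod_cast hP
  have hS : 0 ≤ ∑ m ∈ range P, u m := Finset.sum_nonneg fun m _ => hu m
  induction X using Nat.strong_induction_on with
  | _ X ih =>
    intro s
    rcases Nat.lt_or_ge X P with h1 | h1
    · have h2 : ∑ n ∈ range X, u (n + s) ≤ ∑ n ∈ range P, u (n + s) :=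
        Finset.sum_le_sum_of_subset_of_nonneg (Finset.range_subset_range.2 h1.le)
          fun n _ _ => hu _
      rw [bas_period u hper s] at h2
      have h3 : (0 : ℝ) ≤ (X : ℝ) / P := by positivity
      nlinarith
    · obtain ⟨Y, rfl⟩ := Nat.exists_eq_add_of_le h1
      rw [Finset.sum_range_add, bas_period u hper s]
      have h2 := ih Y (by omega) (P + s)
      have h3 : ∑ n ∈ range Y, u (P + n + s) = ∑ n ∈ range Y, u (n + (P + s)) :=
        Finset.sum_congr rfl fun n _ => by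
          congr 1
          omega
      rw [h3]
      have h4 : (((P + Y : ℕ) : ℝ) / P + 1) = 1 + ((Y : ℝ) / P + 1) := by
        push_cast
        field_simp
        ring
      rw [h4, add_mul, one_mul]
      linarith

private theorem bas_mod {q w : ℕ} {m m' : ℕ}
    (h : ∀ i < w, m / q ^ i % q = m' / q ^ i % q) : m % q ^ w = m' % q ^ w := by
  induction w with
  | zero => rw [pow_zero, Nat.mod_one, Nat.mod_one]
  | succ w ih =>
    rw [Nat.mod_pow_succ, Nat.mod_pow_succ, ih fun i hi => h i (by omega), h w (by omega)]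

/-- one interval inside a block -/
private theorem bas_short {q Q E d D M : ℕ} [NeZero M] (hQ : 1 ≤ Q) (hE : 0 < E) (y N H : ℕ)
    (β : ℕ → ℂ) (φ : ℕ → ZMod M) (γ : ℕ → ℂ) (hγ1 : ∀ m, ‖γ m‖ ≤ 1)
    (hγ : ∀ m m', m % Q = m' % Q → m / E = m' / E → γ m = γ m') (hN : N % E + H ≤ E) :
    ‖∑ k ∈ range H, mc (y + k) * (β (N + k) * ee (φ (N + k)) * γ (N + k))‖ ≤
      ∑ a ∈ range Q, ‖∑ k ∈ range H,
        mc (y + k) * ((if (k + N) % Q = a then β (k + N) else 0) * ee (φ (k + N)))‖ := by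
  have hdiv : ∀ j, j < H → (N + j) / E = N / E := by
    intro j hj
    have h3 := Nat.mod_add_div N E
    have h4 : N + j = (N % E + j) + E * (N / E) := by omega
    rw [h4, Nat.add_mul_div_left _ _ hE, Nat.div_eq_of_lt (by omega), Nat.zero_add]
  rw [← Finset.sum_fiberwise_of_maps_to (s := range H) (t := range Q)
    (g := fun k => (k + N) % Q) (fun k _ => mem_range.2 (Nat.mod_lt _ hQ))]
  refine (norm_sum_le _ _).trans (Finset.sum_le_sum fun a _ => ?_)
  have h0 : ∑ k ∈ range H,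
        mc (y + k) * ((if (k + N) % Q = a then β (k + N) else 0) * ee (φ (k + N))) =
      ∑ k ∈ (range H).filter (fun k => (k + N) % Q = a),
        mc (y + k) * (β (N + k) * ee (φ (N + k))) := by
    rw [Finset.sum_filter]
    refine Finset.sum_congr rfl fun k _ => ?_
    rw [Nat.add_comm N k]
    by_cases hk : (k + N) % Q = a
    · rw [if_pos hk, if_pos hk]
    · rw [if_neg hk, if_neg hk, zero_mul, mul_zero]
  rw [h0]
  rcases ((range H).filter fun k => (k + N) % Q = a).eq_empty_or_nonempty with h1 | ⟨k0, hk0⟩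
  · rw [h1, Finset.sum_empty, Finset.sum_empty]
  · obtain ⟨h1, h2⟩ := mem_filter.1 hk0
    have h3 : ∑ k ∈ (range H).filter (fun k => (k + N) % Q = a),
          mc (y + k) * (β (N + k) * ee (φ (N + k)) * γ (N + k)) =
        (∑ k ∈ (range H).filter (fun k => (k + N) % Q = a),
          mc (y + k) * (β (N + k) * ee (φ (N + k)))) * γ (N + k0) := by
      rw [Finset.sum_mul]
      refine Finset.sum_congr rfl fun k hk => ?_
      obtain ⟨h4, h5⟩ := mem_filter.1 hk
      rw [hγ (N + k) (N + k0) (by rw [Nat.add_comm N k, Nat.add_comm N k0, h5, h2])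
        (by rw [hdiv k (mem_range.1 h4), hdiv k0 (mem_range.1 h1)])]
      ring
    rw [h3, norm_mul]
    exact mul_le_of_le_one_right (norm_nonneg _) (hγ1 _)

/-- **the base** -/
theorem rbase2 {q : ℕ} (hq : 2 ≤ q) (d : ℕ) (h : LPO q d) : ROL q d 0 := by
  classical
  intro D M B w0 _ C hC ε hε
  have hq0 : 0 < q := by omega
  have hq1 : 1 < q := by omega
  have hqr : (1 : ℝ) < q := by exact_mod_cast hq1
  have hT : 0 < q ^ D := Nat.pow_pos hq0
  -- the local theorem at every scale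
  have hl : ∀ w : ℕ, ∃ H : ℕ, 1 ≤ H ∧ ∃ X0 : ℕ, ∀ X ≥ X0, ∀ (L s : ℕ → ℕ) (F : ℕ → ℕ → ℂ),
      (∀ x, Cls q d (q ^ D) M (B + w) (L x) (F x)) →
      ∑ x ∈ range X, ‖∑ n ∈ range H, mc (x + n) * F x (n + s x)‖ ≤
        ε / (8 * (q : ℝ) ^ w) * H * X := by
    intro w
    obtain ⟨h0, hh0⟩ := h (q ^ D) M (B + w) hT (ε / (8 * (q : ℝ) ^ w)) (by positivity)
    exact ⟨max 1 h0, le_max_left _ _, hh0 _ (le_max_right _ _)⟩
  choose Hf hHf1 Xf hXf using hl
  -- the scales
  let w : ℕ → ℕ := fun t => Nat.rec 0 (fun _ w => w + 1 + Hf w * ⌈16 / ε⌉₊) t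
  have hw0 : w 0 = 0 := rfl
  have hw : ∀ t, w (t + 1) = w t + 1 + Hf (w t) * ⌈16 / ε⌉₊ := fun _ => rfl
  have hmono : Monotone w := monotone_nat_of_le_succ fun j => by
    rw [hw]
    omega
  have hE : ∀ t, (Hf (w t) : ℝ) * (16 / ε) ≤ (q : ℝ) ^ w (t + 1) := by
    intro t
    have h1 : Hf (w t) * ⌈16 / ε⌉₊ ≤ q ^ w (t + 1) := by
      refine le_trans ?_ (Nat.lt_pow_self hq1).le
      rw [hw]
      omega
    calc (Hf (w t) : ℝ) * (16 / ε) ≤ Hf (w t) * (⌈16 / ε⌉₊ : ℝ) :=
          mul_le_mul_of_nonneg_left (Nat.le_ceil _) (Nat.cast_nonneg _)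
      _ = ((Hf (w t) * ⌈16 / ε⌉₊ : ℕ) : ℝ) := by push_cast; ring
      _ ≤ ((q ^ w (t + 1) : ℕ) : ℝ) := by exact_mod_cast h1
      _ = _ := by push_cast; ring
  clear_value w
  -- the number of scales
  obtain ⟨R, hR0, hR⟩ : ∃ R : ℕ, 0 < R ∧
      2 * Real.pi * Real.sqrt ((1 + (q : ℝ) ^ (w0 + 1)) * (C / R)) ≤ ε / 4 := by
    set A : ℝ := (1 + (q : ℝ) ^ (w0 + 1)) * C with hA
    have hA0 : 0 ≤ A := by positivity
    set δ : ℝ := ε / (8 * Real.pi) with hδ
    have hδ0 : 0 < δ := by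
      have := Real.pi_pos
      positivity
    obtain ⟨R, hR⟩ := exists_nat_ge (A / δ ^ 2 + 1)
    have hRp : (0 : ℝ) < R := by
      have : 0 ≤ A / δ ^ 2 := by positivity
      linarith
    refine ⟨R, by exact_mod_cast hRp, ?_⟩
    have h1 : Real.sqrt ((1 + (q : ℝ) ^ (w0 + 1)) * (C / R)) ≤ δ := by
      rw [Real.sqrt_le_iff]
      refine ⟨hδ0.le, ?_⟩
      rw [← mul_div_assoc, ← hA, div_le_iff₀ hRp]
      have h2 : A / δ ^ 2 ≤ R := by linarith
      rw [div_le_iff₀ (by positivity)] at h2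
      linarith
    have h2 : 2 * Real.pi * δ = ε / 4 := by
      rw [hδ]
      field_simp
      norm_num
    rw [← h2]
    exact mul_le_mul_of_nonneg_left h1 (by positivity)
  have hRr : (0 : ℝ) < R := by exact_mod_cast hR0
  refine ⟨w R, fun K hK => ⟨∑ t ∈ range R, (Xf (w t) + ⌈32 * (Hf (w t) : ℝ) / ε⌉₊) + 1,
    fun N hN K1 L s hK1 hK2 hL F hF => ?_⟩⟩
  have hNt : ∀ t ∈ range R, Xf (w t) ≤ N ∧ 32 * (Hf (w t) : ℝ) ≤ ε * N := by
    intro t ht
    have h1 : Xf (w t) + ⌈32 * (Hf (w t) : ℝ) / ε⌉₊ ≤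
        ∑ t ∈ range R, (Xf (w t) + ⌈32 * (Hf (w t) : ℝ) / ε⌉₊) :=
      Finset.single_le_sum (f := fun t => Xf (w t) + ⌈32 * (Hf (w t) : ℝ) / ε⌉₊)
        (fun _ _ => Nat.zero_le _) ht
    refine ⟨by omega, ?_⟩
    have h2 : ⌈32 * (Hf (w t) : ℝ) / ε⌉₊ ≤ N := by omega
    have h3 : 32 * (Hf (w t) : ℝ) / ε ≤ N := (Nat.le_ceil _).trans (by exact_mod_cast h2)
    rw [div_le_iff₀ hε] at h3
    linarith
  have hN1 : 1 ≤ N := by omega
  have hN1r : (1 : ℝ) ≤ N := by exact_mod_cast hN1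
  obtain ⟨cc, F0, hcc, ⟨I, β, φ, g, hh, hI, hβ, hdep, hφ, ⟨hgper, hg⟩, ⟨t0, ht0, hht⟩, hFe⟩,
    hFc⟩ := hF
  have hconst : ∀ n, hh n = t0 ∅ := by
    intro n
    rw [hht n]
    unfold FP
    rw [Finset.sum_eq_single ∅]
    · intro S _ hS
      exact ht0 S (Finset.card_pos.2 (Finset.nonempty_iff_ne_empty.2 hS))
    · intro h
      exact absurd (Finset.empty_mem_powerset _) h
  set P : ℕ := q ^ L with hP
  have hP0 : 0 < P := Nat.pow_pos hq0
  have hPr : (0 : ℝ) < P := by exact_mod_cast hP0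
  -- the pigeonhole principle
  set v : ℕ → ℝ := fun i => ∑ m ∈ range P, (g m - g (zd q i m)) ^ 2 with hv
  have hv0 : ∀ i, 0 ≤ v i := fun i => Finset.sum_nonneg fun m _ => sq_nonneg _
  obtain ⟨t, htR, ht⟩ : ∃ t ∈ range R,
      ∑ i ∈ (Ico (w t) (w (t + 1))).filter (fun i => i < L), v i ≤ C / R * P := by
    refine Finset.exists_le_of_sum_le (f := fun t =>
      ∑ i ∈ (Ico (w t) (w (t + 1))).filter (fun i => i < L), v i) (g := fun _ => C / R * P)
      ⟨0, mem_range.2 hR0⟩ ?_
    have h1 : ∀ R : ℕ, ∑ t ∈ range R,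
        ∑ i ∈ (Ico (w t) (w (t + 1))).filter (fun i => i < L), v i =
        ∑ i ∈ (range (w R)).filter (fun i => i < L), v i := by
      intro R
      induction R with
      | zero => rw [hw0]; rfl
      | succ R ih =>
        rw [Finset.sum_range_succ, ih, Finset.sum_filter, Finset.sum_filter, Finset.sum_filter,
          Finset.range_eq_Ico, Finset.range_eq_Ico,
          Finset.sum_Ico_consecutive _ (Nat.zero_le _) (hmono (Nat.le_succ R))]
    rw [h1, Finset.sum_const, card_range, nsmul_eq_mul]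
    have h2 : ∑ i ∈ (range (w R)).filter (fun i => i < L), v i ≤ ∑ i ∈ range L, v i := by
      refine Finset.sum_le_sum_of_subset_of_nonneg ?_ fun i _ _ => hv0 i
      intro i hi
      exact mem_range.2 (mem_filter.1 hi).2
    refine h2.trans ?_
    have h3 : (R : ℝ) * (C / R * P) = C * (q : ℝ) ^ L := by
      rw [hP]
      push_cast
      field_simp
    rw [h3]
    exact hg
  -- the average over the block
  obtain ⟨g', hg'1, hg'2⟩ := avg_block (L := L) hq g (w t) (w (t + 1))
  set g2 : ℕ → ℝ := fun m => g' (m % P) with hg2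
  have hg2per : ∀ m, g2 (m % P) = g2 m := fun m => by
    simp only [hg2, Nat.mod_mod]
  have hg2b : ∀ m m', m % q ^ w t = m' % q ^ w t → m / q ^ w (t + 1) = m' / q ^ w (t + 1) →
      g2 m = g2 m' := by
    intro m m' h1 h2
    refine hg'1 _ _ ?_ ?_
    · refine bas_mod fun i hi => ?_
      have h3 : ∀ x, x % P / q ^ i % q = if i < L then x / q ^ i % q else 0 := by
        intro x
        split_ifs with h4
        · exact bas_dig h4 (Nat.mod_mod _ _)
        · rw [Nat.div_eq_of_lt, Nat.zero_mod]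
          exact lt_of_lt_of_le (Nat.mod_lt _ hP0) (Nat.pow_le_pow_right hq0 (by omega))
      rw [h3, h3, bas_dig hi h1]
    · rcases Nat.lt_or_ge L (w (t + 1)) with h3 | h3
      · have h4 : ∀ x, x % P / q ^ w (t + 1) = 0 := fun x => Nat.div_eq_of_lt
          (lt_of_lt_of_le (Nat.mod_lt _ hP0) (Nat.pow_le_pow_right hq0 h3.le))
        rw [h4, h4]
      · obtain ⟨e, he⟩ := Nat.exists_eq_add_of_le h3
        have h4 : ∀ x, x % P / q ^ w (t + 1) = x / q ^ w (t + 1) % q ^ e := by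
          intro x
          rw [hP, he, pow_add, Nat.mod_mul_right_div_self]
        rw [h4, h4, h2]
  have hdist : ∑ m ∈ range P, (g m - g2 m) ^ 2 ≤ C / R * P := by
    refine le_trans (le_of_eq ?_) (hg'2.trans ht)
    refine Finset.sum_congr rfl fun m hm => ?_
    simp only [hg2]
    rw [Nat.mod_eq_of_lt (mem_range.1 hm)]
  -- the range of summation
  set X : ℕ := N + 1 with hX
  have hXr : (X : ℝ) = N + 1 := by rw [hX]; push_cast; ring
  have hX1 : (1 : ℝ) ≤ X := by rw [hXr]; linarith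
  have hmc0 : mc 0 = 0 := by
    unfold mc
    simp
  have hrange : ∀ G : ℕ → ℂ, ∑ n ∈ Icc 1 N, mc n * G n = ∑ n ∈ range X, mc n * G n := by
    intro G
    rw [hX, Finset.range_eq_Ico, Finset.sum_eq_sum_Ico_succ_bot (by omega), hmc0, zero_mul,
      zero_add]
    rfl
  rw [hrange]
  -- the replacement of `g`
  set γ : ℕ → ℂ := fun m => cc (m / q ^ K) * (et (g2 m : ℝ) * et (t0 ∅)) with hγ
  have hγ1 : ∀ m, ‖γ m‖ ≤ 1 := fun m => by
    simp only [hγ, norm_mul, norm_et, mul_one]
    exact hcc _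
  have hPX : (P : ℝ) ≤ (q : ℝ) ^ (w0 + 1) * X := by
    have h1 : P ≤ q ^ (w0 + 1) * N := by
      calc P ≤ q ^ (K1 + w0) := Nat.pow_le_pow_right hq0 hL
        _ = q ^ w0 * q ^ K1 := by rw [pow_add, mul_comm]
        _ ≤ q ^ w0 * (q * N) := Nat.mul_le_mul_left _ hK2
        _ = q ^ (w0 + 1) * N := by rw [pow_succ]; ring
    have h2 : (P : ℝ) ≤ (q : ℝ) ^ (w0 + 1) * N := by exact_mod_cast h1
    refine h2.trans (mul_le_mul_of_nonneg_left ?_ (by positivity))
    rw [hXr]
    linarith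
  have hrep : ‖∑ n ∈ range X, mc n * F (n + s) -
      ∑ n ∈ range X, mc n * (β (n + s) * ee (φ (n + s)) * γ (n + s))‖ ≤ ε / 4 * X := by
    rw [← Finset.sum_sub_distrib]
    have h1 : ∀ n, ‖mc n * F (n + s) - mc n * (β (n + s) * ee (φ (n + s)) * γ (n + s))‖ ≤
        2 * Real.pi * |g (n + s) - g2 (n + s)| := by
      intro n
      have e1 : mc n * F (n + s) - mc n * (β (n + s) * ee (φ (n + s)) * γ (n + s)) =
          mc n * (cc ((n + s) / q ^ K) * (β (n + s) * (ee (φ (n + s)) * (et (t0 ∅) *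
            (et (g (n + s) : ℝ) - et (g2 (n + s) : ℝ)))))) := by
        rw [hFc, hFe, hconst]
        simp only [hγ]
        ring
      rw [e1, norm_mul, norm_mul, norm_mul, norm_mul, norm_mul, PI.Kat_norm_ee, norm_et, one_mul,
        one_mul]
      have h2 := bas_et_lip (g (n + s)) (g2 (n + s))
      have h3 := LOD.base_norm_mc n
      have h4 := hβ (n + s)
      have h5 := hcc ((n + s) / q ^ K)
      calc _ ≤ 1 * (1 * (1 * (2 * Real.pi * |g (n + s) - g2 (n + s)|))) := by gcongr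
        _ = _ := by ring
    refine (norm_sum_le _ _).trans ((Finset.sum_le_sum fun n _ => h1 n).trans ?_)
    rw [← Finset.mul_sum]
    set u : ℕ → ℝ := fun m => (g m - g2 m) ^ 2 with hu
    have hu0 : ∀ m, 0 ≤ u m := fun m => sq_nonneg _
    have huper : ∀ m, u (m % P) = u m := fun m => by
      simp only [hu]
      rw [hgper, hg2per]
    have h2 := bas_periodic hP0 u hu0 huper X s
    have h3 : ∑ n ∈ range X, |g (n + s) - g2 (n + s)| ≤
        Real.sqrt (X * ∑ n ∈ range X, u (n + s)) := by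
      refine Real.le_sqrt_of_sq_le ?_
      have h4 := sq_sum_le_card_mul_sum_sq (s := range X)
        (f := fun n => |g (n + s) - g2 (n + s)|)
      rw [card_range] at h4
      refine h4.trans (le_of_eq ?_)
      congr 1
      refine Finset.sum_congr rfl fun n _ => ?_
      rw [sq_abs]
    have h5 : (X : ℝ) * ∑ n ∈ range X, u (n + s) ≤
        X ^ 2 * ((1 + (q : ℝ) ^ (w0 + 1)) * (C / R)) := by
      have h6 : ∑ n ∈ range X, u (n + s) ≤ ((X : ℝ) / P + 1) * (C / R * P) :=
        h2.trans (mul_le_mul_of_nonneg_left hdist (by positivity))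
      have h7 : ((X : ℝ) / P + 1) * (C / R * P) = (X + P) * (C / R) := by
        field_simp
      rw [h7] at h6
      have h8 : 0 ≤ C / R := by positivity
      calc (X : ℝ) * ∑ n ∈ range X, u (n + s) ≤ X * ((X + P) * (C / R)) :=
            mul_le_mul_of_nonneg_left h6 (by positivity)
        _ ≤ X * ((X + (q : ℝ) ^ (w0 + 1) * X) * (C / R)) := by gcongr
        _ = _ := by ring
    have h9 : Real.sqrt (X * ∑ n ∈ range X, u (n + s)) ≤
        X * Real.sqrt ((1 + (q : ℝ) ^ (w0 + 1)) * (C / R)) := by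
      refine (Real.sqrt_le_sqrt h5).trans (le_of_eq ?_)
      rw [Real.sqrt_mul (sq_nonneg _), Real.sqrt_sq (by positivity)]
    calc 2 * Real.pi * ∑ n ∈ range X, |g (n + s) - g2 (n + s)|
        ≤ 2 * Real.pi * (X * Real.sqrt ((1 + (q : ℝ) ^ (w0 + 1)) * (C / R))) := by
          have := Real.pi_pos
          exact mul_le_mul_of_nonneg_left (h3.trans h9) (by positivity)
      _ = (2 * Real.pi * Real.sqrt ((1 + (q : ℝ) ^ (w0 + 1)) * (C / R))) * X := by ring
      _ ≤ _ := mul_le_mul_of_nonneg_right hR (by positivity)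
  -- the main part
  obtain ⟨hXt, hHt⟩ := hNt t htR
  set H : ℕ := Hf (w t) with hH
  set Q : ℕ := q ^ w t with hQ
  set E : ℕ := q ^ w (t + 1) with hEd
  have hH1 : 1 ≤ H := hHf1 (w t)
  have hHr : (0 : ℝ) < H := by exact_mod_cast hH1
  have hQ1 : 1 ≤ Q := Nat.pow_pos hq0
  have hE0 : 0 < E := Nat.pow_pos hq0
  have hEr : (0 : ℝ) < E := by exact_mod_cast hE0
  have hHE : (H : ℝ) / E ≤ ε / 16 := by
    have h1 := hE t
    have h2 : ((q : ℝ) ^ w (t + 1)) = (E : ℝ) := by rw [hEd]; push_cast; rfl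
    rw [h2, ← hH] at h1
    rw [div_le_iff₀ hEr]
    have h3 : (H : ℝ) = ε / 16 * (H * (16 / ε)) := by field_simp
    rw [h3]
    exact mul_le_mul_of_nonneg_left h1 (by positivity)
  let Fa : ℕ → ℕ → ℂ := fun a m => (if m % Q = a then β m else 0) * ee (φ m)
  have hCls : ∀ a, Cls q d (q ^ D) M (B + w t) L (Fa a) := by
    intro a
    refine ⟨I ∪ range (w t), fun m => if m % Q = a then β m else 0, φ, ?_, ?_, ?_, hφ,
      fun n => rfl⟩
    · refine (Finset.card_union_le _ _).trans ?_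
      rw [card_range]
      omega
    · intro m
      show ‖(if m % Q = a then β m else 0)‖ ≤ 1
      split_ifs
      · exact hβ m
      · rw [norm_zero]
        exact zero_le_one
    · intro m m' hm
      show (if m % Q = a then β m else 0) = (if m' % Q = a then β m' else 0)
      have h1 : β m = β m' := hdep m m' fun i hi => hm i (mem_union_left _ hi)
      have h2 : m % Q = m' % Q := by
        refine bas_mod fun i hi => ?_
        have h3 := hm i (mem_union_right _ (mem_range.2 hi))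
        have h4 : q ∣ q * q ^ D := Dvd.intro _ rfl
        rw [← Nat.mod_mod_of_dvd _ h4, h3, Nat.mod_mod_of_dvd _ h4]
      rw [h1, h2]
  set G : ℕ → ℂ := fun n => mc n * (β (n + s) * ee (φ (n + s)) * γ (n + s)) with hG
  have hG1 : ∀ n, ‖G n‖ ≤ 1 := by
    intro n
    simp only [hG]
    rw [norm_mul, norm_mul, norm_mul, PI.Kat_norm_ee, mul_one]
    calc _ ≤ (1 : ℝ) * (1 * 1) := mul_le_mul (LOD.base_norm_mc _)
            (mul_le_mul (hβ _) (hγ1 _) (norm_nonneg _) zero_le_one) (by positivity) zero_le_one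
      _ = 1 := by norm_num
  have hγb : ∀ m m', m % Q = m' % Q → m / E = m' / E → γ m = γ m' := by
    intro m m' h1 h2
    simp only [hγ]
    have h3 : w (t + 1) ≤ K := (hmono (by have := mem_range.1 htR; omega)).trans hK
    rw [hg2b m m' h1 h2, bas_div h3 h2]
  have hloc : ∀ n, ‖∑ k ∈ range H, G (n + k)‖ ≤
      (∑ a ∈ range Q, ‖∑ k ∈ range H, mc (n + k) * Fa a (k + (n + s))‖) +
      if ¬ ((n + s) % E + H ≤ E) then (H : ℝ) else 0 := by
    intro n
    by_cases hn : (n + s) % E + H ≤ E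
    · rw [if_neg (not_not.2 hn), add_zero]
      have h2 := bas_short (q := q) (d := d) (D := D) hQ1 hE0 n (n + s) H β φ γ hγ1 hγb hn
      refine le_trans (le_of_eq ?_) h2
      congr 1
      refine Finset.sum_congr rfl fun k _ => ?_
      simp only [hG]
      rw [add_right_comm n k s]
    · rw [if_pos hn]
      have h2 : ‖∑ k ∈ range H, G (n + k)‖ ≤ H := by
        refine (norm_sum_le _ _).trans ((Finset.sum_le_card_nsmul _ _ 1 fun k _ => hG1 _).trans ?_)
        rw [card_range, nsmul_eq_mul, mul_one]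
      have h3 : (0 : ℝ) ≤ ∑ a ∈ range Q, ‖∑ k ∈ range H, mc (n + k) * Fa a (k + (n + s))‖ :=
        Finset.sum_nonneg fun _ _ => norm_nonneg _
      linarith
  have hsum : ∑ n ∈ range X, ‖∑ k ∈ range H, G (n + k)‖ ≤
      ε / 8 * H * X + (H * (X / E + 2)) * H := by
    refine (Finset.sum_le_sum fun n (_ : n ∈ range X) => hloc n).trans ?_
    rw [Finset.sum_add_distrib]
    refine add_le_add ?_ ?_
    · rw [Finset.sum_comm]
      have h1 : ∀ a ∈ range Q, ∑ n ∈ range X, ‖∑ k ∈ range H, mc (n + k) * Fa a (k + (n + s))‖ ≤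
          ε / (8 * (q : ℝ) ^ w t) * H * X := by
        intro a _
        exact hXf (w t) X (hXt.trans (Nat.le_succ N)) (fun _ => L) (fun x => x + s)
          (fun _ => Fa a) (fun _ => hCls a)
      refine (Finset.sum_le_sum h1).trans (le_of_eq ?_)
      rw [Finset.sum_const, card_range, nsmul_eq_mul, hQ]
      push_cast
      field_simp
    · rw [← Finset.sum_filter, Finset.sum_const, nsmul_eq_mul]
      refine mul_le_mul_of_nonneg_right ?_ hHr.le
      have h3 := base_count hE0 X s H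
      have h5 : (((X / E : ℕ)) : ℝ) ≤ X / (E : ℝ) := Nat.cast_div_le
      calc ((((range X).filter fun n => ¬ ((n + s) % E + H ≤ E)).card : ℕ) : ℝ)
          ≤ ((H * (X / E + 2) : ℕ) : ℝ) := by exact_mod_cast h3
        _ = H * (((X / E : ℕ) : ℝ) + 2) := by push_cast; ring
        _ ≤ _ := mul_le_mul_of_nonneg_left (by linarith) hHr.le
  have hmain : ‖∑ n ∈ range X, G n‖ ≤ ε / 8 * X + ε / 16 * X + 4 * H := by
    refine (base_avg G hG1 X hH1).trans ?_
    have h1 : (∑ n ∈ range X, ‖∑ k ∈ range H, G (n + k)‖) / H ≤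
        ε / 8 * X + H * (X / E + 2) := by
      rw [div_le_iff₀ hHr]
      refine hsum.trans (le_of_eq ?_)
      ring
    have h2 : (H : ℝ) * (X / E + 2) ≤ ε / 16 * X + 2 * H := by
      have h3 : (H : ℝ) * (X / E + 2) = H / E * X + 2 * H := by ring
      rw [h3]
      have := mul_le_mul_of_nonneg_right hHE (by positivity : (0 : ℝ) ≤ X)
      linarith
    linarith
  have hfin : ‖∑ n ∈ range X, mc n * F (n + s)‖ ≤ ε / 4 * X + (ε / 8 * X + ε / 16 * X + 4 * H) := by
    have e1 : ∑ n ∈ range X, mc n * F (n + s) = (∑ n ∈ range X, mc n * F (n + s) -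
        ∑ n ∈ range X, mc n * (β (n + s) * ee (φ (n + s)) * γ (n + s))) + ∑ n ∈ range X, G n := by
      simp only [hG]
      ring
    rw [e1]
    exact (norm_add_le _ _).trans (add_le_add hrep hmain)
  refine hfin.trans ?_
  have h1 : (X : ℝ) ≤ 2 * N := by rw [hXr]; linarith
  have h2 := mul_le_mul_of_nonneg_left h1 hε.le
  linarith

end Pool.Agent.Lib.MP_3e612f_nt.RD
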