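import Pool.Agent.Lib.MP_3e612f_nt.RD.L.ClsL

/-!
Pair correlations with factors `cc ((p n + s) / q ^ K)`, in terms of the sums over shorter blocks.

PROOF of `blk_c`. `[1, N]` differs from the union of the `U = N / q ^ K' + 1` blocks `[q ^ K' u', q ^ K' (u' + 1))` by at most
`q ^ K' + 1` numbers. In a block on which `(p n + s) / q ^ K` and `(r n + s) / q ^ K` are constant the factor can be taken out. The
function `n ↦ (p n + s) / q ^ K` is monotone and increases by at most `(p q ^ K' U) / q ^ K + 1` on `[0, q ^ K' U)`, so it is constant on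
all but so many blocks; the same for `r`.
PROOF of `blk_big`. Group the blocks of length `q ^ K'` into the blocks of length `q ^ K2`.
-/

set_option autoImplicit false

namespace Pool.Agent.Lib.MP_3e612f_nt.RD

open Finset

private theorem sum_range_mul_aux {A : Type} [AddCommMonoid A] (f : ℕ → A) (R G : ℕ) :
    ∑ i ∈ range (R * G), f i = ∑ u ∈ range G, ∑ v ∈ range R, f (R * u + v) := by
  induction G with
  | zero => simp
  | succ G ih => rw [Nat.mul_succ, Finset.sum_range_add, ih, Finset.sum_range_succ]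

private theorem block_bound (p r s Q : ℕ) (cc cc' f0 : ℕ → ℂ) (qK : ℕ)
    (h1 : ∀ n, ‖cc n‖ ≤ 1) (h2 : ∀ n, ‖cc' n‖ ≤ 1) (h3 : ∀ n, ‖f0 n‖ ≤ 1) (u : ℕ) :
    ‖∑ x ∈ range Q, cc ((p * (Q * u + x) + s) / qK) * cc' ((r * (Q * u + x) + s) / qK) *
        f0 (Q * u + x)‖ ≤
      ‖∑ x ∈ range Q, f0 (Q * u + x)‖ +
        (Q : ℝ) * ((((p * (Q * (u + 1)) + s) / qK : ℕ) : ℝ) - (((p * (Q * u) + s) / qK : ℕ) : ℝ) +
          ((((r * (Q * (u + 1)) + s) / qK : ℕ) : ℝ) - (((r * (Q * u) + s) / qK : ℕ) : ℝ))) := by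
  have hmono : ∀ p : ℕ, ∀ a b : ℕ, a ≤ b → (p * a + s) / qK ≤ (p * b + s) / qK := by
    intro p a b hab
    exact Nat.div_le_div_right (by gcongr)
  have hQ0 : (0 : ℝ) ≤ (Q : ℝ) := Nat.cast_nonneg _
  by_cases hc : (p * (Q * (u + 1)) + s) / qK = (p * (Q * u) + s) / qK ∧
      (r * (Q * (u + 1)) + s) / qK = (r * (Q * u) + s) / qK
  · obtain ⟨hp, hr⟩ := hc
    have hconst : ∀ x ∈ range Q, cc ((p * (Q * u + x) + s) / qK) *
        cc' ((r * (Q * u + x) + s) / qK) * f0 (Q * u + x) =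
        (cc ((p * (Q * u) + s) / qK) * cc' ((r * (Q * u) + s) / qK)) * f0 (Q * u + x) := by
      intro x hx
      have hx' : x < Q := Finset.mem_range.1 hx
      have hle : Q * u + x ≤ Q * (u + 1) := by
        rw [Nat.mul_succ]; omega
      have e1 : (p * (Q * u + x) + s) / qK = (p * (Q * u) + s) / qK := by
        apply le_antisymm
        · rw [← hp]; exact hmono p _ _ hle
        · exact hmono p _ _ (Nat.le_add_right _ _)
      have e2 : (r * (Q * u + x) + s) / qK = (r * (Q * u) + s) / qK := by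
        apply le_antisymm
        · rw [← hr]; exact hmono r _ _ hle
        · exact hmono r _ _ (Nat.le_add_right _ _)
      rw [e1, e2]
    rw [Finset.sum_congr rfl hconst, ← Finset.mul_sum, norm_mul, norm_mul, hp, hr]
    have : ‖cc ((p * (Q * u) + s) / qK)‖ * ‖cc' ((r * (Q * u) + s) / qK)‖ ≤ 1 :=
      mul_le_one₀ (h1 _) (norm_nonneg _) (h2 _)
    have h0 := norm_nonneg (∑ x ∈ range Q, f0 (Q * u + x))
    nlinarith
  · have hP := hmono p (Q * u) (Q * (u + 1)) (by gcongr; omega)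
    have hR := hmono r (Q * u) (Q * (u + 1)) (by gcongr; omega)
    have hge : (1 : ℝ) ≤ ((((p * (Q * (u + 1)) + s) / qK : ℕ) : ℝ) -
        (((p * (Q * u) + s) / qK : ℕ) : ℝ) +
          ((((r * (Q * (u + 1)) + s) / qK : ℕ) : ℝ) - (((r * (Q * u) + s) / qK : ℕ) : ℝ))) := by
      have : (p * (Q * u) + s) / qK + (r * (Q * u) + s) / qK + 1 ≤
          (p * (Q * (u + 1)) + s) / qK + (r * (Q * (u + 1)) + s) / qK := by
        by_contra hlt
        apply hc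
        omega
      have h' : ((((p * (Q * u) + s) / qK : ℕ) : ℝ) + (((r * (Q * u) + s) / qK : ℕ) : ℝ) + 1) ≤
          (((p * (Q * (u + 1)) + s) / qK : ℕ) : ℝ) + (((r * (Q * (u + 1)) + s) / qK : ℕ) : ℝ) := by
        exact_mod_cast this
      linarith
    have hnorm : ‖∑ x ∈ range Q, cc ((p * (Q * u + x) + s) / qK) *
        cc' ((r * (Q * u + x) + s) / qK) * f0 (Q * u + x)‖ ≤ Q := by
      refine (norm_sum_le _ _).trans ?_
      calc _ ≤ ∑ _x ∈ range Q, (1 : ℝ) := by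
            refine Finset.sum_le_sum fun x _ => ?_
            rw [norm_mul, norm_mul]
            exact mul_le_one₀ (mul_le_one₀ (h1 _) (norm_nonneg _) (h2 _)) (norm_nonneg _) (h3 _)
        _ = Q := by simp
    have h0 := norm_nonneg (∑ x ∈ range Q, f0 (Q * u + x))
    nlinarith

private theorem tele (a : ℕ → ℝ) (U : ℕ) :
    ∑ u ∈ range U, (a (u + 1) - a u) = a U - a 0 := Finset.sum_range_sub a U

/-- the factors are removed -/
theorem blk_c {q : ℕ} (hq : 2 ≤ q) (p r s K K' N : ℕ) (hK : K' ≤ K) (cc cc' f0 : ℕ → ℂ)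
    (h1 : ∀ n, ‖cc n‖ ≤ 1) (h2 : ∀ n, ‖cc' n‖ ≤ 1) (h3 : ∀ n, ‖f0 n‖ ≤ 1) :
    ‖∑ n ∈ Icc 1 N, cc ((p * n + s) / q ^ K) * cc' ((r * n + s) / q ^ K) * f0 n‖ ≤
      ∑ u' ∈ range (N / q ^ K' + 1), ‖∑ x ∈ range (q ^ K'), f0 (q ^ K' * u' + x)‖ +
        (((p : ℝ) + r) * N / (q : ℝ) ^ K + p + r + 4) * (q : ℝ) ^ K' := by
  have hq0 : 0 < q := by omega
  have hqK : 0 < q ^ K := Nat.pow_pos hq0
  have hQ : 0 < q ^ K' := Nat.pow_pos hq0
  have hQK : q ^ K' ≤ q ^ K := Nat.pow_le_pow_right hq0 hK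
  obtain ⟨Q, hQd⟩ : ∃ Q, Q = q ^ K' := ⟨_, rfl⟩
  obtain ⟨qK, hqKd⟩ : ∃ qK, qK = q ^ K := ⟨_, rfl⟩
  have e1 : (q : ℝ) ^ K' = (Q : ℝ) := by rw [hQd]; push_cast; rfl
  have e2 : (q : ℝ) ^ K = (qK : ℝ) := by rw [hqKd]; push_cast; rfl
  rw [e1, e2, ← hQd, ← hqKd]
  rw [← hqKd] at hqK hQK
  rw [← hQd] at hQ hQK
  set g : ℕ → ℂ := fun n => cc ((p * n + s) / qK) * cc' ((r * n + s) / qK) * f0 n with hg
  have hg1 : ∀ n, ‖g n‖ ≤ 1 := by
    intro n
    simp only [hg]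
    rw [norm_mul, norm_mul]
    exact mul_le_one₀ (mul_le_one₀ (h1 _) (norm_nonneg _) (h2 _)) (norm_nonneg _) (h3 _)
  set U : ℕ := N / Q + 1 with hU
  have hUN : N < Q * U := by
    rw [hU, Nat.mul_succ]
    have := Nat.div_add_mod N Q
    have := Nat.mod_lt N hQ
    omega
  have hUN2 : Q * U ≤ N + Q := by
    rw [hU, Nat.mul_succ]
    have := Nat.mul_div_le N Q
    omega
  -- the difference of the two ranges
  have hsub : Icc 1 N ⊆ range (Q * U) := by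
    intro n hn
    rw [Finset.mem_Icc] at hn
    rw [Finset.mem_range]
    omega
  have hdiff : ‖∑ n ∈ Icc 1 N, g n‖ ≤ ‖∑ n ∈ range (Q * U), g n‖ + Q := by
    have hsplit := Finset.sum_sdiff (f := g) hsub
    have : ∑ n ∈ Icc 1 N, g n = ∑ n ∈ range (Q * U), g n - ∑ n ∈ range (Q * U) \ Icc 1 N, g n := by
      rw [← hsplit]; ring
    rw [this]
    refine (norm_sub_le _ _).trans ?_
    have hcard : (range (Q * U) \ Icc 1 N).card ≤ Q := by
      rw [Finset.card_sdiff_of_subset hsub, Finset.card_range, Nat.card_Icc]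
      omega
    have : ‖∑ n ∈ range (Q * U) \ Icc 1 N, g n‖ ≤ Q := by
      refine (norm_sum_le _ _).trans ?_
      calc _ ≤ ∑ _n ∈ range (Q * U) \ Icc 1 N, (1 : ℝ) :=
            Finset.sum_le_sum fun n _ => hg1 n
        _ = ((range (Q * U) \ Icc 1 N).card : ℝ) := by simp
        _ ≤ Q := by exact_mod_cast hcard
    linarith
  have hblocks : ‖∑ n ∈ range (Q * U), g n‖ ≤ ∑ u ∈ range U, (‖∑ x ∈ range Q, f0 (Q * u + x)‖ +
        (Q : ℝ) * ((((p * (Q * (u + 1)) + s) / qK : ℕ) : ℝ) - (((p * (Q * u) + s) / qK : ℕ) : ℝ) +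
          ((((r * (Q * (u + 1)) + s) / qK : ℕ) : ℝ) -
            (((r * (Q * u) + s) / qK : ℕ) : ℝ)))) := by
    rw [sum_range_mul_aux]
    refine (norm_sum_le _ _).trans (Finset.sum_le_sum fun u _ => ?_)
    exact block_bound p r s Q cc cc' f0 qK h1 h2 h3 u
  have hjump : ∀ p : ℕ, ∑ u ∈ range U, ((((p * (Q * (u + 1)) + s) / qK : ℕ) : ℝ) -
      (((p * (Q * u) + s) / qK : ℕ) : ℝ)) ≤ (p : ℝ) * N / qK + p + 1 := by
    intro p
    rw [tele (fun u => (((p * (Q * u) + s) / qK : ℕ) : ℝ)) U]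
    have hq' : (0 : ℝ) < (qK : ℝ) := by exact_mod_cast hqK
    have hA : (((p * (Q * U) + s) / qK : ℕ) : ℝ) ≤ ((p : ℝ) * (N + Q) + s) / qK := by
      refine (Nat.cast_div_le).trans ?_
      apply div_le_div_of_nonneg_right _ hq'.le
      push_cast
      have : (Q : ℝ) * U ≤ N + Q := by exact_mod_cast hUN2
      have hp0 : (0 : ℝ) ≤ p := Nat.cast_nonneg _
      nlinarith
    have hB : (s : ℝ) / qK ≤ (((p * (Q * 0) + s) / qK : ℕ) : ℝ) + 1 := by
      rw [Nat.mul_zero, Nat.mul_zero, Nat.zero_add, div_le_iff₀ hq']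
      have h := Nat.div_add_mod s qK
      have h' := Nat.mod_lt s hqK
      have : s ≤ (s / qK + 1) * qK := by
        rw [Nat.add_mul, Nat.one_mul, Nat.mul_comm (s / qK) qK]; omega
      exact_mod_cast this
    have hC : ((p : ℝ) * (N + Q) + s) / qK = (p : ℝ) * N / qK + (p : ℝ) * (Q / qK) + s / qK := by
      field_simp
    have hD : (p : ℝ) * (Q / qK) ≤ p := by
      have hp0 : (0 : ℝ) ≤ p := Nat.cast_nonneg _
      have : (Q : ℝ) / qK ≤ 1 := by
        rw [div_le_one hq']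
        exact_mod_cast hQK
      nlinarith
    linarith
  have hP := hjump p
  have hR := hjump r
  have hQ0 : (0 : ℝ) ≤ (Q : ℝ) := Nat.cast_nonneg _
  rw [Finset.sum_add_distrib, ← Finset.mul_sum, Finset.sum_add_distrib] at hblocks
  have hfin : (Q : ℝ) * (∑ u ∈ range U, ((((p * (Q * (u + 1)) + s) / qK : ℕ) : ℝ) -
        (((p * (Q * u) + s) / qK : ℕ) : ℝ)) +
      ∑ u ∈ range U, ((((r * (Q * (u + 1)) + s) / qK : ℕ) : ℝ) -
        (((r * (Q * u) + s) / qK : ℕ) : ℝ))) ≤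
      (Q : ℝ) * (((p : ℝ) * N / qK + p + 1) + ((r : ℝ) * N / qK + r + 1)) := by
    gcongr
  have hring : (Q : ℝ) * (((p : ℝ) * N / qK + p + 1) + ((r : ℝ) * N / qK + r + 1)) + Q ≤
      (((p : ℝ) + r) * N / qK + p + r + 4) * Q := by
    have : (((p : ℝ) + r) * N / qK) = (p : ℝ) * N / qK + (r : ℝ) * N / qK := by ring
    rw [this]
    nlinarith
  change ‖∑ n ∈ Icc 1 N, g n‖ ≤ _
  linarith

/-- blocks of blocks -/
theorem blk_big {q : ℕ} (hq : 2 ≤ q) {K' K2 : ℕ} (hK : K' ≤ K2) (f0 : ℕ → ℂ) {δ : ℝ} (hδ : 0 ≤ δ)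
    (U : ℕ) (h : ∀ u ≤ U * q ^ K' / q ^ K2, ∑ u' ∈ range (q ^ (K2 - K')),
      ‖∑ x ∈ range (q ^ K'), f0 (q ^ K2 * u + q ^ K' * u' + x)‖ ≤ δ * (q : ℝ) ^ K2) :
    ∑ u' ∈ range U, ‖∑ x ∈ range (q ^ K'), f0 (q ^ K' * u' + x)‖ ≤
      δ * ((U : ℝ) * (q : ℝ) ^ K' + (q : ℝ) ^ K2) := by
  have hq0 : 0 < q := by omega
  have hQ : 0 < q ^ K' := Nat.pow_pos hq0
  have hR : 0 < q ^ (K2 - K') := Nat.pow_pos hq0
  have hQR : q ^ K2 = q ^ K' * q ^ (K2 - K') := by
    rw [← pow_add]; congr 1; omega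
  set G : ℕ := U * q ^ K' / q ^ K2 + 1 with hG
  have hUG : U ≤ q ^ (K2 - K') * G := by
    have : U * q ^ K' / q ^ K2 = U / q ^ (K2 - K') := by
      rw [hQR, Nat.mul_comm U, Nat.mul_div_mul_left _ _ hQ]
    rw [hG, this, Nat.mul_succ]
    have h1 := Nat.div_add_mod U (q ^ (K2 - K'))
    have h2 := Nat.mod_lt U hR
    omega
  have hstep : ∑ u' ∈ range U, ‖∑ x ∈ range (q ^ K'), f0 (q ^ K' * u' + x)‖ ≤
      ∑ u ∈ range G, ∑ v ∈ range (q ^ (K2 - K')),
        ‖∑ x ∈ range (q ^ K'), f0 (q ^ K2 * u + q ^ K' * v + x)‖ := by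
    calc _ ≤ ∑ u' ∈ range (q ^ (K2 - K') * G), ‖∑ x ∈ range (q ^ K'), f0 (q ^ K' * u' + x)‖ := by
          apply Finset.sum_le_sum_of_subset_of_nonneg
          · exact Finset.range_subset_range.2 hUG
          · intro i _ _; exact norm_nonneg _
      _ = _ := by
          rw [sum_range_mul_aux]
          refine Finset.sum_congr rfl fun u _ => Finset.sum_congr rfl fun v _ => ?_
          congr 1
          refine Finset.sum_congr rfl fun x _ => ?_
          congr 1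
          rw [hQR]; ring
  refine hstep.trans ?_
  have hsum : ∑ u ∈ range G, ∑ v ∈ range (q ^ (K2 - K')),
        ‖∑ x ∈ range (q ^ K'), f0 (q ^ K2 * u + q ^ K' * v + x)‖ ≤
      ∑ _u ∈ range G, δ * (q : ℝ) ^ K2 := by
    refine Finset.sum_le_sum fun u hu => h u ?_
    rw [Finset.mem_range, hG] at hu
    omega
  refine hsum.trans ?_
  rw [Finset.sum_const, Finset.card_range, nsmul_eq_mul]
  have hq2 : (0 : ℝ) < (q : ℝ) ^ K2 := by positivity
  have hGr : (G : ℝ) * (q : ℝ) ^ K2 ≤ (U : ℝ) * (q : ℝ) ^ K' + (q : ℝ) ^ K2 := by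
    have : G * q ^ K2 ≤ U * q ^ K' + q ^ K2 := by
      rw [hG, Nat.add_mul, Nat.one_mul]
      have := Nat.div_mul_le_self (U * q ^ K') (q ^ K2)
      omega
    exact_mod_cast this
  calc (G : ℝ) * (δ * (q : ℝ) ^ K2) = δ * ((G : ℝ) * (q : ℝ) ^ K2) := by ring
    _ ≤ _ := by gcongr

/-- shorter blocks have larger sums of absolute values -/
theorem blk_short {q : ℕ} (hq : 2 ≤ q) {Kp K' K2 : ℕ} (h1 : Kp ≤ K') (h2 : K' ≤ K2) (f0 : ℕ → ℂ)
    (u : ℕ) :
    ∑ u' ∈ range (q ^ (K2 - K')), ‖∑ x ∈ range (q ^ K'), f0 (q ^ K2 * u + q ^ K' * u' + x)‖ ≤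
      ∑ u' ∈ range (q ^ (K2 - Kp)), ‖∑ x ∈ range (q ^ Kp), f0 (q ^ K2 * u + q ^ Kp * u' + x)‖ := by
  have e1 : q ^ (K2 - Kp) = q ^ (K' - Kp) * q ^ (K2 - K') := by
    rw [← pow_add]; congr 1; omega
  have e2 : q ^ K' = q ^ Kp * q ^ (K' - Kp) := by
    rw [← pow_add]; congr 1; omega
  rw [e1, sum_range_mul_aux]
  refine Finset.sum_le_sum fun u' _ => ?_
  rw [e2, sum_range_mul_aux]
  refine (norm_sum_le _ _).trans (le_of_eq ?_)
  refine Finset.sum_congr rfl fun w _ => ?_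
  congr 1
  refine Finset.sum_congr rfl fun x _ => ?_
  congr 1
  ring

end Pool.Agent.Lib.MP_3e612f_nt.RD
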