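import Pool.Agent.Lib.MP_3e612f_nt.RD.L.LawL

/-!
The absolute values of the sums over short blocks in terms of the states.

PROOF of `law_mix`. Let `b = τ + P0 * W1`, `hi n = n / q ^ b * q ^ b`. Second part of `Law` for the real function
`Ψ n = ‖∑_{x < q ^ b} f0 (q ^ K u + hi n + x)‖` (also from the first part with `Ψ ω = Ψ`): `q ^ b` times the left side is
`∑_{v < q ^ K} Ψ v = ∑_v ave_σ Ψ (N v σ)`. Second part of `Law` for functions of `n % q ^ b` and the second locality property: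
`∑_{x < q ^ b} av_σ' G (N x σ' % q ^ b) = ∑_{x < q ^ b} G x`. So for fixed `v`, `σ`:
`Ψ (N v σ) = ‖∑_{x < q ^ b} av_σ' f0 (q ^ K u + hi (N v σ) + N x σ' % q ^ b)‖ ≤ ∑_{x < q ^ b} ‖av_σ' f0 (q ^ K u + N (v - v % q ^ b + x) (piecewise σ' σ))‖`
(both locality properties: the number `N (v - v % q ^ b + x) (piecewise σ' σ)` has the high digits of `N v σ` and the low digits of
`N x σ'`). Sum over `v < q ^ K` (`b ≤ K`): every `v' = v - v % q ^ b + x` occurs `q ^ b` times. Divide by `q ^ b`.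
-/

set_option autoImplicit false

namespace Pool.Agent.Lib.MP_3e612f_nt.RD

open Finset
open Pool.Agent.Lib.MP_3e612f_nt.PI (ee mc)
open Pool.Agent.Lib.MP_3e612f_nt.DI (av pr mlt)
open Pool.Agent.Lib.MP_3e612f_nt.EM

/-- sums over blocks -/
private theorem sum_blk {E : Type} [AddCommMonoid E] (B : ℕ) (H : ℕ → E) (n : ℕ) :
    ∑ v ∈ range (B * n), H v = ∑ u ∈ range n, ∑ x ∈ range B, H (B * u + x) := by
  induction n with
  | zero => simp
  | succ n ih => rw [Nat.mul_succ, sum_range_add, ih, sum_range_succ]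

private theorem blk_hi {B : ℕ} (hB : 0 < B) (u x : ℕ) (hx : x < B) :
    (B * u + x) / B = u ∧ (B * u + x) % B = x := by
  constructor
  · rw [Nat.mul_add_div hB, Nat.div_eq_of_lt hx, add_zero]
  · rw [Nat.mul_add_mod, Nat.mod_eq_of_lt hx]

/-- **short blocks** -/
theorem law_mix (G : GP) {W1 R P τ s K u : ℕ} (hR : 0 < R)
    {N : ℕ → (Fin P → Fin R × Fin (G.q ^ G.W)) → ℕ} (hN : Law2 G W1 R P τ s K u N) {P0 : ℕ}
    (hP0 : P0 ≤ P) (hK : τ + P * W1 ≤ K) (f0 : ℕ → ℂ) :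
    ∑ u' ∈ range (G.q ^ (K - (τ + P0 * W1))), ‖∑ x ∈ range (G.q ^ (τ + P0 * W1)),
        f0 (G.q ^ K * u + G.q ^ (τ + P0 * W1) * u' + x)‖ ≤
      ∑ v ∈ range (G.q ^ K), ave fun σ => ‖av fun σ' : Fin P → Fin R × Fin (G.q ^ G.W) =>
        f0 (G.q ^ K * u + N v ((univ.filter fun k : Fin P => (k : ℕ) < P0).piecewise σ' σ))‖ := by
  obtain ⟨hlaw, hloc⟩ := hN
  have hbK : τ + P0 * W1 ≤ K := le_trans (Nat.add_le_add_left (Nat.mul_le_mul_right _ hP0) _) hK
  replace hloc := hloc P0 hP0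
  obtain ⟨b, hb⟩ : ∃ b, b = τ + P0 * W1 := ⟨_, rfl⟩
  rw [← hb] at hbK hloc ⊢
  have hq : 0 < G.q := lt_of_lt_of_le (by norm_num) G.hq
  obtain ⟨B, hB⟩ : ∃ B, B = G.q ^ b := ⟨_, rfl⟩
  obtain ⟨Q, hQ⟩ : ∃ Q, Q = G.q ^ (K - b) := ⟨_, rfl⟩
  have hBQ : G.q ^ K = B * Q := by
    rw [hB, hQ, ← pow_add, Nat.add_sub_cancel' hbK]
  have hB0 : 0 < B := by rw [hB]; exact pow_pos hq _
  have hQ0 : 0 < Q := by rw [hQ]; exact pow_pos hq _
  have hlaw1 := (hlaw ∅).1
  have hlaw2 := (hlaw ∅).2.1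
  rw [← hB] at hloc ⊢
  rw [← hQ]
  rw [hBQ] at hlaw1 hlaw2 ⊢
  have : Nonempty (Fin P → Fin R) := ⟨fun _ => ⟨0, hR⟩⟩
  have : Nonempty (Fin P → Fin R × Fin (G.q ^ G.W)) := ⟨fun _ => (⟨0, hR⟩, ⟨0, pow_pos hq _⟩)⟩
  -- the function of the high digits
  obtain ⟨Ψ, hΨ⟩ : ∃ Ψ : ℕ → ℝ, Ψ = fun n => ‖∑ x ∈ range B, f0 (B * Q * u + n / B * B + x)‖ :=
    ⟨_, rfl⟩
  have h1 : ∑ v ∈ range (B * Q), Ψ v = B * ∑ u' ∈ range Q, ‖∑ x ∈ range B,
      f0 (B * Q * u + B * u' + x)‖ := by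
    rw [sum_blk, mul_sum]
    refine sum_congr rfl fun u' _ => ?_
    rw [← nsmul_eq_mul]
    nth_rewrite 3 [← card_range B]
    rw [← sum_const]
    refine sum_congr rfl fun x hx => ?_
    rw [hΨ]
    simp only
    rw [(blk_hi hB0 u' x (mem_range.1 hx)).1, mul_comm u' B]
  have h2 : ∑ v ∈ range (B * Q), Ψ v = ∑ v ∈ range (B * Q), ave fun σ => Ψ (N v σ) := by
    rw [hlaw1 fun _ => Ψ]
    refine sum_congr rfl fun v _ => ?_
    unfold ave
    rw [sum_const, card_univ, nsmul_eq_mul, ← mul_assoc, inv_mul_cancel₀, one_mul]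
    exact Nat.cast_ne_zero.2 Fintype.card_ne_zero
  -- the low digits
  have h3 : ∀ Gf : ℕ → ℂ, ∑ x ∈ range B, av (fun σ' => Gf (N x σ' % B)) = ∑ x ∈ range B, Gf x := by
    intro Gf
    have h4 := hlaw2 fun n => Gf (n % B)
    rw [sum_blk, sum_blk] at h4
    have h5 : ∀ u' ∈ range Q, ∑ x ∈ range B, av (fun σ' => Gf (N (B * u' + x) σ' % B)) =
        ∑ x ∈ range B, av (fun σ' => Gf (N x σ' % B)) := by
      intro u' _
      refine sum_congr rfl fun x hx => ?_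
      congr 1
      funext σ'
      rw [(hloc (B * u' + x) x σ' σ').2 (by
        rw [(blk_hi hB0 u' x (mem_range.1 hx)).2, Nat.mod_eq_of_lt (mem_range.1 hx)])
        fun _ _ => rfl]
    have h6 : ∀ u' ∈ range Q, ∑ x ∈ range B, Gf ((B * u' + x) % B) = ∑ x ∈ range B, Gf x := by
      intro u' _
      refine sum_congr rfl fun x hx => ?_
      rw [(blk_hi hB0 u' x (mem_range.1 hx)).2]
    rw [sum_congr rfl h5, sum_congr rfl h6, sum_const, sum_const, card_range, nsmul_eq_mul,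
      nsmul_eq_mul] at h4
    exact mul_left_cancel₀ (Nat.cast_ne_zero.2 hQ0.ne') h4
  -- the estimate for one state
  obtain ⟨Hf, hHf⟩ : ∃ Hf : ℕ → (Fin P → Fin R × Fin (G.q ^ G.W)) → ℝ, Hf = fun v σ =>
      ‖av fun σ' : Fin P → Fin R × Fin (G.q ^ G.W) =>
        f0 (B * Q * u + N v ((univ.filter fun k : Fin P => (k : ℕ) < P0).piecewise σ' σ))‖ :=
    ⟨_, rfl⟩
  have h7 : ∀ u' x0, x0 < B → ∀ σ, Ψ (N (B * u' + x0) σ) ≤ ∑ x ∈ range B, Hf (B * u' + x) σ := by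
    intro u' x0 hx0 σ
    have h8 : Ψ (N (B * u' + x0) σ) = ‖∑ x ∈ range B, av (fun σ' => f0 (B * Q * u +
        N (B * u' + x) ((univ.filter fun k : Fin P => (k : ℕ) < P0).piecewise σ' σ)))‖ := by
      rw [hΨ]
      simp only
      rw [← h3 fun y => f0 (B * Q * u + N (B * u' + x0) σ / B * B + y)]
      congr 1
      refine sum_congr rfl fun x hx => ?_
      congr 1
      funext σ'
      congr 1
      rw [add_assoc]
      congr 1
      have hx1 := mem_range.1 hx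
      have h9 := (hloc (B * u' + x) (B * u' + x0)
        ((univ.filter fun k : Fin P => (k : ℕ) < P0).piecewise σ' σ) σ).1
        (by rw [(blk_hi hB0 u' x hx1).1, (blk_hi hB0 u' x0 hx0).1])
        fun k hk => by
          rw [piecewise_eq_of_notMem]
          rw [mem_filter]
          exact fun h => absurd h.2 (not_lt.2 hk)
      have h10 := (hloc (B * u' + x) x
        ((univ.filter fun k : Fin P => (k : ℕ) < P0).piecewise σ' σ) σ').2
        (by rw [(blk_hi hB0 u' x hx1).2, Nat.mod_eq_of_lt hx1])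
        fun k hk => by
          rw [piecewise_eq_of_mem]
          rw [mem_filter]
          exact ⟨mem_univ _, hk⟩
      rw [← h9, ← h10, mul_comm, Nat.div_add_mod]
    rw [h8, hHf]
    exact norm_sum_le _ _
  have h11 : ∑ v ∈ range (B * Q), ave (fun σ => Ψ (N v σ)) ≤
      B * ∑ v ∈ range (B * Q), ave fun σ => Hf v σ := by
    rw [sum_blk, sum_blk, mul_sum]
    refine sum_le_sum fun u' _ => ?_
    have h12 : ∀ x0 ∈ range B, ave (fun σ => Ψ (N (B * u' + x0) σ)) ≤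
        ∑ x ∈ range B, ave fun σ => Hf (B * u' + x) σ := by
      intro x0 hx0
      unfold ave
      rw [← mul_sum, sum_comm]
      refine mul_le_mul_of_nonneg_left ?_ (by positivity)
      exact sum_le_sum fun σ _ => h7 u' x0 (mem_range.1 hx0) σ
    refine (sum_le_sum h12).trans (le_of_eq ?_)
    rw [sum_const, card_range, nsmul_eq_mul]
  rw [← h1.symm.trans h2] at h11
  rw [hHf] at h11
  exact le_of_mul_le_mul_left h11 (Nat.cast_pos.2 hB0)

end Pool.Agent.Lib.MP_3e612f_nt.RD
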