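import Pool.Agent.Lib.MP_3e612f_nt.RD.L.AitL
import Pool.Agent.Lib.MP_3e612f_nt.RD.L.MixL
import Pool.Agent.Lib.MP_3e612f_nt.RD.CellB
import Pool.Agent.Lib.MP_3e612f_nt.RD.CellC

/-!
Large pair correlations on many short blocks bound the top form at the tuples of gadgets with at least one gadget in a
low cell.

PROOF of `gad_bound2`. As `gad_bound` (`RD/CellD.lean`). `c1` from `cell_var`, `η = (δ / 2) ^ 4 / 256`; `R ≥ O W1 * H`, `R ≥ 1`, such that
`4 c1 C / (R η) < δ / 2`; `M', B', C'` from `ait_lo` for `δ / 2` and `ρ0 = 1 / (R q ^ W)`. `N` from `law2_exists`, `f0 = PSm`; `law_mix`: the sum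
over `v < q ^ K` of `main v = ave_σ ‖av_σ' f0 (..)‖` is at least `δ q ^ K`, and `main v ≤ 1`; by `cell_var` for `g1`, `g1'` the sum over `v` of
`var v` (the variation of `g1 (p n + s) + g1' (r n + s)`) is at most `4 c1 C / R q ^ K`. So there is a `v` with `main v ≥ δ / 2` and
`var v ≤ η`: the number of `v` with `main v ≥ δ / 2` is at least `δ / 2 q ^ K`, the number of `v` with `var v > η` is at most
`4 c1 C / (R η) q ^ K < δ / 2 q ^ K`. `ait_lo` with `Lo = {k < P0}`; `cell_deg`, `cell_top`, `cell_frozen` as in `gad_bound`.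
-/

set_option autoImplicit false

namespace Pool.Agent.Lib.MP_3e612f_nt.RD

open Finset
open Pool.Agent.Lib.MP_3e612f_nt.PI (ee mc)
open Pool.Agent.Lib.MP_3e612f_nt.DI (av pr mlt)
open Pool.Agent.Lib.MP_3e612f_nt.EM

section cl
variable {α : Type} [Fintype α]

private theorem clave_add (f g : α → ℝ) : ave (fun a => f a + g a) = ave f + ave g := by
  unfold ave
  rw [Finset.sum_add_distrib, mul_add]

private theorem clave_mul (c : ℝ) (f : α → ℝ) : ave (fun a => c * f a) = c * ave f := by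
  unfold ave
  rw [← Finset.mul_sum, mul_left_comm]

private theorem clave_mono {f g : α → ℝ} (h : ∀ a, f a ≤ g a) : ave f ≤ ave g := by
  unfold ave
  exact mul_le_mul_of_nonneg_left (Finset.sum_le_sum fun a _ => h a) (by positivity)

private theorem clave_nonneg {f : α → ℝ} (h : ∀ a, 0 ≤ f a) : 0 ≤ ave f := by
  unfold ave
  exact mul_nonneg (by positivity) (Finset.sum_nonneg fun a _ => h a)

private theorem clave_le_one {f : α → ℝ} (h : ∀ a, f a ≤ 1) : ave f ≤ 1 := by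
  unfold ave
  have h1 : ∑ a, f a ≤ Fintype.card α := by
    refine (Finset.sum_le_sum fun a _ => h a).trans ?_
    simp
  rcases Nat.eq_zero_or_pos (Fintype.card α) with h0 | h0
  · rw [h0]
    simp
  · have h2 : (0 : ℝ) < Fintype.card α := by exact_mod_cast h0
    rw [inv_mul_le_iff₀ h2, mul_one]
    exact h1

private theorem clav_le_one {f : α → ℂ} (h : ∀ a, ‖f a‖ ≤ 1) : ‖av f‖ ≤ 1 := by
  have h1 : ‖∑ a, f a‖ ≤ Fintype.card α := by
    refine (norm_sum_le _ _).trans ((Finset.sum_le_sum fun a _ => h a).trans ?_)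
    simp
  unfold DI.av
  rcases Nat.eq_zero_or_pos (Fintype.card α) with h0 | h0
  · rw [h0]
    simp
  · have h2 : (0 : ℝ) < Fintype.card α := by exact_mod_cast h0
    rw [norm_mul, norm_inv, Complex.norm_natCast, inv_mul_le_iff₀ h2, mul_one]
    exact h1

end cl

private theorem Sw.Deg.cladd {ι S Θ : Type} [Fintype ι] {w : Sw ι S Θ} {G : Type} [AddCommGroup G]
    {d : ℕ} {φ ψ : (ι → S) → G} (h : w.Deg d φ) (h' : w.Deg d ψ) :
    w.Deg d fun σ => φ σ + ψ σ :=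
  fun σ => AddSubgroup.add_mem _ (h σ) (h' σ)

private theorem Sw.Deg.clzsmul {ι S Θ : Type} [Fintype ι] {w : Sw ι S Θ} {G : Type} [AddCommGroup G]
    {d : ℕ} {φ : (ι → S) → G} (h : w.Deg d φ) (ε : ℤ) :
    w.Deg d fun σ => ε • φ σ :=
  fun σ => AddSubgroup.zsmul_mem _ (h σ) ε

/-- **large pair correlations on short blocks** -/
theorem gad_bound2 (G : GP) {W1 : ℕ} (hW1 : G.W ≤ W1) (d : ℕ) {d' : ℕ} (hd' : 1 ≤ d') (M : ℕ)
    [NeZero M] (w1 : ℕ) {C δ : ℝ} (hC : 0 ≤ C) (hδ : 0 < δ) :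
    ∃ (M' B' : ℕ) (C' : ℝ), 1 ≤ M' ∧ 0 ≤ C' ∧
    ∀ (P0 P τ s K u L : ℕ) (A : Finset (Fin P)), P0 ≤ P → τ + P * W1 ≤ K → L ≤ K + w1 →
    ∀ (I : Finset ℕ) (β β' : ℕ → ℂ) (φ φ' : ℕ → ZMod M) (g1 g1' : ℕ → ℝ)
      (t : Finset (Lt (G.q * G.T) L) → UnitAddCircle) (ε : ℤ),
      (∀ i ∈ I, ∀ k ∈ A, i < τ + (k : ℕ) * W1 ∨ τ + ((k : ℕ) + 1) * W1 ≤ i) →
      (∀ n, ‖β n‖ ≤ 1) → (∀ n, ‖β' n‖ ≤ 1) → DepL G.q (G.q * G.T) I β →
      DepL G.q (G.q * G.T) I β' → IsPL G.q (G.q * G.T) d L φ → IsPL G.q (G.q * G.T) d L φ' →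
      Infl G.q L C g1 → Infl G.q L C g1' → (∀ S, d' < S.card → t S = 0) →
      δ * (G.q : ℝ) ^ K ≤ ∑ u' ∈ range (G.q ^ (K - (τ + P0 * W1))),
        ‖∑ x ∈ range (G.q ^ (τ + P0 * W1)), PSm G L s ε β β' φ φ' g1 g1' t
          (G.q ^ K * u + G.q ^ (τ + P0 * W1) * u' + x)‖ →
      ∃ E : Finset (Fin P), E.card ≤ B' ∧
        ∑ x ∈ (Tup (Θ := Fin (G.O W1) × Fin G.H) d' (A \ E)).filter
            (fun x => ∃ i, ((x i).1 : ℕ) < P0),
          ‖M' • G.form L s ε t (fun i => G.pl W1 τ (x i).1 (x i).2)‖ ^ 2 ≤ C' := by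
  obtain ⟨c1, hc1, hvar⟩ := cell_var G hW1 w1
  have hq0 : 0 < G.q := by have := G.hq; omega
  -- the number of choices
  obtain ⟨η, hη⟩ : ∃ η : ℝ, η = (δ / 2) ^ 4 / 256 := ⟨_, rfl⟩
  have hη0 : 0 < η := by rw [hη]; positivity
  obtain ⟨R0, hR0⟩ := exists_nat_gt (4 * (c1 * C) / η / (δ / 2))
  obtain ⟨R, hRO, hR1, hRR⟩ : ∃ R : ℕ, G.O W1 * G.H ≤ R ∧ 0 < R ∧
      4 * (c1 * C) / η / (δ / 2) < (R : ℝ) := by
    refine ⟨max (max R0 (G.O W1 * G.H)) 1, (le_max_right _ _).trans (le_max_left _ _),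
      lt_of_lt_of_le Nat.one_pos (le_max_right _ _), hR0.trans_le ?_⟩
    have : R0 ≤ max (max R0 (G.O W1 * G.H)) 1 := (le_max_left _ _).trans (le_max_left _ _)
    exact_mod_cast this
  have hRpos : (0 : ℝ) < R := by exact_mod_cast hR1
  have hqpos : (0 : ℝ) < (G.q : ℝ) := by exact_mod_cast hq0
  have : Nonempty (Fin R × Fin (G.q ^ G.W)) := ⟨(⟨0, hR1⟩, ⟨0, Nat.pow_pos hq0⟩)⟩
  have hρ : (0 : ℝ) < 1 / ((R : ℝ) * (G.q : ℝ) ^ G.W) := by positivity
  obtain ⟨M', B', C', hM', hC', hait⟩ := ait_lo d' d M hd' (half_pos hδ) hρ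
  refine ⟨M', B', C', hM', hC', ?_⟩
  intro P0 P τ s K u L A hP0 hK hL I β β' φ φ' g1 g1' t ε hI hβ hβ' hdβ hdβ' hφ hφ' hg hg' ht hbig
  obtain ⟨N, hN2⟩ := law2_exists G s u hW1 hR1 hK
  have hN := hN2.1 A
  set w := G.sw W1 R P τ s A with hw
  -- the functions of the states
  set b : ℕ → (Fin P → Fin R × Fin (G.q ^ G.W)) → ℂ := fun v σ =>
    β (G.p * (G.q ^ K * u + N v σ) + s) * β' (G.r * (G.q ^ K * u + N v σ) + s) with hb
  set ph : ℕ → (Fin P → Fin R × Fin (G.q ^ G.W)) → ZMod M := fun v σ =>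
    φ (G.p * (G.q ^ K * u + N v σ) + s) + φ' (G.r * (G.q ^ K * u + N v σ) + s) with hph
  set gg : ℕ → (Fin P → Fin R × Fin (G.q ^ G.W)) → ℝ := fun v σ =>
    g1 (G.p * (G.q ^ K * u + N v σ) + s) + g1' (G.r * (G.q ^ K * u + N v σ) + s) with hgg
  set PP : ℕ → (Fin P → Fin R × Fin (G.q ^ G.W)) → UnitAddCircle := fun v σ =>
    FP G.q (G.q * G.T) L t (G.p * (G.q ^ K * u + N v σ) + s) +
      ε • FP G.q (G.q * G.T) L t (G.r * (G.q ^ K * u + N v σ) + s) with hPP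
  have hbn : ∀ v σ, ‖b v σ‖ ≤ 1 := by
    intro v σ
    simp only [hb]
    rw [norm_mul]
    exact mul_le_one₀ (hβ _) (norm_nonneg _) (hβ' _)
  have hbf : ∀ v (x : Fin P → Bool) σ, b v (w.flp x σ) = b v σ := by
    intro v x σ
    simp only [hb]
    rw [cell_frozen G hW1 hN hdβ hI (Or.inl rfl) v x σ, cell_frozen G hW1 hN hdβ' hI (Or.inr rfl) v x σ]
  obtain ⟨Lo, hLo⟩ : ∃ Lo : Finset (Fin P), Lo = univ.filter fun k : Fin P => (k : ℕ) < P0 :=
    ⟨_, rfl⟩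
  -- the sum over the short blocks
  set Y : ℕ → ℝ := fun v => ave (fun σ => ‖av fun σ' : Fin P → Fin R × Fin (G.q ^ G.W) =>
    b v (Lo.piecewise σ' σ) * ee (ph v (Lo.piecewise σ' σ)) * et (gg v (Lo.piecewise σ' σ) : ℝ) *
      et (PP v (Lo.piecewise σ' σ))‖) with hY
  have h1 : δ * (G.q : ℝ) ^ K ≤ ∑ v ∈ range (G.q ^ K), Y v := by
    refine hbig.trans ((law_mix G hR1 hN2 hP0 hK (PSm G L s ε β β' φ φ' g1 g1' t)).trans ?_)
    rw [← hLo]
    exact le_of_eq rfl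
  have hY1 : ∀ v, Y v ≤ 1 := by
    intro v
    refine clave_le_one fun σ => clav_le_one fun σ' => ?_
    rw [norm_mul, norm_mul, norm_mul, PI.Kat_norm_ee, norm_et, norm_et, mul_one, mul_one, mul_one]
    exact hbn _ _
  set X : ℕ → ℝ := fun v => ave fun σ => ∑ k : Fin P,
    (gg v (w.flp (fun k' => decide (k' = k)) σ) - gg v σ) ^ 2 with hX
  have hX0 : ∀ v, 0 ≤ X v := fun v =>
    clave_nonneg fun σ => Finset.sum_nonneg fun k _ => sq_nonneg _
  -- the variation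
  have h2 : ∑ v ∈ range (G.q ^ K), X v ≤ 4 * (c1 * C / R) * (G.q : ℝ) ^ K := by
    have e1 := hvar R P τ s K u L A N hRO hK hL hN C g1 hg G.p (Or.inl rfl)
    have e2 := hvar R P τ s K u L A N hRO hK hL hN C g1' hg' G.r (Or.inr rfl)
    have e3 : ∀ v, X v ≤ 2 * ave (fun σ => ∑ k : Fin P,
          (g1 (G.p * (G.q ^ K * u + N v (w.flp (fun k' => decide (k' = k)) σ)) + s) -
            g1 (G.p * (G.q ^ K * u + N v σ) + s)) ^ 2) +
        2 * ave (fun σ => ∑ k : Fin P,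
          (g1' (G.r * (G.q ^ K * u + N v (w.flp (fun k' => decide (k' = k)) σ)) + s) -
            g1' (G.r * (G.q ^ K * u + N v σ) + s)) ^ 2) := by
      intro v
      rw [← clave_mul, ← clave_mul, ← clave_add]
      refine clave_mono fun σ => ?_
      rw [Finset.mul_sum, Finset.mul_sum, ← Finset.sum_add_distrib]
      refine Finset.sum_le_sum fun k _ => ?_
      simp only [hgg]
      have key : ∀ a a' b b' : ℝ, (a + b - (a' + b')) ^ 2 ≤ 2 * (a - a') ^ 2 + 2 * (b - b') ^ 2 := by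
        intro a a' b b'
        nlinarith [sq_nonneg ((a - a') - (b - b'))]
      exact key _ _ _ _
    calc ∑ v ∈ range (G.q ^ K), X v ≤ _ := Finset.sum_le_sum fun v _ => e3 v
      _ ≤ _ := by
        rw [Finset.sum_add_distrib, ← Finset.mul_sum, ← Finset.mul_sum]
        linarith
  obtain ⟨v, hv, hvX⟩ : ∃ v, δ / 2 ≤ Y v ∧ X v ≤ η := by
    by_contra hcon
    push Not at hcon
    have h5 : ∀ v, Y v ≤ δ / 2 + η⁻¹ * X v := by
      intro v
      rcases lt_or_ge (Y v) (δ / 2) with h6 | h6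
      · have h7 : 0 ≤ η⁻¹ * X v := mul_nonneg (inv_nonneg.2 hη0.le) (hX0 v)
        linarith
      · have h7 := hcon v h6
        have h8 : 1 ≤ η⁻¹ * X v := by
          rw [inv_mul_eq_div, le_div_iff₀ hη0, one_mul]
          exact h7.le
        have h9 := hY1 v
        have h10 := half_pos hδ
        linarith
    have h6 : ∑ v ∈ range (G.q ^ K), Y v ≤ δ / 2 * (G.q : ℝ) ^ K +
        η⁻¹ * (4 * (c1 * C / R) * (G.q : ℝ) ^ K) := by
      refine (Finset.sum_le_sum fun v _ => h5 v).trans ?_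
      rw [Finset.sum_add_distrib, Finset.sum_const, card_range, nsmul_eq_mul, ← Finset.mul_sum]
      push_cast
      have h7 := mul_le_mul_of_nonneg_left h2 (inv_nonneg.2 hη0.le)
      linarith
    have h7 : η⁻¹ * (4 * (c1 * C / R)) < δ / 2 := by
      rw [div_lt_iff₀ (half_pos hδ), div_lt_iff₀ hη0] at hRR
      rw [inv_mul_eq_div, div_lt_iff₀ hη0, mul_div_assoc', div_lt_iff₀ hRpos]
      linarith
    have h8 : (0 : ℝ) < (G.q : ℝ) ^ K := by positivity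
    have h9 := mul_lt_mul_of_pos_right h7 h8
    have h10 := h1.trans h6
    nlinarith
  obtain ⟨tφ, htφ, hφe⟩ := hφ
  obtain ⟨tφ', htφ', hφe'⟩ := hφ'
  have hdeg : w.Deg d (ph v) := by
    have e1 := Sw.Deg.cladd (cell_deg G hW1 hN tφ htφ (Or.inl rfl) v)
      (cell_deg G hW1 hN tφ' htφ' (Or.inr rfl) v)
    refine (iff_of_eq (congrArg (w.Deg d) ?_)).2 e1
    funext σ
    simp only [hph, hφe, hφe']
  have hdegP : w.Deg d' (PP v) :=
    Sw.Deg.cladd (cell_deg G hW1 hN t ht (Or.inl rfl) v)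
      (Sw.Deg.clzsmul (cell_deg G hW1 hN t ht (Or.inr rfl) v) ε)
  obtain ⟨E, hE, hsum⟩ := hait (Fin P) (Fin R × Fin (G.q ^ G.W)) (Fin (G.O W1) × Fin G.H) w A Lo
    (fun k hk θ => lab_pr G hRO hk θ) (b v) (ph v) (gg v) (PP v)
    (fun x => G.form L s ε t fun i => G.pl W1 τ (x i).1 (x i).2) (hbn v) (hbf v) hdeg hdegP
    (cell_top G hW1 hN hd' t ht ε v) (hvX.trans (le_of_eq hη)) hv
  refine ⟨E, hE, le_of_eq_of_le ?_ hsum⟩
  refine Finset.sum_congr ?_ fun _ _ => rfl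
  ext x
  simp only [mem_filter, hLo, mem_univ, true_and]

end Pool.Agent.Lib.MP_3e612f_nt.RD
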