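import Pool.Agent.Lib.MP_3e612f_nt.RD.Cls
import Pool.Agent.Lib.MP_3e612f_nt.RD.Let

/-!
# Real digit polynomials on almost all short intervals of an orbit: definitions

The factor `cc (n / q ^ K)` is an arbitrary bounded function of `n / q ^ K`; it gives the absolute values of the sums
over the blocks of length `q ^ K`.
-/

set_option autoImplicit false

namespace Pool.Agent.Lib.MP_3e612f_nt.RD

open Finset
open Pool.Agent.Lib.MP_3e612f_nt.PI (ee mc)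
open Pool.Agent.Lib.MP_3e612f_nt.DI (av pr mlt)
open Pool.Agent.Lib.MP_3e612f_nt.EM

/-- the class `Rc` with an arbitrary bounded function of `n / q ^ K` as an additional factor -/
def RcL (q d d' D M B K : ℕ) [NeZero M] (C : ℝ) (L : ℕ) (F : ℕ → ℂ) : Prop :=
  ∃ (cc F0 : ℕ → ℂ), (∀ n, ‖cc n‖ ≤ 1) ∧ Rc q d d' D M B C L F0 ∧ ∀ n, F n = cc (n / q ^ K) * F0 n

/-- orthogonality for the class -/
def ROL (q d d' : ℕ) : Prop :=
  ∀ (D M B w0 : ℕ) [NeZero M] (C : ℝ), 0 ≤ C → ∀ ε : ℝ, 0 < ε → ∃ K0 : ℕ, ∀ K ≥ K0, ∃ N0 : ℕ,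
    ∀ N ≥ N0, ∀ K1 L s : ℕ, N ≤ q ^ K1 → q ^ K1 ≤ q * N → L ≤ K1 + w0 → ∀ F : ℕ → ℂ,
      RcL q d d' D M B K C L F → ‖∑ n ∈ Icc 1 N, mc n * F (n + s)‖ ≤ ε * N

theorem RcL.norm {q d d' D M B K : ℕ} [NeZero M] {C : ℝ} {L : ℕ} {F : ℕ → ℂ}
    (h : RcL q d d' D M B K C L F) (n : ℕ) : ‖F n‖ ≤ 1 := by
  obtain ⟨cc, F0, h1, h2, h3⟩ := h
  rw [h3, norm_mul]
  exact mul_le_one₀ (h1 _) (norm_nonneg _) (h2.norm n)

theorem RcL.conj {q d d' D M B K : ℕ} [NeZero M] {C : ℝ} {L : ℕ} {F : ℕ → ℂ}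
    (h : RcL q d d' D M B K C L F) : RcL q d d' D M B K C L fun n => (starRingEnd ℂ) (F n) := by
  obtain ⟨cc, F0, h1, h2, h3⟩ := h
  refine ⟨fun n => (starRingEnd ℂ) (cc n), _, fun n => ?_, h2.conj, fun n => ?_⟩
  · rw [RCLike.norm_conj]
    exact h1 n
  · simp only [h3 n, map_mul]

open Classical in
/-- the structure of the top coefficients at the tuples with at least one letter below `K` -/
def TopL (q D L d W M3 B3 : ℕ) (C3 : ℝ) (K : ℕ) (t : Finset (Lt (q * q ^ D) L) → UnitAddCircle) :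
    Prop :=
  ∃ Z : Finset ℕ, Z.card ≤ B3 ∧
    ∑ y ∈ univ.filter (fun y : Fin d → Lt (q * q ^ D) L => (∀ i, ((y i).1 : ℕ) ∉ Z) ∧
      (∀ i j, i ≠ j → FarL W (y i) (y j)) ∧ ∃ i, ((y i).1 : ℕ) < K),
      ‖M3 • mlt t (fun j => dl q (q ^ D) (q ^ D) L (y j))‖ ^ 2 ≤ C3

/-- the summand of a pair correlation -/
noncomputable def PSm (G : GP) {M : ℕ} [NeZero M] (L s : ℕ) (ε : ℤ) (β β' : ℕ → ℂ)
    (φ φ' : ℕ → ZMod M) (g1 g1' : ℕ → ℝ) (t : Finset (Lt (G.q * G.T) L) → UnitAddCircle) (n : ℕ) : ℂ :=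
  (β (G.p * n + s) * β' (G.r * n + s)) * ee (φ (G.p * n + s) + φ' (G.r * n + s)) *
    et ((g1 (G.p * n + s) + g1' (G.r * n + s) : ℝ)) *
    et (FP G.q (G.q * G.T) L t (G.p * n + s) + ε • FP G.q (G.q * G.T) L t (G.r * n + s))

/-- a law for all sets `A` of cells at once, in which the digits below the cell `P0` and those above are changed
independently -/
def Law2 (G : GP) (W1 R P τ s K u : ℕ) (N : ℕ → (Fin P → Fin R × Fin (G.q ^ G.W)) → ℕ) : Prop :=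
  (∀ A : Finset (Fin P), Law G W1 R P τ s K u A N) ∧
  ∀ P0 ≤ P, ∀ v v' : ℕ, ∀ σ σ' : Fin P → Fin R × Fin (G.q ^ G.W),
    (v / G.q ^ (τ + P0 * W1) = v' / G.q ^ (τ + P0 * W1) → (∀ k : Fin P, P0 ≤ (k : ℕ) → σ k = σ' k) →
      N v σ / G.q ^ (τ + P0 * W1) = N v' σ' / G.q ^ (τ + P0 * W1)) ∧
    (v % G.q ^ (τ + P0 * W1) = v' % G.q ^ (τ + P0 * W1) → (∀ k : Fin P, (k : ℕ) < P0 → σ k = σ' k) →
      N v σ % G.q ^ (τ + P0 * W1) = N v' σ' % G.q ^ (τ + P0 * W1))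

end Pool.Agent.Lib.MP_3e612f_nt.RD
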