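import Pool.Agent.Lib.MP_3e612f_nt.RD.L.ClsL

/-!
From the gadgets to the letters, for the tuples with at least one letter below `Kl`.

PROOF of `let_bound2`. The proof of `let_bound` (`RD/Let.lean`) with one more condition: `Z` also contains the positions in
`[Kl - 2 W1, Kl + g + b)`. If the position `a + (g + b)` of a letter is below `Kl` and not in `Z`, then `a + 2 W1 ≤ Kl`, and for every shift
`τ < W1` the cell `k = (a - τ) / W1` satisfies `k < P0 = (Kl - τ) / W1`. So a tuple of letters with a letter below `Kl` only needs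
the tuples of gadgets with a gadget in a cell `k < P0`. (It is best to generalize the proof of `let_bound`: sum over the tuples
`y` in a set `Y`, such that the tuple of the cells of `y` is in a set of tuples for every `τ`.)
-/

set_option autoImplicit false

namespace Pool.Agent.Lib.MP_3e612f_nt.RD

open Finset
open Pool.Agent.Lib.MP_3e612f_nt.PI (ee mc)
open Pool.Agent.Lib.MP_3e612f_nt.DI (av pr mlt)
open Pool.Agent.Lib.MP_3e612f_nt.EM

/-! ### Multilinearity -/

section mult

variable {C X Γ : Type} [Fintype C] [DecidableEq C] [Fintype X] [DecidableEq X] [AddCommGroup Γ]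

private theorem lt_smul (t : Finset X → Γ) (c : C → ℤ) (V : C → X → ℤ) :
    mlt t (fun j x => c j * V j x) = (∏ j, c j) • mlt t V := by
  unfold mlt
  rw [smul_sum]
  refine sum_congr rfl fun x _ => ?_
  by_cases h : Function.Injective x
  · rw [if_pos h, if_pos h, prod_mul_distrib, mul_smul]
  · rw [if_neg h, if_neg h, smul_zero]

private theorem lt_sum {Λ : Type} [Fintype Λ] [DecidableEq Λ] (t : Finset X → Γ) (γ : C → Λ → ℤ)
    (v : C → Λ → X → ℤ) :
    mlt t (fun j x => ∑ l, γ j l * v j l x) =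
      ∑ lam : C → Λ, (∏ j, γ j (lam j)) • mlt t (fun j => v j (lam j)) := by
  unfold mlt
  simp only [smul_sum]
  rw [Finset.sum_comm]
  refine sum_congr rfl fun x _ => ?_
  by_cases h : Function.Injective x
  · simp only [if_pos h]
    rw [Finset.prod_univ_sum, Fintype.piFinset_univ, Finset.sum_smul]
    refine sum_congr rfl fun lam _ => ?_
    rw [prod_mul_distrib, mul_smul]
  · simp only [if_neg h, smul_zero, Finset.sum_const_zero]

private theorem lt_add (t : Finset X → Γ) (u w : C → X → ℤ) :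
    mlt t (fun j x => u j x + w j x) =
      ∑ A : Finset C, mlt t (fun j x => if j ∈ A then u j x else w j x) := by
  unfold mlt
  rw [Finset.sum_comm]
  refine sum_congr rfl fun x _ => ?_
  by_cases h : Function.Injective x
  · simp only [if_pos h]
    rw [Finset.prod_add, Finset.sum_smul, Finset.powerset_univ]
    refine sum_congr rfl fun A _ => ?_
    congr 1
    rw [← Finset.prod_sdiff (Finset.subset_univ A), mul_comm]
    congr 1
    · refine Finset.prod_congr rfl fun j hj => ?_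
      rw [if_neg (Finset.mem_sdiff.mp hj).2]
    · refine Finset.prod_congr rfl fun j hj => ?_
      rw [if_pos hj]
  · simp only [if_neg h, Finset.sum_const_zero]

private theorem lt_zero (t : Finset X → Γ) (V : C → X → ℤ) (j : C) (hj : ∀ x, V j x = 0) :
    mlt t V = 0 := by
  unfold mlt
  refine Finset.sum_eq_zero fun x _ => ?_
  by_cases h : Function.Injective x
  · rw [if_pos h, Finset.prod_eq_zero (mem_univ j) (hj _), zero_smul]
  · rw [if_neg h]

end mult

/-- the constant `p ^ d (p ^ d + ε r ^ d)` -/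
private def n0 (p r d : ℕ) (ε : ℤ) : ℤ := (p : ℤ) ^ d * ((p : ℤ) ^ d + ε * (r : ℤ) ^ d)

private theorem n0_ne {p r d : ℕ} (hp : p.Prime) (hr : r.Prime) (hpr : p ≠ r) (hd : 1 ≤ d) {ε : ℤ}
    (hε : ε = 1 ∨ ε = -1) : n0 p r d ε ≠ 0 := by
  have hp0 : (0 : ℤ) < p := by exact_mod_cast hp.pos
  have hr0 : (0 : ℤ) < r := by exact_mod_cast hr.pos
  unfold n0
  refine mul_ne_zero (pow_ne_zero _ hp0.ne') ?_
  rcases hε with rfl | rfl
  · positivity
  · intro h
    have h1 : (p : ℤ) ^ d = (r : ℤ) ^ d := by linarith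
    have h2 : p ^ d = r ^ d := by exact_mod_cast h1
    exact hpr (Nat.pow_left_injective (by omega) h2)

private theorem n0_le (p r d : ℕ) {ε : ℤ} (hε : ε = 1 ∨ ε = -1) :
    |n0 p r d ε| ≤ ((p ^ d * (p ^ d + r ^ d) : ℕ) : ℤ) := by
  unfold n0
  rw [abs_mul]
  push_cast
  have h1 : |(p : ℤ) ^ d| = (p : ℤ) ^ d := abs_of_nonneg (by positivity)
  rw [h1]
  refine mul_le_mul_of_nonneg_left ?_ (by positivity)
  refine (abs_add_le _ _).trans ?_
  rw [abs_mul, h1, abs_of_nonneg (by positivity : (0 : ℤ) ≤ (r : ℤ) ^ d)]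
  have h2 : |ε| = 1 := by rcases hε with rfl | rfl <;> rfl
  rw [h2, one_mul]

/-- the combination with the pattern `A` -/
private theorem comb {X Γ : Type} [Fintype X] [DecidableEq X] [AddCommGroup Γ] {d p r : ℕ}
    (hp : 1 ≤ p) {ε : ℤ} (hε : ε = 1 ∨ ε = -1) (t : Finset X → Γ) (u e : Fin d → X → ℤ)
    (A : Finset (Fin d)) :
    ∃ κ : ℤ, |κ| ≤ ((p ^ d * (p ^ d + r ^ d) : ℕ) : ℤ) ∧
      n0 p r d ε • mlt t (fun j x => if j ∈ A then u j x else e j x) =
      κ • (mlt t (fun j x => if j ∈ A then u j x else p * e j x) +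
        ε • mlt t (fun j x => if j ∈ A then 0 else r * e j x)) := by
  by_cases hA : A = ∅
  · refine ⟨(p : ℤ) ^ d, ?_, ?_⟩
    · rw [abs_of_nonneg (by positivity)]
      push_cast
      have h1 : (1 : ℤ) ≤ (p : ℤ) ^ d := by
        have : 1 ≤ p ^ d := Nat.one_le_pow _ _ hp
        exact_mod_cast this
      nlinarith [pow_nonneg (Int.natCast_nonneg r) d]
    · subst hA
      simp only [Finset.notMem_empty, if_false]
      rw [lt_smul t (fun _ => (p : ℤ)) e, lt_smul t (fun _ => (r : ℤ)) e, Finset.prod_const,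
        Finset.prod_const, Finset.card_univ, Fintype.card_fin, smul_smul, ← add_smul, smul_smul]
      rfl
  · obtain ⟨j, hj⟩ := Finset.nonempty_iff_ne_empty.mpr hA
    have h3 : A.card ≤ d := by
      have := Finset.card_le_univ A
      rwa [Fintype.card_fin] at this
    refine ⟨(p : ℤ) ^ A.card * ((p : ℤ) ^ d + ε * (r : ℤ) ^ d), ?_, ?_⟩
    · have hle := n0_le p r d hε
      unfold n0 at hle
      refine le_trans ?_ hle
      rw [abs_mul, abs_mul]
      refine mul_le_mul_of_nonneg_right ?_ (abs_nonneg _)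
      rw [abs_of_nonneg (by positivity), abs_of_nonneg (by positivity)]
      have : p ^ A.card ≤ p ^ d := Nat.pow_le_pow_right (by omega) h3
      exact_mod_cast this
    · rw [lt_zero t (fun j x => if j ∈ A then 0 else (r : ℤ) * e j x) j
        (fun x => by rw [if_pos hj]), smul_zero, add_zero]
      have h1 : (fun j x => if j ∈ A then u j x else (p : ℤ) * e j x) = fun j x =>
          (if j ∈ A then (1 : ℤ) else p) * (if j ∈ A then u j x else e j x) := by
        funext j x
        by_cases h : j ∈ A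
        · simp only [if_pos h, one_mul]
        · simp only [if_neg h]
      rw [h1, lt_smul, smul_smul]
      congr 1
      have h2 : (∏ j, if j ∈ A then (1 : ℤ) else p) = (p : ℤ) ^ (d - A.card) := by
        rw [Finset.prod_ite, Finset.prod_const_one, one_mul, Finset.prod_const]
        congr 1
        rw [Finset.filter_not, Finset.filter_mem_eq_inter, Finset.univ_inter,
          Finset.card_sdiff_of_subset (Finset.subset_univ A), Finset.card_univ, Fintype.card_fin]
      rw [h2]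
      unfold n0
      have h4 : (p : ℤ) ^ d = (p : ℤ) ^ A.card * (p : ℤ) ^ (d - A.card) := by
        rw [← pow_add]
        congr 1
        omega
      rw [h4]
      ring

/-- the letters at given positions are combinations of the gadgets -/
private theorem point (G : GP) {b κ : ℕ} (hb1 : 2 * G.p * G.r ≤ G.q ^ b)
    (hb2 : 2 * G.p * G.T ≤ G.q ^ b) (hb3 : 2 * G.r * G.T ≤ G.q ^ b)
    (hκ : 2 * (G.p + G.r) * G.T ≤ G.q ^ κ) (hκ2 : G.q * G.T ≤ G.q ^ κ)
    (hH : G.q ^ (b + κ + 2 * G.D + 2) ≤ G.H) (hH2 : 2 * G.q ^ (b + κ) ≤ G.H) (hl : b + κ ≤ G.l)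
    {d : ℕ} (M' : ℕ) :
    ∃ Kc : ℕ, ∀ (L s : ℕ) (ε : ℤ) (t : Finset (Lt (G.q * G.T) L) → UnitAddCircle),
      ε = 1 ∨ ε = -1 → ∀ (y : Fin d → Lt (G.q * G.T) L) (a : Fin d → ℕ),
      (∀ i, ((y i).1 : ℕ) = a i + (G.g + b)) →
      ‖(M' * ((n0 G.p G.r d 1).natAbs * (n0 G.p G.r d (-1)).natAbs)) •
        mlt t (fun j => dl G.q G.T G.T L (y j))‖ ≤
        Kc * ∑ lam : Fin d → Fin G.H, ‖M' • G.form L s ε t (fun i => (a i, (lam i : ℕ)))‖ := by
  classical
  obtain ⟨Γ, hΓ⟩ := rig_Z G hb1 hb2 hb3 hκ hκ2 hH hH2 hl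
  set K1 : ℕ := G.p ^ d * (G.p ^ d + G.r ^ d) with hK1
  refine ⟨2 ^ d * (G.q ^ d * (K1 * (K1 * Γ ^ d))), ?_⟩
  intro L s ε t hε y a hy
  -- the coefficients
  choose γ1 hγ1 hγ1p hγ1r using fun i => (hΓ s (a i) L (y i) (hy i)).1
  choose γ2 hγ2 hγ2p hγ2r using fun i => (hΓ s (a i) L (y i) (hy i)).2
  set e : Fin d → Lt (G.q * G.T) L → ℤ := fun i x => dc G.q G.T L (y i).1 G.T x with he
  set Bi : Fin d → ℤ := fun i => (((y i).2 : ℕ) / G.T : ℕ) with hBi
  set u : Fin d → Lt (G.q * G.T) L → ℤ := fun i x => dl G.q G.T G.T L (y i) x - Bi i * e i x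
    with hu
  set γ : Finset (Fin d) → Fin d → Fin G.H → ℤ := fun A i => if i ∈ A then γ1 i else γ2 i with hγ
  have hγb : ∀ A i l, |γ A i l| ≤ Γ := by
    intro A i l
    simp only [hγ]
    split_ifs
    · exact hγ1 i l
    · exact hγ2 i l
  -- the value of the pair form
  set XA : Finset (Fin d) → UnitAddCircle := fun A =>
    mlt t (fun j x => if j ∈ A then u j x else G.p * e j x) +
      ε • mlt t (fun j x => if j ∈ A then 0 else G.r * e j x) with hXA
  have hX : ∀ A, XA A = ∑ lam : Fin d → Fin G.H, (∏ j, γ A j (lam j)) •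
      G.form L s ε t (fun i => (a i, (lam i : ℕ))) := by
    intro A
    have h1 : (fun j x => if j ∈ A then u j x else (G.p : ℤ) * e j x) = fun j x =>
        ∑ l : Fin G.H, γ A j l * G.v L s G.p (a j, l) x := by
      funext j x
      by_cases h : j ∈ A
      · simp only [hγ, if_pos h, hγ1p]
        rfl
      · simp only [hγ, if_neg h, hγ2p]
        rfl
    have h2 : (fun j x => if j ∈ A then (0 : ℤ) else (G.r : ℤ) * e j x) = fun j x =>
        ∑ l : Fin G.H, γ A j l * G.v L s G.r (a j, l) x := by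
      funext j x
      by_cases h : j ∈ A
      · simp only [hγ, if_pos h, hγ1r]
      · simp only [hγ, if_neg h, hγ2r]
        rfl
    simp only [hXA]
    rw [h1, h2, lt_sum t (γ A) (fun j l x => G.v L s G.p (a j, l) x),
      lt_sum t (γ A) (fun j l x => G.v L s G.r (a j, l) x), Finset.smul_sum,
      ← Finset.sum_add_distrib]
    refine Finset.sum_congr rfl fun lam _ => ?_
    rw [smul_comm ε, ← smul_add]
    rfl
  -- the number `N0`
  have hν : ∃ ν : ℤ, |ν| ≤ (K1 : ℤ) ∧
      (((n0 G.p G.r d 1).natAbs * (n0 G.p G.r d (-1)).natAbs : ℕ) : ℤ) = ν * n0 G.p G.r d ε := by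
    have hs : ∀ z : ℤ, ∃ σ : ℤ, |σ| = 1 ∧ ((z.natAbs : ℕ) : ℤ) = σ * z := by
      intro z
      rcases le_total 0 z with h | h
      · exact ⟨1, rfl, by rw [Int.natAbs_of_nonneg h, one_mul]⟩
      · exact ⟨-1, rfl, by rw [Int.ofNat_natAbs_of_nonpos h]; ring⟩
    obtain ⟨σ1, h1, e1⟩ := hs (n0 G.p G.r d 1)
    obtain ⟨σ2, h2, e2⟩ := hs (n0 G.p G.r d (-1))
    have hb1' := n0_le G.p G.r d (ε := 1) (Or.inl rfl)
    have hb2' := n0_le G.p G.r d (ε := -1) (Or.inr rfl)
    rcases hε with rfl | rfl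
    · refine ⟨σ1 * σ2 * n0 G.p G.r d (-1), ?_, ?_⟩
      · rw [abs_mul, abs_mul, h1, h2, one_mul, one_mul]
        exact hb2'
      · push_cast
        rw [← Int.natCast_natAbs, ← Int.natCast_natAbs, e1, e2]
        ring
    · refine ⟨σ1 * σ2 * n0 G.p G.r d 1, ?_, ?_⟩
      · rw [abs_mul, abs_mul, h1, h2, one_mul, one_mul]
        exact hb1'
      · push_cast
        rw [← Int.natCast_natAbs, ← Int.natCast_natAbs, e1, e2]
        ring
  obtain ⟨ν, hνb, hνe⟩ := hν
  choose kp hkp hkpe using fun A => comb (X := Lt (G.q * G.T) L) (r := G.r) G.hp.one_le hε t u e A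
  -- the expansion
  have hexp : mlt t (fun j => dl G.q G.T G.T L (y j)) =
      ∑ A : Finset (Fin d), (∏ j, if j ∈ A then (1 : ℤ) else Bi j) •
        mlt t (fun j x => if j ∈ A then u j x else e j x) := by
    have h1 : (fun j => dl G.q G.T G.T L (y j)) = fun j x => u j x + Bi j * e j x := by
      funext j x
      simp only [hu]
      ring
    rw [h1, lt_add]
    refine Finset.sum_congr rfl fun A _ => ?_
    rw [← lt_smul]
    congr 1
    funext j x
    by_cases h : j ∈ A
    · simp only [if_pos h, one_mul]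
    · simp only [if_neg h]
  have hfin : (M' * ((n0 G.p G.r d 1).natAbs * (n0 G.p G.r d (-1)).natAbs)) •
        mlt t (fun j => dl G.q G.T G.T L (y j)) =
      ∑ A : Finset (Fin d), ∑ lam : Fin d → Fin G.H,
        ((∏ j, if j ∈ A then (1 : ℤ) else Bi j) * (ν * (kp A * ∏ j, γ A j (lam j)))) •
          (M' • G.form L s ε t (fun i => (a i, (lam i : ℕ)))) := by
    rw [mul_smul, ← natCast_zsmul _ ((n0 G.p G.r d 1).natAbs * (n0 G.p G.r d (-1)).natAbs), hνe,
      hexp, Finset.smul_sum, Finset.smul_sum]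
    refine Finset.sum_congr rfl fun A _ => ?_
    rw [smul_comm (ν * n0 G.p G.r d ε), mul_smul, hkpe A]
    have h1 : mlt t (fun j x => if j ∈ A then u j x else (G.p : ℤ) * e j x) +
        ε • mlt t (fun j x => if j ∈ A then 0 else (G.r : ℤ) * e j x) = XA A := rfl
    rw [h1, hX A]
    simp only [Finset.smul_sum]
    refine Finset.sum_congr rfl fun lam _ => ?_
    rw [mul_smul, mul_smul, mul_smul, smul_comm M', smul_comm M', smul_comm M', smul_comm M']
  rw [hfin]
  have hBb : ∀ A : Finset (Fin d), |∏ j, if j ∈ A then (1 : ℤ) else Bi j| ≤ ((G.q ^ d : ℕ) : ℤ) := by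
    intro A
    rw [Finset.abs_prod]
    have hq1 : 1 ≤ G.q := le_trans (by norm_num) G.hq
    calc ∏ j, |if j ∈ A then (1 : ℤ) else Bi j| ≤ ∏ _j : Fin d, (G.q : ℤ) := by
          refine Finset.prod_le_prod (fun j _ => abs_nonneg _) fun j _ => ?_
          split_ifs
          · rw [abs_one]
            exact_mod_cast hq1
          · simp only [hBi]
            rw [abs_of_nonneg (Int.natCast_nonneg _)]
            have h2 : ((y j).2 : ℕ) / G.T ≤ G.q :=
              ((Nat.div_lt_iff_lt_mul G.T_pos).2 (y j).2.2).le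
            exact_mod_cast h2
      _ = ((G.q ^ d : ℕ) : ℤ) := by
          rw [Finset.prod_const, Finset.card_univ, Fintype.card_fin]
          push_cast
          rfl
  have hγp : ∀ (A : Finset (Fin d)) (lam : Fin d → Fin G.H),
      |∏ j, γ A j (lam j)| ≤ ((Γ ^ d : ℕ) : ℤ) := by
    intro A lam
    rw [Finset.abs_prod]
    calc ∏ j, |γ A j (lam j)| ≤ ∏ _j : Fin d, (Γ : ℤ) :=
          Finset.prod_le_prod (fun j _ => abs_nonneg _) fun j _ => hγb A j _
      _ = ((Γ ^ d : ℕ) : ℤ) := by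
          rw [Finset.prod_const, Finset.card_univ, Fintype.card_fin]
          push_cast
          rfl
  refine (norm_sum_le _ _).trans ?_
  have h1 : ∀ A ∈ (univ : Finset (Finset (Fin d))),
      ‖∑ lam : Fin d → Fin G.H,
        ((∏ j, if j ∈ A then (1 : ℤ) else Bi j) * (ν * (kp A * ∏ j, γ A j (lam j)))) •
          (M' • G.form L s ε t (fun i => (a i, (lam i : ℕ))))‖ ≤
      ((G.q ^ d * (K1 * (K1 * Γ ^ d)) : ℕ) : ℝ) *
        ∑ lam : Fin d → Fin G.H, ‖M' • G.form L s ε t (fun i => (a i, (lam i : ℕ)))‖ := by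
    intro A _
    refine (norm_sum_le _ _).trans ?_
    rw [Finset.mul_sum]
    refine Finset.sum_le_sum fun lam _ => ?_
    refine (norm_zsmul_le _ _).trans ?_
    refine mul_le_mul_of_nonneg_right ?_ (norm_nonneg _)
    have h2 : |(∏ j, if j ∈ A then (1 : ℤ) else Bi j) * (ν * (kp A * ∏ j, γ A j (lam j)))| ≤
        ((G.q ^ d * (K1 * (K1 * Γ ^ d)) : ℕ) : ℤ) := by
      rw [abs_mul, abs_mul, abs_mul]
      push_cast
      have e1 := hBb A
      have e2 := hkp A
      have e3 := hγp A lam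
      push_cast at e1 e2 e3 ⊢
      have hK1' : (K1 : ℤ) = (G.p : ℤ) ^ d * ((G.p : ℤ) ^ d + (G.r : ℤ) ^ d) := by
        rw [hK1]
        push_cast
        rfl
      rw [← hK1'] at e2
      gcongr
    rw [Int.norm_eq_abs]
    exact_mod_cast h2
  refine (Finset.sum_le_sum h1).trans (le_of_eq ?_)
  rw [Finset.sum_const, Finset.card_univ, Fintype.card_finset, Fintype.card_fin, nsmul_eq_mul]
  push_cast
  ring

/-- a good shift -/
private theorem shift {d W W1 : ℕ} (hW1 : W1 = d * W + 1) (a : Fin d → ℕ) (ha : ∀ i, W1 ≤ a i) :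
    ∃ τ < W1, ∀ i, (a i - τ) % W1 ≤ W1 - W := by
  by_contra hcon
  push Not at hcon
  have hpos : 0 < W1 := by omega
  have h1 : range W1 ⊆ univ.biUnion fun i : Fin d =>
      (range W1).filter fun τ => W1 - W < (a i - τ) % W1 := by
    intro τ hτ
    obtain ⟨i, hi⟩ := hcon τ (Finset.mem_range.mp hτ)
    exact Finset.mem_biUnion.mpr ⟨i, mem_univ i, Finset.mem_filter.mpr ⟨hτ, hi⟩⟩
  have h2 : ∀ i : Fin d, ((range W1).filter fun τ => W1 - W < (a i - τ) % W1).card ≤ W := by
    intro i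
    have h3 : ((range W1).filter fun τ => W1 - W < (a i - τ) % W1).card ≤
        (Ico (W1 - W) W1).card := by
      apply Finset.card_le_card_of_injOn (fun τ => (a i - τ) % W1)
      · intro τ hτ
        have h4 := (Finset.mem_filter.mp hτ).2
        exact Finset.mem_coe.mpr (Finset.mem_Ico.mpr ⟨h4.le, Nat.mod_lt _ hpos⟩)
      · intro τ hτ τ' hτ' heq
        have h4 := Finset.mem_range.mp (Finset.mem_filter.mp hτ).1
        have h5 := Finset.mem_range.mp (Finset.mem_filter.mp hτ').1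
        have h6 := ha i
        have h7 : ((a i - τ : ℕ) : ℤ) % W1 = ((a i - τ' : ℕ) : ℤ) % W1 := by exact_mod_cast heq
        have h8 : (W1 : ℤ) ∣ ((a i - τ' : ℕ) : ℤ) - ((a i - τ : ℕ) : ℤ) :=
          Int.ModEq.dvd h7
        have h9 : ((a i - τ' : ℕ) : ℤ) - ((a i - τ : ℕ) : ℤ) = 0 := by
          apply Int.eq_zero_of_abs_lt_dvd h8
          rw [abs_lt]
          constructor <;> omega
        omega
    rw [Nat.card_Ico] at h3
    omega
  have h3 := (Finset.card_le_card h1).trans Finset.card_biUnion_le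
  rw [Finset.card_range] at h3
  have h4 : ∑ i : Fin d, ((range W1).filter fun τ => W1 - W < (a i - τ) % W1).card ≤ d * W := by
    refine (Finset.sum_le_sum fun i _ => h2 i).trans ?_
    rw [Finset.sum_const, Finset.card_univ, Fintype.card_fin, smul_eq_mul]
  omega

/-- **from the gadgets to the letters, relative version** -/
theorem let_bound2 (G : GP) {b κ : ℕ} (hb1 : 2 * G.p * G.r ≤ G.q ^ b)
    (hb2 : 2 * G.p * G.T ≤ G.q ^ b) (hb3 : 2 * G.r * G.T ≤ G.q ^ b)
    (hκ : 2 * (G.p + G.r) * G.T ≤ G.q ^ κ) (hκ2 : G.q * G.T ≤ G.q ^ κ)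
    (hH : G.q ^ (b + κ + 2 * G.D + 2) ≤ G.H) (hH2 : 2 * G.q ^ (b + κ) ≤ G.H) (hl : b + κ ≤ G.l)
    {d : ℕ} (hd : 1 ≤ d) (B w1 M' B' : ℕ) (C' : ℝ) (hM' : 1 ≤ M') (hC' : 0 ≤ C') :
    ∃ (M3 B3 : ℕ) (C3 : ℝ), 1 ≤ M3 ∧ 0 ≤ C3 ∧
    ∀ (Kl K L s : ℕ) (ε : ℤ) (t : Finset (Lt (G.q * G.T) L) → UnitAddCircle) (I : Finset ℕ),
      ε = 1 ∨ ε = -1 → d * G.W + 1 ≤ Kl → Kl ≤ K → L ≤ K + w1 → I.card ≤ B →
      (∀ τ < d * G.W + 1, ∀ P P0 : ℕ, P = (K - τ) / (d * G.W + 1) →
        P0 = (Kl - τ) / (d * G.W + 1) →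
        ∀ A : Finset (Fin P), (∀ i ∈ I, ∀ k ∈ A, i < τ + (k : ℕ) * (d * G.W + 1) ∨
          τ + ((k : ℕ) + 1) * (d * G.W + 1) ≤ i) →
        ∃ E : Finset (Fin P), E.card ≤ B' ∧
          ∑ x ∈ (Tup (Θ := Fin (G.O (d * G.W + 1)) × Fin G.H) d (A \ E)).filter
              (fun x => ∃ i, ((x i).1 : ℕ) < P0),
            ‖M' • G.form L s ε t (fun i => G.pl (d * G.W + 1) τ (x i).1 (x i).2)‖ ^ 2 ≤ C') →
      TopL G.q G.D L d (d * G.W + 1) M3 B3 C3 Kl t := by
  classical
  obtain ⟨Kc, hKc⟩ := point G hb1 hb2 hb3 hκ hκ2 hH hH2 hl (d := d) M'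
  set N : ℕ := (n0 G.p G.r d 1).natAbs * (n0 G.p G.r d (-1)).natAbs with hN
  have hN1 : 1 ≤ N := Nat.one_le_iff_ne_zero.mpr (mul_ne_zero
    (Int.natAbs_ne_zero.mpr (n0_ne G.hp G.hr G.hpr hd (Or.inl rfl)))
    (Int.natAbs_ne_zero.mpr (n0_ne G.hp G.hr G.hpr hd (Or.inr rfl))))
  set W1 : ℕ := d * G.W + 1 with hW1
  have hW1pos : 0 < W1 := by omega
  have hWW1 : G.W ≤ W1 := by
    have : 1 * G.W ≤ d * G.W := Nat.mul_le_mul_right _ hd
    omega
  refine ⟨M' * N, (W1 + (G.g + b)) + (w1 + 2 * W1) + W1 * ((B + B') * W1) + 2 * W1,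
    (Kc : ℝ) ^ 2 * ((G.H : ℝ) ^ d * (W1 * (((G.q * G.T : ℕ) : ℝ) ^ d * C'))),
    Nat.mul_le_mul hM' hN1, by positivity, ?_⟩
  intro Kl K L s ε t I hε hKl1 hKl2 hL hI hyp
  -- the exceptional cells
  set A : ∀ τ : ℕ, Finset (Fin ((K - τ) / W1)) := fun τ => univ.filter fun k =>
    ∀ i ∈ I, i < τ + (k : ℕ) * W1 ∨ τ + ((k : ℕ) + 1) * W1 ≤ i with hA
  have hE : ∀ τ : ℕ, ∃ E : Finset (Fin ((K - τ) / W1)), τ < W1 → (E.card ≤ B' ∧
      ∑ x ∈ (Tup (Θ := Fin (G.O W1) × Fin G.H) d (A τ \ E)).filter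
          (fun x => ∃ i, ((x i).1 : ℕ) < (Kl - τ) / W1),
        ‖M' • G.form L s ε t (fun i => G.pl W1 τ (x i).1 (x i).2)‖ ^ 2 ≤ C') := by
    intro τ
    by_cases hτ : τ < W1
    · obtain ⟨E, hE1, hE2⟩ := hyp τ hτ _ _ rfl rfl (A τ) (by
        intro i hi k hk
        exact (Finset.mem_filter.mp hk).2 i hi)
      exact ⟨E, fun _ => ⟨hE1, hE2⟩⟩
    · exact ⟨∅, fun h => absurd h hτ⟩
  choose E hE using hE
  set Bd : ∀ τ : ℕ, Finset (Fin ((K - τ) / W1)) := fun τ => (univ \ A τ) ∪ E τ with hBd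
  have hBdcard : ∀ τ < W1, (Bd τ).card ≤ B + B' := by
    intro τ hτ
    refine (Finset.card_union_le _ _).trans (Nat.add_le_add ?_ (hE τ hτ).1)
    refine le_trans ?_ hI
    have h1 : (univ \ A τ).card = ((univ \ A τ).image (Fin.val : Fin ((K - τ) / W1) → ℕ)).card :=
      (Finset.card_image_of_injective _ Fin.val_injective).symm
    rw [h1]
    have h2 : ((univ \ A τ).image (Fin.val : Fin ((K - τ) / W1) → ℕ)) ⊆
        I.image fun i => (i - τ) / W1 := by
      intro k hk
      obtain ⟨k', hk', rfl⟩ := Finset.mem_image.mp hk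
      rw [Finset.mem_sdiff, hA, Finset.mem_filter, not_and] at hk'
      have h3 := hk'.2 (mem_univ _)
      push Not at h3
      obtain ⟨i, hi, h4, h5⟩ := h3
      refine Finset.mem_image.mpr ⟨i, hi, ?_⟩
      rw [Nat.div_eq_iff hW1pos]
      have h6 : ((k' : ℕ) + 1) * W1 = (k' : ℕ) * W1 + W1 := by ring
      omega
    exact (Finset.card_le_card h2).trans Finset.card_image_le
  set Z0 : Finset ℕ := ((range L).filter fun j => j < W1 + (G.g + b) ∨ K + (G.g + b) < j + 2 * W1) ∪
    (range W1).biUnion fun τ => (Bd τ).biUnion fun k =>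
      (range W1).image fun o => (G.g + b) + τ + (k : ℕ) * W1 + o with hZ0
  set Z : Finset ℕ := Z0 ∪ Ico (Kl - 2 * W1) Kl with hZ
  refine ⟨Z, ?_, ?_⟩
  · refine (Finset.card_union_le _ _).trans (Nat.add_le_add ?_ (by rw [Nat.card_Ico]; omega))
    refine (Finset.card_union_le _ _).trans (Nat.add_le_add ?_ ?_)
    · have h1 : ((range L).filter fun j => j < W1 + (G.g + b) ∨ K + (G.g + b) < j + 2 * W1) ⊆
          range (W1 + (G.g + b)) ∪ Ico (K + (G.g + b) - 2 * W1) (K + w1) := by
        intro j hj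
        rw [Finset.mem_filter, Finset.mem_range] at hj
        rw [Finset.mem_union, Finset.mem_range, Finset.mem_Ico]
        omega
      refine (Finset.card_le_card h1).trans ((Finset.card_union_le _ _).trans ?_)
      rw [Finset.card_range, Nat.card_Ico]
      omega
    · refine Finset.card_biUnion_le.trans ?_
      calc ∑ τ ∈ range W1, ((Bd τ).biUnion fun k =>
            (range W1).image fun o => (G.g + b) + τ + (k : ℕ) * W1 + o).card
          ≤ ∑ _τ ∈ range W1, (B + B') * W1 := by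
            refine Finset.sum_le_sum fun τ hτ => ?_
            refine Finset.card_biUnion_le.trans ?_
            calc ∑ k ∈ Bd τ, ((range W1).image fun o => (G.g + b) + τ + (k : ℕ) * W1 + o).card
                ≤ ∑ _k ∈ Bd τ, W1 := Finset.sum_le_sum fun k _ => by
                  refine Finset.card_image_le.trans ?_
                  rw [Finset.card_range]
              _ = (Bd τ).card * W1 := by rw [Finset.sum_const, smul_eq_mul]
              _ ≤ (B + B') * W1 :=
                  Nat.mul_le_mul_right _ (hBdcard τ (Finset.mem_range.mp hτ))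
        _ = W1 * ((B + B') * W1) := by
            rw [Finset.sum_const, Finset.card_range, smul_eq_mul]
  -- the sum
  set F : (Fin d → ℕ × ℕ) → ℝ := fun o => ‖M' • G.form L s ε t o‖ ^ 2 with hF
  have hF0 : ∀ o, 0 ≤ F o := fun o => sq_nonneg _
  set Y : Finset (Fin d → Lt (G.q * G.T) L) := univ.filter fun y =>
    (∀ i, ((y i).1 : ℕ) ∉ Z) ∧ (∀ i j, i ≠ j → FarL W1 (y i) (y j)) ∧
      ∃ i, ((y i).1 : ℕ) < Kl with hY
  set ps : (Fin d → Lt (G.q * G.T) L) → Fin d → ℕ := fun y i => ((y i).1 : ℕ) - (G.g + b) with hps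
  have hYp : ∀ y ∈ Y, ∀ i, ((y i).1 : ℕ) = ps y i + (G.g + b) ∧ W1 ≤ ps y i ∧
      ps y i + 2 * W1 ≤ K := by
    intro y hy i
    have h1 := (Finset.mem_filter.mp hy).2.1 i
    rw [hZ, Finset.mem_union, not_or] at h1
    have h1 := h1.1
    rw [hZ0, Finset.mem_union, not_or, Finset.mem_filter, not_and, not_or] at h1
    have h2 := h1.1 (Finset.mem_range.mpr (y i).1.2)
    simp only [hps]
    omega
  -- the pointwise bound
  have hpt : ∀ y ∈ Y, ‖(M' * N) • mlt t (fun j => dl G.q G.T G.T L (y j))‖ ^ 2 ≤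
      (Kc : ℝ) ^ 2 * ((G.H : ℝ) ^ d *
        ∑ lam : Fin d → Fin G.H, F (fun i => (ps y i, (lam i : ℕ)))) := by
    intro y hy
    have h1 := hKc L s ε t hε y (ps y) fun i => (hYp y hy i).1
    refine (pow_le_pow_left₀ (norm_nonneg _) h1 2).trans ?_
    rw [mul_pow]
    refine mul_le_mul_of_nonneg_left ?_ (sq_nonneg _)
    refine (sq_sum_le_card_mul_sum_sq).trans (le_of_eq ?_)
    rw [Finset.card_univ, Fintype.card_pi_const, Fintype.card_fin]
    push_cast
    rfl
  -- the sum over one shift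
  have hτ : ∀ τ ∈ range W1, ∑ y ∈ Y.filter (fun y => ∀ i, (ps y i - τ) % W1 ≤ W1 - G.W),
      ∑ lam : Fin d → Fin G.H, F (fun i => (ps y i, (lam i : ℕ))) ≤
        ((G.q * G.T : ℕ) : ℝ) ^ d * C' := by
    intro τ hτ
    have hτ' := Finset.mem_range.mp hτ
    rw [← Finset.sum_product' _ _
      (fun (y : Fin d → Lt (G.q * G.T) L) (lam : Fin d → Fin G.H) =>
        F (fun i => (ps y i, (lam i : ℕ))))]
    set S := (Y.filter (fun y => ∀ i, (ps y i - τ) % W1 ≤ W1 - G.W)) ×ˢ
      (univ : Finset (Fin d → Fin G.H)) with hS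
    have key : ∀ q ∈ S, ∃ x ∈ (Tup (Θ := Fin (G.O W1) × Fin G.H) d (A τ \ E τ)).filter
        (fun x => ∃ i, ((x i).1 : ℕ) < (Kl - τ) / W1),
        ∀ i, ((x i).1 : ℕ) = (ps q.1 i - τ) / W1 ∧ ((x i).2.1 : ℕ) = (ps q.1 i - τ) % W1 ∧
          (x i).2.2 = q.2 i := by
      rintro ⟨y, lam⟩ hq
      rw [hS, Finset.mem_product, Finset.mem_filter] at hq
      obtain ⟨⟨hy, hgood⟩, -⟩ := hq
      simp only at hy hgood ⊢
      have hk : ∀ i, (ps y i - τ) / W1 < (K - τ) / W1 := by
        intro i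
        have h1 := hYp y hy i
        have h2 : (ps y i - τ) / W1 + 1 ≤ (K - τ) / W1 := by
          rw [← Nat.add_div_right _ hW1pos]
          apply Nat.div_le_div_right
          omega
        omega
      have ho : ∀ i, (ps y i - τ) % W1 < G.O W1 := by
        intro i
        have := hgood i
        show (ps y i - τ) % W1 < W1 - G.W + 1
        omega
      refine ⟨fun i => (⟨_, hk i⟩, (⟨_, ho i⟩, lam i)), ?_, fun i => ⟨rfl, rfl, rfl⟩⟩
      rw [Finset.mem_filter]
      refine ⟨?_, ?_⟩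
      swap
      · obtain ⟨i, hi⟩ := (Finset.mem_filter.mp hy).2.2.2
        refine ⟨i, ?_⟩
        have h1 := (Finset.mem_filter.mp hy).2.1 i
        rw [hZ, Finset.mem_union, not_or, Finset.mem_Ico, not_and_or] at h1
        have h0 := hYp y hy i
        have h2 : (ps y i - τ) / W1 + 1 ≤ (Kl - τ) / W1 := by
          rw [← Nat.add_div_right _ hW1pos]
          apply Nat.div_le_div_right
          omega
        show (ps y i - τ) / W1 < (Kl - τ) / W1
        omega
      unfold Tup
      rw [Finset.mem_filter]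
      refine ⟨mem_univ _, ?_, ?_⟩
      · intro i j hij
        by_contra hne
        have h1 : (ps y i - τ) / W1 = (ps y j - τ) / W1 := congrArg Fin.val hij
        have h2 := (Finset.mem_filter.mp hy).2.2.1 i j hne
        unfold FarL at h2
        have h3 := hYp y hy i
        have h4 := hYp y hy j
        have h5 := Nat.div_add_mod (ps y i - τ) W1
        have h6 := Nat.div_add_mod (ps y j - τ) W1
        have h7 := Nat.mod_lt (ps y i - τ) hW1pos
        have h8 := Nat.mod_lt (ps y j - τ) hW1pos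
        rw [h1] at h5
        omega
      · intro i
        rw [Finset.mem_sdiff]
        by_contra hbad
        have hb : (⟨_, hk i⟩ : Fin ((K - τ) / W1)) ∈ Bd τ := by
          rw [hBd, Finset.mem_union, Finset.mem_sdiff]
          by_cases h : (⟨_, hk i⟩ : Fin ((K - τ) / W1)) ∈ A τ
          · right
            by_contra h'
            exact hbad ⟨h, h'⟩
          · exact Or.inl ⟨mem_univ _, h⟩
        apply (Finset.mem_filter.mp hy).2.1 i
        rw [hZ, Finset.mem_union]
        left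
        rw [hZ0, Finset.mem_union]
        right
        refine Finset.mem_biUnion.mpr ⟨τ, hτ, Finset.mem_biUnion.mpr ⟨_, hb,
          Finset.mem_image.mpr ⟨(ps y i - τ) % W1,
            Finset.mem_range.mpr (Nat.mod_lt _ hW1pos), ?_⟩⟩⟩
        have h3 := hYp y hy i
        have h5 := Nat.div_add_mod (ps y i - τ) W1
        simp only
        rw [mul_comm] at h5
        omega
    choose φ hφ hφe using key
    set Φ : {q // q ∈ S} → (Fin d → Fin ((K - τ) / W1) × (Fin (G.O W1) × Fin G.H)) ×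
        (Fin d → Fin (G.q * G.T)) := fun q => (φ q.1 q.2, fun i => (q.1.1 i).2) with hΦ
    have hinj : Function.Injective Φ := by
      rintro ⟨⟨y, lam⟩, hq⟩ ⟨⟨y', lam'⟩, hq'⟩ heq
      have e1 : φ (y, lam) hq = φ (y', lam') hq' := congrArg Prod.fst heq
      have e2 : (fun i => (y i).2) = fun i => (y' i).2 := congrArg Prod.snd heq
      have hyY : y ∈ Y := (Finset.mem_filter.mp (Finset.mem_product.mp hq).1).1
      have hyY' : y' ∈ Y := (Finset.mem_filter.mp (Finset.mem_product.mp hq').1).1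
      have e3 : y = y' := by
        funext i
        have f1 := hφe (y, lam) hq i
        have f2 := hφe (y', lam') hq' i
        rw [e1] at f1
        have g1 : (ps y i - τ) / W1 = (ps y' i - τ) / W1 := f1.1.symm.trans f2.1
        have g2 : (ps y i - τ) % W1 = (ps y' i - τ) % W1 := f1.2.1.symm.trans f2.2.1
        have g3 : ps y i - τ = ps y' i - τ := by
          rw [← Nat.div_add_mod (ps y i - τ) W1, g1, g2, Nat.div_add_mod]
        have h3 := hYp y hyY i
        have h4 := hYp y' hyY' i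
        refine Prod.ext (Fin.ext ?_) (congrFun e2 i)
        omega
      have e4 : lam = lam' := by
        funext i
        have f1 := (hφe (y, lam) hq i).2.2
        have f2 := (hφe (y', lam') hq' i).2.2
        rw [e1] at f1
        exact f1.symm.trans f2
      subst e3
      subst e4
      rfl
    set g : (Fin d → Fin ((K - τ) / W1) × (Fin (G.O W1) × Fin G.H)) ×
        (Fin d → Fin (G.q * G.T)) → ℝ := fun x => F (fun i => G.pl W1 τ (x.1 i).1 (x.1 i).2) with hg
    have hval : ∀ q : {q // q ∈ S}, F (fun i => (ps q.1.1 i, (q.1.2 i : ℕ))) = g (Φ q) := by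
      rintro ⟨⟨y, lam⟩, hq⟩
      have hyY : y ∈ Y := (Finset.mem_filter.mp (Finset.mem_product.mp hq).1).1
      simp only [hg, hΦ]
      congr 1
      funext i
      have f1 := hφe (y, lam) hq i
      have h3 := hYp y hyY i
      unfold GP.pl
      refine Prod.ext ?_ ?_
      · simp only
        rw [f1.1, f1.2.1]
        have h5 := Nat.div_add_mod (ps y i - τ) W1
        rw [mul_comm] at h5
        simp only at h5 ⊢
        omega
      · simp only
        rw [f1.2.2]
    calc ∑ q ∈ S, F (fun i => (ps q.1 i, (q.2 i : ℕ)))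
        = ∑ q : {q // q ∈ S}, F (fun i => (ps q.1.1 i, (q.1.2 i : ℕ))) := by
          rw [← Finset.sum_coe_sort S]
      _ = ∑ q : {q // q ∈ S}, g (Φ q) := Finset.sum_congr rfl fun q _ => hval q
      _ = ∑ x ∈ univ.image Φ, g x := (Finset.sum_image fun a _ b _ h => hinj h).symm
      _ ≤ ∑ x ∈ ((Tup (Θ := Fin (G.O W1) × Fin G.H) d (A τ \ E τ)).filter
          (fun x => ∃ i, ((x i).1 : ℕ) < (Kl - τ) / W1)) ×ˢ univ, g x := by
          apply Finset.sum_le_sum_of_subset_of_nonneg
          · intro x hx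
            obtain ⟨q, -, rfl⟩ := Finset.mem_image.mp hx
            exact Finset.mem_product.mpr ⟨hφ q.1 q.2, mem_univ _⟩
          · intro x _ _
            exact hF0 _
      _ = ((G.q * G.T : ℕ) : ℝ) ^ d *
          ∑ x ∈ (Tup (Θ := Fin (G.O W1) × Fin G.H) d (A τ \ E τ)).filter
            (fun x => ∃ i, ((x i).1 : ℕ) < (Kl - τ) / W1),
            ‖M' • G.form L s ε t (fun i => G.pl W1 τ (x i).1 (x i).2)‖ ^ 2 := by
          rw [Finset.sum_product, Finset.mul_sum]
          refine Finset.sum_congr rfl fun x _ => ?_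
          have h1 : ∀ c : Fin d → Fin (G.q * G.T), g (x, c) =
              ‖M' • G.form L s ε t (fun i => G.pl W1 τ (x i).1 (x i).2)‖ ^ 2 := fun c => rfl
          rw [Finset.sum_congr rfl fun c _ => h1 c, Finset.sum_const, Finset.card_univ,
            Fintype.card_pi_const, Fintype.card_fin, nsmul_eq_mul]
          push_cast
          rfl
      _ ≤ _ := mul_le_mul_of_nonneg_left (hE τ hτ').2 (by positivity)
  calc ∑ y ∈ Y, ‖(M' * N) • mlt t (fun j => dl G.q G.T G.T L (y j))‖ ^ 2
      ≤ ∑ y ∈ Y, (Kc : ℝ) ^ 2 * ((G.H : ℝ) ^ d *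
        ∑ lam : Fin d → Fin G.H, F (fun i => (ps y i, (lam i : ℕ)))) := Finset.sum_le_sum hpt
    _ = (Kc : ℝ) ^ 2 * ((G.H : ℝ) ^ d *
        ∑ y ∈ Y, ∑ lam : Fin d → Fin G.H, F (fun i => (ps y i, (lam i : ℕ)))) := by
        rw [← Finset.mul_sum, ← Finset.mul_sum]
    _ ≤ (Kc : ℝ) ^ 2 * ((G.H : ℝ) ^ d * (W1 * (((G.q * G.T : ℕ) : ℝ) ^ d * C'))) := by
        refine mul_le_mul_of_nonneg_left (mul_le_mul_of_nonneg_left ?_ (by positivity))
          (by positivity)
        calc ∑ y ∈ Y, ∑ lam : Fin d → Fin G.H, F (fun i => (ps y i, (lam i : ℕ)))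
            ≤ ∑ y ∈ Y, ∑ τ ∈ range W1, (if ∀ i, (ps y i - τ) % W1 ≤ W1 - G.W then
              ∑ lam : Fin d → Fin G.H, F (fun i => (ps y i, (lam i : ℕ))) else 0) := by
              refine Finset.sum_le_sum fun y hy => ?_
              obtain ⟨τ, hτ1, hτ2⟩ := shift hW1 (ps y) fun i => (hYp y hy i).2.1
              refine le_trans (le_of_eq ?_) (Finset.single_le_sum (f := fun τ =>
                (if ∀ i, (ps y i - τ) % W1 ≤ W1 - G.W then
                  ∑ lam : Fin d → Fin G.H, F (fun i => (ps y i, (lam i : ℕ))) else 0))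
                (fun τ' _ => ?_) (Finset.mem_range.mpr hτ1))
              · rw [if_pos hτ2]
              · split_ifs
                · exact Finset.sum_nonneg fun lam _ => hF0 _
                · exact le_refl 0
          _ = ∑ τ ∈ range W1, ∑ y ∈ Y.filter (fun y => ∀ i, (ps y i - τ) % W1 ≤ W1 - G.W),
              ∑ lam : Fin d → Fin G.H, F (fun i => (ps y i, (lam i : ℕ))) := by
              rw [Finset.sum_comm]
              exact Finset.sum_congr rfl fun τ _ => (Finset.sum_filter _ _).symm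
          _ ≤ ∑ _τ ∈ range W1, ((G.q * G.T : ℕ) : ℝ) ^ d * C' := Finset.sum_le_sum hτ
          _ = W1 * (((G.q * G.T : ℕ) : ℝ) ^ d * C') := by
              rw [Finset.sum_const, Finset.card_range, nsmul_eq_mul]

end Pool.Agent.Lib.MP_3e612f_nt.RD
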