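import Pool.Agent.Lib.MP_3e612f_nt.RD.L.CellL
import Pool.Agent.Lib.MP_3e612f_nt.RD.L.LetL
import Pool.Agent.Lib.MP_3e612f_nt.RD.L.BlkL
import Pool.Agent.Lib.MP_3e612f_nt.PI.ExK

/-!
A large pair correlation gives the structure of the top coefficients (with a factor which is an arbitrary function of
`n / q ^ K`).

PROOF. As `corr_struct` (`RD/Corr.lean`). `G, b, κ` from `exists_GP`; `W1 = d' W + 1`. `w1` with `(p + r) / q ^ w1 ≤ δ / 8`; `K0 = w1 + W1`,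
`K' = K - w1 ≥ W1`. `PI.exists_K` for `δ / 16`: `w, N1`; `K2` with `q ^ K2 ≤ δ / 16 * N`, `K1 ≤ K2 + w`, so `L ≤ K2 + (w + w0)`; `N` large (in
terms of `K`), so `K' ≤ K2`, and `(p + r + 8) q ^ K' ≤ δ / 8 N`. `gad_bound2` for `δ / 4`, then `let_bound2` for `B`, with `Kl = K'`, `K = K2`.
If a correlation over `[1, N']`, `N' ≤ N`, is larger than `δ N`: `blk_c` (`f0 = PSm`, `ε = 1` or `-1`, `β' = β` or `conj β` and so
on; the second factor is `cc` or `conj cc`) gives `∑_{u' < U} ‖∑_x f0‖ ≥ δ / 2 N`, `U = N' / q ^ K' + 1`; by `blk_big` there is a `u` with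
`∑_{u' < q ^ (K2 - K')} ‖∑_{x < q ^ K'} f0 (q ^ K2 u + q ^ K' u' + x)‖ ≥ δ / 4 q ^ K2`, and `blk_short` with `Kp = τ + P0 W1`,
`P0 = (K' - τ) / W1`. `gad_bound2` for every `τ < W1` and `A`. `let_bound2` gives `TopL` with `Kl = K'`; add the positions `[K', K)` to `Z`:
`TopL` with `K`.
-/

set_option autoImplicit false

namespace Pool.Agent.Lib.MP_3e612f_nt.RD

open Finset
open Pool.Agent.Lib.MP_3e612f_nt.PI (ee mc)
open Pool.Agent.Lib.MP_3e612f_nt.DI (av pr mlt)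
open Pool.Agent.Lib.MP_3e612f_nt.EM

/-- **a large pair correlation gives the structure of the top coefficients** -/
theorem corr_struct2 {q : ℕ} (hq : 2 ≤ q) (d : ℕ) {d' : ℕ} (hd' : 1 ≤ d') (D M B w0 : ℕ) [NeZero M]
    {C : ℝ} (hC : 0 ≤ C) {p r : ℕ} (hp : p.Prime) (hr : r.Prime) (hpr : p ≠ r) (hpq : p.Coprime q)
    (hrq : r.Coprime q) {δ : ℝ} (hδ : 0 < δ) :
    ∃ (W M3 B3 K0 : ℕ) (C3 : ℝ), D < W ∧ 1 ≤ M3 ∧ 0 ≤ C3 ∧ ∀ K ≥ K0, ∃ N0 : ℕ,
    ∀ N ≥ N0, ∀ K1 L : ℕ, N ≤ q ^ K1 → q ^ K1 ≤ q * N → L ≤ K1 + w0 →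
    ∀ (cc : ℕ → ℂ) (I : Finset ℕ) (β : ℕ → ℂ) (φ : ℕ → ZMod M) (g : ℕ → ℝ)
      (t : Finset (Lt (q * q ^ D) L) → UnitAddCircle), (∀ n, ‖cc n‖ ≤ 1) →
      I.card ≤ B → (∀ n, ‖β n‖ ≤ 1) → DepL q (q * q ^ D) I β → IsPL q (q * q ^ D) d L φ →
      Infl q L C g → (∀ S, d' < S.card → t S = 0) →
    ∀ F : ℕ → ℂ, (∀ n, F n = cc (n / q ^ K) *
        (β n * ee (φ n) * et (g n : ℝ) * et (FP q (q * q ^ D) L t n))) →
      (∀ s : ℕ, ∀ N' ≤ N, ‖∑ n ∈ Icc 1 N', F (p * n + s) * F (r * n + s)‖ ≤ δ * N ∧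
        ‖∑ n ∈ Icc 1 N', F (p * n + s) * (starRingEnd ℂ) (F (r * n + s))‖ ≤ δ * N) ∨
      TopL q D L d' W M3 B3 C3 K t := by
  obtain ⟨G, b, κ, hGq, hGD, hGp, hGr, hb1, hb2, hb3, hκ, hκ2, hH, hH2, hl⟩ :=
    exists_GP hq hp hr hpr hpq hrq D
  subst hGq hGD hGp hGr
  have hq0 : 0 < G.q := by omega
  have hq1 : (1 : ℝ) < G.q := by exact_mod_cast (show 1 < G.q by omega)
  obtain ⟨w, N1, hN1⟩ := PI.exists_K G.q hq (δ := 1 / 2) (by positivity)
  have hWd : G.W ≤ d' * G.W := Nat.le_mul_of_pos_left _ hd'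
  have hWle : G.W ≤ d' * G.W + 1 := hWd.trans (Nat.le_succ _)
  obtain ⟨M', B', C', hM', hC', hgad⟩ := gad_bound2 G (W1 := d' * G.W + 1) hWle d hd' M (w + w0)
    (C := C) (δ := δ / 4) hC (by positivity)
  obtain ⟨M3, B3, C3, hM3, hC3, hlet⟩ := let_bound2 G hb1 hb2 hb3 hκ hκ2 hH hH2 hl hd' B (w + w0)
    M' B' C' hM' hC'
  -- the difference of the lengths of the blocks
  obtain ⟨a, ha⟩ := pow_unbounded_of_one_lt (((G.p : ℝ) + G.r) / (δ / 8)) hq1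
  have ha' : (G.p : ℝ) + G.r ≤ δ / 8 * (G.q : ℝ) ^ a := by
    rw [div_lt_iff₀ (by positivity)] at ha
    linarith
  refine ⟨d' * G.W + 1, M3, B3 + a, a + (d' * G.W + 1), C3, ?_, hM3, hC3, ?_⟩
  · have h1 : G.D ≤ G.W := by
      show G.D ≤ G.g + G.l + G.D
      omega
    exact Nat.lt_succ_of_le (h1.trans hWd)
  intro K hK0
  obtain ⟨K', hK'⟩ : ∃ K', K = K' + a := ⟨K - a, by omega⟩
  have hKW : d' * G.W + 1 ≤ K' := by omega
  obtain ⟨N2, hN2⟩ := exists_nat_gt (((G.p : ℝ) + G.r + 4) * (G.q : ℝ) ^ K' / (δ / 8))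
  refine ⟨max (max N1 1) (max N2 (G.q ^ (K + w))), ?_⟩
  intro N hN K1 L hK1 hK1' hL cc I β φ g t hcc hI hβ hdep hφ hg ht F hF
  have hNN1 : N1 ≤ N := ((le_max_left _ _).trans (le_max_left _ _)).trans hN
  have hN1' : 1 ≤ N := ((le_max_right _ _).trans (le_max_left _ _)).trans hN
  have hNN2 : N2 ≤ N := ((le_max_left _ _).trans (le_max_right _ _)).trans hN
  have hNq : G.q ^ (K + w) ≤ N := ((le_max_right _ _).trans (le_max_right _ _)).trans hN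
  obtain ⟨K2, hK2, hK1w⟩ := hN1 N hNN1 K1 hK1'
  have hKK2 : K ≤ K2 := by
    have h1 : G.q ^ (K + w) ≤ G.q ^ K1 := hNq.trans hK1
    have h2 := (Nat.pow_le_pow_iff_right (by omega : 1 < G.q)).1 h1
    omega
  have hK'K2 : K' ≤ K2 := by omega
  have hLK : L ≤ K2 + (w + w0) := by omega
  have hNr : (1 : ℝ) ≤ N := by exact_mod_cast hN1'
  have herr : ((G.p : ℝ) + G.r + 4) * (G.q : ℝ) ^ K' ≤ δ / 8 * N := by
    have h1 : ((G.p : ℝ) + G.r + 4) * (G.q : ℝ) ^ K' / (δ / 8) < N := by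
      have : (N2 : ℝ) ≤ N := by exact_mod_cast hNN2
      linarith
    rw [div_lt_iff₀ (by positivity)] at h1
    linarith
  have hqK' : (G.q : ℝ) ^ K' ≤ (G.q : ℝ) ^ K2 := pow_le_pow_right₀ hq1.le hK'K2
  -- one sign
  have main : ∀ (ε : ℤ) (cc' β' : ℕ → ℂ) (φ' : ℕ → ZMod M) (g' : ℕ → ℝ), ε = 1 ∨ ε = -1 →
      (∀ n, ‖cc' n‖ ≤ 1) →
      (∀ n, ‖β' n‖ ≤ 1) → DepL G.q (G.q * G.q ^ G.D) I β' →
      IsPL G.q (G.q * G.q ^ G.D) d L φ' → Infl G.q L C g' →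
      ∀ (s N' : ℕ), N' ≤ N →
      δ * N < ‖∑ n ∈ Icc 1 N', F (G.p * n + s) * (cc' ((G.r * n + s) / G.q ^ K) *
        (β' (G.r * n + s) * ee (φ' (G.r * n + s)) *
        et (g' (G.r * n + s) : ℝ) * et (ε • FP G.q (G.q * G.q ^ G.D) L t (G.r * n + s))))‖ →
      TopL G.q G.D L d' (d' * G.W + 1) M3 (B3 + a) C3 K t := by
    intro ε cc' β' φ' g' hε hcc' hβ' hdep' hφ' hg' s N' hN' hbig
    obtain ⟨f0, hf0⟩ : ∃ f0 : ℕ → ℂ, f0 = PSm G L s ε β β' φ φ' g g' t := ⟨_, rfl⟩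
    have hf1 : ∀ n, ‖f0 n‖ ≤ 1 := by
      intro n
      rw [hf0]
      unfold PSm
      rw [norm_mul, norm_mul, norm_mul, PI.Kat_norm_ee, norm_et, norm_et, mul_one, mul_one,
        mul_one, norm_mul]
      exact mul_le_one₀ (hβ _) (norm_nonneg _) (hβ' _)
    have hbig2 : δ * N < ‖∑ n ∈ Icc 1 N', cc ((G.p * n + s) / G.q ^ K) *
        cc' ((G.r * n + s) / G.q ^ K) * f0 n‖ := by
      refine lt_of_lt_of_eq hbig ?_
      congr 1
      refine Finset.sum_congr rfl fun n _ => ?_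
      rw [hF, hf0]
      unfold PSm
      rw [PI.Kat_ee_add, AddCircle.coe_add, et_add, et_add]
      ring
    have h1 := blk_c hq G.p G.r s K K' N' (by omega) cc cc' f0 hcc hcc' hf1
    have hN'r : (N' : ℝ) ≤ N := by exact_mod_cast hN'
    have hQ0 : (0 : ℝ) < (G.q : ℝ) ^ K' := by positivity
    have hQa : (0 : ℝ) < (G.q : ℝ) ^ a := by positivity
    have h2 : (((G.p : ℝ) + G.r) * N' / (G.q : ℝ) ^ K + G.p + G.r + 4) * (G.q : ℝ) ^ K' ≤
        δ / 4 * N := by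
      have e1 : ((G.p : ℝ) + G.r) * N' / (G.q : ℝ) ^ K * (G.q : ℝ) ^ K' =
          ((G.p : ℝ) + G.r) / (G.q : ℝ) ^ a * N' := by
        rw [hK', pow_add]
        field_simp
      have e2 : ((G.p : ℝ) + G.r) / (G.q : ℝ) ^ a ≤ δ / 8 := by
        rw [div_le_iff₀ hQa]
        exact ha'
      have e3 : ((G.p : ℝ) + G.r) / (G.q : ℝ) ^ a * N' ≤ δ / 8 * N :=
        mul_le_mul e2 hN'r (Nat.cast_nonneg _) (by positivity)
      calc (((G.p : ℝ) + G.r) * N' / (G.q : ℝ) ^ K + G.p + G.r + 4) * (G.q : ℝ) ^ K' =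
          ((G.p : ℝ) + G.r) * N' / (G.q : ℝ) ^ K * (G.q : ℝ) ^ K' +
            ((G.p : ℝ) + G.r + 4) * (G.q : ℝ) ^ K' := by ring
        _ ≤ _ := by rw [e1]; linarith
    have h3 : 3 / 4 * (δ * N) < ∑ u' ∈ range (N' / G.q ^ K' + 1),
        ‖∑ x ∈ range (G.q ^ K'), f0 (G.q ^ K' * u' + x)‖ := by
      linarith
    -- a block of length `q ^ K2`
    obtain ⟨u, hu⟩ : ∃ u : ℕ, δ / 4 * (G.q : ℝ) ^ K2 < ∑ u' ∈ range (G.q ^ (K2 - K')),
        ‖∑ x ∈ range (G.q ^ K'), f0 (G.q ^ K2 * u + G.q ^ K' * u' + x)‖ := by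
      by_contra hcon
      push Not at hcon
      have h4 := blk_big hq hK'K2 f0 (δ := δ / 4) (by positivity) (N' / G.q ^ K' + 1)
        fun u _ => hcon u
      have h5 : (((N' / G.q ^ K' + 1 : ℕ) : ℝ)) * (G.q : ℝ) ^ K' ≤ N' + (G.q : ℝ) ^ K' := by
        have h6 : (N' / G.q ^ K' + 1) * G.q ^ K' ≤ N' + G.q ^ K' := by
          rw [Nat.add_mul, Nat.one_mul]
          have := Nat.div_mul_le_self N' (G.q ^ K')
          omega
        exact_mod_cast h6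
      have h7 : (((N' / G.q ^ K' + 1 : ℕ) : ℝ)) * (G.q : ℝ) ^ K' + (G.q : ℝ) ^ K2 ≤ 2 * N := by
        linarith
      have h8 := mul_le_mul_of_nonneg_left h7 (by positivity : (0 : ℝ) ≤ δ / 4)
      have h9 : 0 < δ * N := by positivity
      linarith
    have hTL : TopL G.q G.D L d' (d' * G.W + 1) M3 B3 C3 K' t := by
      refine hlet K' K2 L s ε t I hε hKW hK'K2 hLK hI ?_
      intro τ hτ P P0 hP hP0 A hA
      have hPK : τ + P * (d' * G.W + 1) ≤ K2 := by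
        have h4 : P * (d' * G.W + 1) ≤ K2 - τ := by
          rw [hP]
          exact Nat.div_mul_le_self _ _
        omega
      have hP0K : τ + P0 * (d' * G.W + 1) ≤ K' := by
        have h4 : P0 * (d' * G.W + 1) ≤ K' - τ := by
          rw [hP0]
          exact Nat.div_mul_le_self _ _
        omega
      have hPP : P0 ≤ P := by
        rw [hP, hP0]
        exact Nat.div_le_div_right (by omega)
      refine hgad P0 P τ s K2 u L A hPP hPK hLK I β β' φ φ' g g' t ε hA hβ hβ' hdep hdep' hφ hφ'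
        hg hg' ht ?_
      rw [← hf0]
      exact hu.le.trans (blk_short hq hP0K hK'K2 f0 u)
    -- the positions between `K'` and `K`
    classical
    obtain ⟨Z, hZ, hZs⟩ := hTL
    refine ⟨Z ∪ Ico K' K, ?_, ?_⟩
    · refine (Finset.card_union_le _ _).trans (Nat.add_le_add hZ ?_)
      rw [Nat.card_Ico]
      omega
    · refine le_trans (Finset.sum_le_sum_of_subset_of_nonneg ?_ fun _ _ _ => sq_nonneg _) hZs
      intro y hy
      obtain ⟨-, hy1, hy2, i, hi⟩ := Finset.mem_filter.1 hy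
      refine Finset.mem_filter.2 ⟨mem_univ _, fun j hj => hy1 j (Finset.mem_union_left _ hj), hy2, i, ?_⟩
      by_contra h4
      exact hy1 i (Finset.mem_union_right _ (Finset.mem_Ico.2 ⟨by omega, hi⟩))
  by_cases hs : ∀ s : ℕ, ∀ N' ≤ N, ‖∑ n ∈ Icc 1 N', F (G.p * n + s) * F (G.r * n + s)‖ ≤ δ * N ∧
        ‖∑ n ∈ Icc 1 N', F (G.p * n + s) * (starRingEnd ℂ) (F (G.r * n + s))‖ ≤ δ * N
  · exact Or.inl hs
  · right
    push Not at hs
    obtain ⟨s, N', hN', hs⟩ := hs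
    by_cases h1 : ‖∑ n ∈ Icc 1 N', F (G.p * n + s) * F (G.r * n + s)‖ ≤ δ * N
    · have h2 := hs h1
      refine main (-1) (fun n => (starRingEnd ℂ) (cc n)) (fun n => (starRingEnd ℂ) (β n))
        (fun n => - φ n) (fun n => - g n)
        (Or.inr rfl) (fun n => ?_) (fun n => ?_) (fun n n' hn => ?_) hφ.neg hg.neg s N' hN' ?_
      · rw [RCLike.norm_conj]
        exact hcc n
      · rw [RCLike.norm_conj]
        exact hβ n
      · simp only [hdep n n' hn]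
      · refine lt_of_lt_of_eq h2 ?_
        congr 1
        refine Finset.sum_congr rfl fun n _ => ?_
        congr 1
        rw [hF (G.r * n + s), map_mul, map_mul, map_mul, map_mul, PI.Kat_ee_neg, neg_one_zsmul,
          et_neg, ← et_neg (g (G.r * n + s) : UnitAddCircle)]
        rfl
    · push Not at h1
      refine main 1 cc β φ g (Or.inl rfl) hcc hβ hdep hφ hg s N' hN' ?_
      refine lt_of_lt_of_eq h1 ?_
      congr 1
      refine Finset.sum_congr rfl fun n _ => ?_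
      congr 1
      rw [hF (G.r * n + s), one_zsmul]

end Pool.Agent.Lib.MP_3e612f_nt.RD
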