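import Pool.Agent.Lib.MP_3e612f_nt.RD.L.ClsL
import Pool.Agent.Lib.MP_3e612f_nt.RD.Dec

/-!
The structured functions are bounded combinations of functions of smaller degree.

PROOF of `decomp2`, from `decomp`. Let `th S = t S` if all letters of `S` are at positions `≥ K`, `0` otherwise, and `t' = t - th`.
`FP t n = FP th n + FP t' n` (`FP_add`), and `FP th n` is a function of `n / q ^ K` (the letters of `n` at the positions `≥ K` are), so
`et (FP th n)` can be put into the factor `cc`. `TopS` for `t'` with `Z' = Z ∪ [K - (D + 2), K)`, `B3' = B3 + D + 2`: let `y` be a tuple which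
avoids `Z'`. If a letter of `y` is below `K`, it is below `K - (D + 2)`; `dl y x ≠ 0` only for `y.1 ≤ x.1 ≤ y.1 + D`
(`y.2 < q * q ^ D`, so `y.2 / q ^ k = 0` for `k > D`; both letters are then `0`, note `dl` is the difference), so in `mlt th (dl y ..)` this
variable only sees letters below `K` and the form is `0`: `mlt t' = mlt t`. If all letters of `y` are at positions `≥ K`, then all
letters `x` with `dl y x ≠ 0` are, and `mlt t' = 0`. So the sum in `TopS` for `t'` is at most the sum in `TopL` for `t`. `decomp` for `t'`.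
-/

set_option autoImplicit false

namespace Pool.Agent.Lib.MP_3e612f_nt.RD

open Finset
open Pool.Agent.Lib.MP_3e612f_nt.PI (ee mc)
open Pool.Agent.Lib.MP_3e612f_nt.DI (av pr mlt)
open Pool.Agent.Lib.MP_3e612f_nt.EM

/-! ### Auxiliary lemmas -/

/-- two coefficient functions which agree on the images of the relevant tuples have the same form -/
private theorem dl_mlt {X : Type} [Fintype X] [DecidableEq X] {G : Type} [AddCommGroup G] {d : ℕ}
    {t t' : Finset X → G} {h : Fin d → X → ℤ}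
    (hh : ∀ x : Fin d → X, (∀ j, h j (x j) ≠ 0) → t (univ.image x) = t' (univ.image x)) :
    mlt t h = mlt t' h := by
  unfold mlt
  refine sum_congr rfl fun x _ => ?_
  by_cases h0 : ∀ j, h j (x j) ≠ 0
  · rw [hh x h0]
  · push Not at h0
    obtain ⟨j, hj⟩ := h0
    rw [prod_eq_zero (mem_univ j) hj, zero_smul, zero_smul]

/-- the letters which occur in the vector of a letter -/
private theorem dl_near {q D L : ℕ} (hq : 2 ≤ q) {y x : Lt (q * q ^ D) L}
    (h : dl q (q ^ D) (q ^ D) L y x ≠ 0) : (y.1 : ℕ) ≤ x.1 ∧ (x.1 : ℕ) ≤ y.1 + D := by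
  unfold dl at h
  by_cases h1 : (y.1 : ℕ) ≤ x.1
  · refine ⟨h1, ?_⟩
    by_contra h2
    rw [if_pos h1] at h
    refine h ?_
    have h3 : q * q ^ D ≤ q ^ ((x.1 : ℕ) - y.1) :=
      (pow_succ' q D).ge.trans (Nat.pow_le_pow_right (by omega) (by omega))
    have h4 : (y.2 : ℕ) / q ^ ((x.1 : ℕ) - y.1) = 0 :=
      Nat.div_eq_of_lt (lt_of_lt_of_le y.2.2 h3)
    have h5 : (y.2 : ℕ) % q ^ D / q ^ ((x.1 : ℕ) - y.1) = 0 :=
      Nat.div_eq_of_lt (lt_of_le_of_lt (Nat.mod_le _ _) (lt_of_lt_of_le y.2.2 h3))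
    rw [h4, h5, sub_self]
  · rw [if_neg h1] at h
    exact absurd rfl h

open Classical in
/-- the part of a phase with the letters at the positions `≥ K` -/
private noncomputable def hiP {m L : ℕ} (K : ℕ) (t : Finset (Lt m L) → UnitAddCircle) :
    Finset (Lt m L) → UnitAddCircle :=
  fun S => if ∀ x ∈ S, K ≤ (x.1 : ℕ) then t S else 0

open Classical in
/-- the other part -/
private noncomputable def loP {m L : ℕ} (K : ℕ) (t : Finset (Lt m L) → UnitAddCircle) :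
    Finset (Lt m L) → UnitAddCircle :=
  fun S => if ∀ x ∈ S, K ≤ (x.1 : ℕ) then 0 else t S

private theorem hi_lo {m L : ℕ} (K : ℕ) (t : Finset (Lt m L) → UnitAddCircle) (S) :
    t S = hiP K t S + loP K t S := by
  unfold hiP loP
  by_cases h : ∀ x ∈ S, K ≤ (x.1 : ℕ)
  · rw [if_pos h, if_pos h, add_zero]
  · rw [if_neg h, if_neg h, zero_add]

/-- the high part is a function of `n / q ^ K` -/
private theorem hi_fun {q m L : ℕ} (K : ℕ) (t : Finset (Lt m L) → UnitAddCircle) :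
    ∃ G : ℕ → UnitAddCircle, ∀ n, FP q m L (hiP K t) n = G (n / q ^ K) := by
  classical
  refine ⟨fun u => ∑ S : Finset (Lt m L), if (∀ x ∈ S, K ≤ (x.1 : ℕ)) ∧
    ∀ x ∈ S, u / q ^ ((x.1 : ℕ) - K) % m = x.2 then t S else 0, fun n => ?_⟩
  rw [FP_eq]
  refine sum_congr rfl fun S _ => ?_
  unfold hiP
  by_cases h : ∀ x ∈ S, K ≤ (x.1 : ℕ)
  · rw [if_pos h]
    have h1 : S ⊆ ltr q m L n ↔ ((∀ x ∈ S, K ≤ (x.1 : ℕ)) ∧
        ∀ x ∈ S, n / q ^ K / q ^ ((x.1 : ℕ) - K) % m = x.2) := by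
      have h2 : ∀ x ∈ S, n / q ^ K / q ^ ((x.1 : ℕ) - K) = n / q ^ (x.1 : ℕ) := by
        intro x hx
        rw [Nat.div_div_eq_div_mul, ← pow_add, Nat.add_sub_cancel' (h x hx)]
      constructor
      · intro h3
        refine ⟨h, fun x hx => ?_⟩
        rw [h2 x hx]
        exact mem_ltr.1 (h3 hx)
      · rintro ⟨_, h3⟩ x hx
        have h4 := h3 x hx
        rw [h2 x hx] at h4
        exact mem_ltr.2 h4
    by_cases h5 : S ⊆ ltr q m L n
    · rw [if_pos h5, if_pos (h1.1 h5)]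
    · rw [if_neg h5, if_neg fun h6 => h5 (h1.2 h6)]
  · rw [if_neg h, ite_self, if_neg fun h6 => h h6.1]

/-- the top form of the low part -/
private theorem lo_top {q D L d K : ℕ} (hq : 2 ≤ q)
    (t : Finset (Lt (q * q ^ D) L) → UnitAddCircle) (y : Fin d → Lt (q * q ^ D) L) :
    ((∃ i, ((y i).1 : ℕ) + D < K) → mlt (loP K t) (fun j => dl q (q ^ D) (q ^ D) L (y j)) =
      mlt t fun j => dl q (q ^ D) (q ^ D) L (y j)) ∧
    ((∀ i, K ≤ ((y i).1 : ℕ)) → mlt (loP K t) (fun j => dl q (q ^ D) (q ^ D) L (y j)) = 0) := by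
  constructor
  · rintro ⟨i, hi⟩
    refine dl_mlt fun x hx => ?_
    unfold loP
    rw [if_neg]
    intro h
    have h1 := h (x i) (mem_image_of_mem x (mem_univ i))
    have h2 := dl_near hq (hx i)
    omega
  · intro hy
    have h1 : mlt (loP K t) (fun j => dl q (q ^ D) (q ^ D) L (y j)) =
        mlt (fun _ => (0 : UnitAddCircle)) fun j => dl q (q ^ D) (q ^ D) L (y j) := by
      refine dl_mlt fun x hx => ?_
      unfold loP
      rw [if_pos]
      intro z hz
      obtain ⟨i, _, rfl⟩ := mem_image.1 hz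
      exact (hy i).trans (dl_near hq (hx i)).1
    rw [h1]
    unfold mlt
    simp only [smul_zero, ite_self, sum_const_zero]

/-- the structure of the low part -/
private theorem lo_TopS {q D L d W M3 B3 K : ℕ} (hq : 2 ≤ q) {C3 : ℝ}
    {t : Finset (Lt (q * q ^ D) L) → UnitAddCircle} (h : TopL q D L d W M3 B3 C3 K t) :
    TopS q D L d W M3 (B3 + (D + 2)) C3 (loP K t) := by
  classical
  obtain ⟨Z, hZ, hs⟩ := h
  refine ⟨Z ∪ Ico (K - (D + 2)) K, ?_, ?_⟩
  · refine (card_union_le _ _).trans (Nat.add_le_add hZ ?_)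
    rw [Nat.card_Ico]
    omega
  refine le_trans ?_ hs
  rw [← sum_filter_add_sum_filter_not (univ.filter (fun y : Fin d → Lt (q * q ^ D) L =>
      (∀ i, ((y i).1 : ℕ) ∉ Z ∪ Ico (K - (D + 2)) K) ∧ ∀ i j, i ≠ j → FarL W (y i) (y j)))
      (fun y => ∃ i, ((y i).1 : ℕ) < K)]
  have h2 : ∑ y ∈ (univ.filter (fun y : Fin d → Lt (q * q ^ D) L =>
      (∀ i, ((y i).1 : ℕ) ∉ Z ∪ Ico (K - (D + 2)) K) ∧ ∀ i j, i ≠ j → FarL W (y i) (y j))).filter
      (fun y => ¬ ∃ i, ((y i).1 : ℕ) < K),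
      ‖M3 • mlt (loP K t) (fun j => dl q (q ^ D) (q ^ D) L (y j))‖ ^ 2 = 0 := by
    refine sum_eq_zero fun y hy => ?_
    have h3 := (mem_filter.1 hy).2
    push Not at h3
    rw [(lo_top hq t y).2 h3, smul_zero, norm_zero, zero_pow two_ne_zero]
  rw [h2, add_zero]
  refine le_trans (le_of_eq (sum_congr rfl fun y hy => ?_))
    (sum_le_sum_of_subset_of_nonneg (fun y hy => ?_) fun _ _ _ => by positivity)
  · rw [mem_filter, mem_filter] at hy
    obtain ⟨⟨_, h3, h4⟩, i, hi⟩ := hy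
    have h5 := h3 i
    rw [mem_union, mem_Ico] at h5
    have h6 : ((y i).1 : ℕ) + D < K := by
      by_contra h7
      exact h5 (Or.inr (by omega))
    rw [(lo_top hq t y).1 ⟨i, h6⟩]
  · rw [mem_filter, mem_filter] at hy
    obtain ⟨⟨_, h3, h4⟩, h5⟩ := hy
    refine mem_filter.2 ⟨mem_univ _, fun i h6 => h3 i (mem_union_left _ h6), h4, h5⟩

/-- **the structured functions** -/
theorem decomp2 {q : ℕ} (hq : 2 ≤ q) {d d' : ℕ} (hd' : 1 ≤ d') (hdd : d' ≤ d)
    (D M B W M3 B3 : ℕ) [NeZero M] (hW : D < W) (hM3 : 1 ≤ M3) {C C3 : ℝ} (hC : 0 ≤ C)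
    (hC3 : 0 ≤ C3) :
    ∃ (Kc D2 M2 B2 : ℕ) (_ : NeZero M2) (C2 : ℝ), 0 ≤ C2 ∧
    ∀ (K L : ℕ) (cc : ℕ → ℂ) (I : Finset ℕ) (β : ℕ → ℂ) (φ : ℕ → ZMod M) (g : ℕ → ℝ)
      (t : Finset (Lt (q * q ^ D) L) → UnitAddCircle), (∀ n, ‖cc n‖ ≤ 1) →
      I.card ≤ B → (∀ n, ‖β n‖ ≤ 1) → DepL q (q * q ^ D) I β → IsPL q (q * q ^ D) d L φ →
      Infl q L C g → (∀ S, d' < S.card → t S = 0) → TopL q D L d' W M3 B3 C3 K t →
      ∃ (ι : Type) (_ : Fintype ι) (F1 : ι → ℕ → ℂ), Fintype.card ι ≤ Kc ∧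
        (∀ i, RcL q d (d' - 1) D2 M2 B2 K C2 L (F1 i)) ∧
        ∀ n, cc (n / q ^ K) * (β n * ee (φ n) * et (g n : ℝ) * et (FP q (q * q ^ D) L t n)) =
          ∑ i, F1 i n := by
  classical
  obtain ⟨Kc, D2, M2, B2, hM2, C2, hC2, hmain⟩ :=
    decomp hq hd' hdd D M B W M3 (B3 + (D + 2)) hW hM3 hC hC3
  refine ⟨Kc, D2, M2, B2, hM2, C2, hC2, ?_⟩
  intro K L cc I β φ g t hcc hI hβ hdep hφ hg ht hT
  obtain ⟨ι, hι, F1, hK, hF1, hsum⟩ := hmain L I β φ g (loP K t) hI hβ hdep hφ hg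
    (fun S hS => by
      unfold loP
      rw [ht S hS, ite_self]) (lo_TopS hq hT)
  obtain ⟨G, hG⟩ := hi_fun (q := q) K t
  refine ⟨ι, hι, fun i n => (cc (n / q ^ K) * et (G (n / q ^ K))) * F1 i n, hK, fun i => ?_,
    fun n => ?_⟩
  · refine ⟨fun u => cc u * et (G u), F1 i, fun u => ?_, hF1 i, fun n => rfl⟩
    rw [norm_mul, norm_et, mul_one]
    exact hcc u
  · have h1 : FP q (q * q ^ D) L t n = G (n / q ^ K) + FP q (q * q ^ D) L (loP K t) n := by
      rw [← hG n, ← FP_add]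
      congr 1
      funext S
      exact hi_lo K t S
    rw [← Finset.mul_sum, ← hsum n, h1, et_add]
    ring

end Pool.Agent.Lib.MP_3e612f_nt.RD
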