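import Pool.Agent.Lib.MP_3e612f_nt.RD.L.BasL
import Pool.Agent.Lib.MP_3e612f_nt.RD.L.CorrL
import Pool.Agent.Lib.MP_3e612f_nt.RD.L.DecL
import Pool.Agent.Lib.MP_3e612f_nt.PI.Kat

/-!
The induction step with the factor `cc`.

PROOF of `rstep2`. As `rstep` (`RD/Glob.lean`, `RD/GlobS.lean`): `PB.katai_fin`, `corr_struct2` for all pairs of primes (take the maximum of
the `K0`, and for given `K` the maximum of the `N0`), `decomp2` and `ROL q d (d' - 1)` (its `K0` for the parameters of `decomp2`, for all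
pairs). `RcL.norm`, `RcL.conj`.
-/

set_option autoImplicit false

namespace Pool.Agent.Lib.MP_3e612f_nt.RD

open Finset
open Pool.Agent.Lib.MP_3e612f_nt.PI (ee mc)
open Pool.Agent.Lib.MP_3e612f_nt.DI (av pr mlt)
open Pool.Agent.Lib.MP_3e612f_nt.EM

private theorem rs_pair2 {q : ℕ} (hq : 2 ≤ q) {d d' : ℕ} (hd' : 1 ≤ d') (hdd : d' ≤ d)
    (h : ROL q d (d' - 1)) (D M B w0 : ℕ) [NeZero M] {C ε δ : ℝ} (hC : 0 ≤ C)
    (hε : 0 < ε) (hδ : 0 < δ) (p r : ℕ) (hp : p.Prime) (hr : r.Prime) (hpr : p < r)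
    (hpq : q < p) :
    ∃ K0 : ℕ, ∀ K ≥ K0, ∃ N0 : ℕ, ∀ N ≥ N0, ∀ K1 L s : ℕ, N ≤ q ^ K1 → q ^ K1 ≤ q * N →
      L ≤ K1 + w0 → ∀ F : ℕ → ℂ, RcL q d d' D M B K C L F →
        (‖∑ n ∈ Icc 1 (N / r), F (p * n + s) * F (r * n + s)‖ ≤ δ * N ∧
          ‖∑ n ∈ Icc 1 (N / r), F (p * n + s) * (starRingEnd ℂ) (F (r * n + s))‖ ≤ δ * N) ∨
        ‖∑ n ∈ Icc 1 N, mc n * F (n + s)‖ ≤ ε * N := by
  have hcop : ∀ {x : ℕ}, x.Prime → q < x → x.Coprime q := fun hx hyx =>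
    (Nat.Prime.coprime_iff_not_dvd hx).mpr fun hdv =>
      absurd (Nat.le_of_dvd (by omega) hdv) (by omega)
  obtain ⟨W, M3, B3, K0, C3, hW, hM3, hC3, hcs⟩ :=
    corr_struct2 hq d hd' D M B w0 hC hp hr hpr.ne (hcop hp hpq) (hcop hr (hpq.trans hpr)) hδ
  obtain ⟨Kc, D2, M2, B2, hne, C2, hC2, hdec⟩ := decomp2 hq hd' hdd D M B W M3 B3 hW hM3 hC hC3
  have hC1 : (0 : ℝ) < (Kc : ℝ) + 1 := by positivity
  obtain ⟨Kd, hKd⟩ := h D2 M2 B2 w0 C2 hC2 (ε / ((Kc : ℝ) + 1)) (div_pos hε hC1)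
  refine ⟨max K0 Kd, fun K hK => ?_⟩
  obtain ⟨N0, hN0⟩ := hcs K ((le_max_left _ _).trans hK)
  obtain ⟨N1, hN1⟩ := hKd K ((le_max_right _ _).trans hK)
  refine ⟨max N0 N1, ?_⟩
  intro N hN K1 L s hK1 hK2 hL F hF
  obtain ⟨cc, F0, hcc, hF0, hFF⟩ := hF
  obtain ⟨I, β, φ, g, hh, hI, hβ, hdep, hφ, hg, ⟨t, ht, hht⟩, hFe⟩ := hF0
  have hFe' : ∀ n, F n = cc (n / q ^ K) *
      (β n * ee (φ n) * et (g n : ℝ) * et (FP q (q * q ^ D) L t n)) := by
    intro n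
    rw [hFF n, hFe n, hht n]
  rcases hN0 N ((le_max_left _ _).trans hN) K1 L hK1 hK2 hL cc I β φ g t hcc hI hβ hdep hφ hg ht
    F hFe' with h1 | h2
  · left
    exact h1 s (N / r) (Nat.div_le_self N r)
  · right
    obtain ⟨ι, _, F1, hcard, hF1, hsum⟩ := hdec K L cc I β φ g t hcc hI hβ hdep hφ hg ht h2
    have e : ∑ n ∈ Icc 1 N, mc n * F (n + s) =
        ∑ i, ∑ n ∈ Icc 1 N, mc n * F1 i (n + s) := by
      have e1 : ∀ n ∈ Icc 1 N, mc n * F (n + s) = ∑ i, mc n * F1 i (n + s) := by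
        intro n _
        rw [hFe', hsum (n + s), Finset.mul_sum]
      rw [Finset.sum_congr rfl e1, Finset.sum_comm]
    rw [e]
    have hN0' : (0 : ℝ) ≤ N := Nat.cast_nonneg N
    calc ‖∑ i, ∑ n ∈ Icc 1 N, mc n * F1 i (n + s)‖
        ≤ ∑ i : ι, ε / ((Kc : ℝ) + 1) * N := by
          refine (norm_sum_le _ _).trans (Finset.sum_le_sum fun i _ => ?_)
          exact hN1 N ((le_max_right _ _).trans hN) K1 L s hK1 hK2 hL (F1 i) (hF1 i)
      _ = (Fintype.card ι : ℝ) * (ε / ((Kc : ℝ) + 1) * N) := by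
          rw [Finset.sum_const, Finset.card_univ, nsmul_eq_mul]
      _ ≤ ((Kc : ℝ) + 1) * (ε / ((Kc : ℝ) + 1) * N) := by
          refine mul_le_mul_of_nonneg_right ?_ (by positivity)
          have : (Fintype.card ι : ℝ) ≤ Kc := by exact_mod_cast hcard
          linarith
      _ = ε * N := by
          field_simp

/-- the step -/
theorem rstep2 {q : ℕ} (hq : 2 ≤ q) {d d' : ℕ} (hd' : 1 ≤ d') (hdd : d' ≤ d)
    (h : ROL q d (d' - 1)) : ROL q d d' := by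
  intro D M B w0 _ C hC ε hε
  obtain ⟨P, δ, N1, hP, hδ, hk⟩ := PB.katai_fin (A := 1) le_rfl q (half_pos hε)
  have h' : ∀ p r : ℕ, ∃ K0 : ℕ, ∀ K : ℕ, ∃ N0 : ℕ, K0 ≤ K → p ∈ P → r ∈ P → p < r →
      ∀ N ≥ N0, ∀ K1 L s : ℕ, N ≤ q ^ K1 → q ^ K1 ≤ q * N → L ≤ K1 + w0 →
      ∀ F : ℕ → ℂ, RcL q d d' D M B K C L F →
        (‖∑ n ∈ Icc 1 (N / r), F (p * n + s) * F (r * n + s)‖ ≤ δ * N ∧
          ‖∑ n ∈ Icc 1 (N / r), F (p * n + s) * (starRingEnd ℂ) (F (r * n + s))‖ ≤ δ * N) ∨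
        ‖∑ n ∈ Icc 1 N, mc n * F (n + s)‖ ≤ ε * N := by
    intro p r
    by_cases hc : p ∈ P ∧ r ∈ P ∧ p < r
    · obtain ⟨h1, h2, h3⟩ := hc
      obtain ⟨K0, hK0⟩ := rs_pair2 hq hd' hdd h D M B w0 hC hε hδ p r (hP p h1).1 (hP r h2).1 h3
        (hP p h1).2
      refine ⟨K0, fun K => ?_⟩
      by_cases hK : K0 ≤ K
      · obtain ⟨N0, hN0⟩ := hK0 K hK
        exact ⟨N0, fun _ _ _ _ => hN0⟩
      · exact ⟨0, fun a => absurd a hK⟩
    · exact ⟨0, fun _ => ⟨0, fun _ a b c => absurd ⟨a, b, c⟩ hc⟩⟩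
  choose K2 N2 hN2 using h'
  refine ⟨P.sup fun p => P.sup fun r => K2 p r, fun K hK => ?_⟩
  refine ⟨max N1 (P.sup fun p => P.sup fun r => N2 p r K), ?_⟩
  intro N hN K1 L s hK1 hK2 hL F hF
  by_cases hb : ‖∑ n ∈ Icc 1 N, mc n * F (n + s)‖ ≤ ε * N
  · exact hb
  have hN' : N1 ≤ N := le_trans (le_max_left _ _) hN
  have hcor : ∀ p ∈ P, ∀ r ∈ P, p < r →
      ‖∑ n ∈ Icc 1 (N / r), F (p * n + s) * F (r * n + s)‖ ≤ δ * N ∧
        ‖∑ n ∈ Icc 1 (N / r), F (p * n + s) * (starRingEnd ℂ) (F (r * n + s))‖ ≤ δ * N := by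
    intro p hp r hr hpr
    have hS : N2 p r K ≤ N := by
      refine le_trans ?_ (le_trans (le_max_right _ _) hN)
      refine le_trans ?_ (Finset.le_sup (f := fun p => P.sup fun r => N2 p r K) hp)
      exact Finset.le_sup (f := fun r => N2 p r K) hr
    have hT : K2 p r ≤ K := by
      refine le_trans ?_ hK
      refine le_trans ?_ (Finset.le_sup (f := fun p => P.sup fun r => K2 p r) hp)
      exact Finset.le_sup (f := fun r => K2 p r) hr
    rcases hN2 p r K hT hp hr hpr N hS K1 L s hK1 hK2 hL F hF with h1 | h2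
    · exact h1
    · exact absurd h2 hb
  have hre := hk N hN' (fun n => (F (n + s)).re)
    (fun n => (Complex.abs_re_le_norm _).trans (hF.norm _)) (fun p hp r hr hpr => by
      obtain ⟨h1, h2⟩ := hcor p hp r hr hpr
      have e : ∑ m ∈ Icc 1 (N / r), (F (p * m + s)).re * (F (r * m + s)).re =
          ((∑ n ∈ Icc 1 (N / r), F (p * n + s) * F (r * n + s)).re +
            (∑ n ∈ Icc 1 (N / r), F (p * n + s) * (starRingEnd ℂ) (F (r * n + s))).re) / 2 := by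
        rw [Complex.re_sum, Complex.re_sum, ← sum_add_distrib, sum_div]
        refine sum_congr rfl fun m _ => ?_
        rw [Complex.mul_re, Complex.mul_re, Complex.conj_re, Complex.conj_im]
        ring
      rw [e, abs_div, abs_two, div_le_iff₀ two_pos]
      have h3 := Complex.abs_re_le_norm (∑ n ∈ Icc 1 (N / r), F (p * n + s) * F (r * n + s))
      have h4 := Complex.abs_re_le_norm
        (∑ n ∈ Icc 1 (N / r), F (p * n + s) * (starRingEnd ℂ) (F (r * n + s)))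
      have h5 := abs_add_le (∑ n ∈ Icc 1 (N / r), F (p * n + s) * F (r * n + s)).re
        (∑ n ∈ Icc 1 (N / r), F (p * n + s) * (starRingEnd ℂ) (F (r * n + s))).re
      linarith)
  have him := hk N hN' (fun n => (F (n + s)).im)
    (fun n => (Complex.abs_im_le_norm _).trans (hF.norm _)) (fun p hp r hr hpr => by
      obtain ⟨h1, h2⟩ := hcor p hp r hr hpr
      have e : ∑ m ∈ Icc 1 (N / r), (F (p * m + s)).im * (F (r * m + s)).im =
          ((∑ n ∈ Icc 1 (N / r), F (p * n + s) * (starRingEnd ℂ) (F (r * n + s))).re -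
            (∑ n ∈ Icc 1 (N / r), F (p * n + s) * F (r * n + s)).re) / 2 := by
        rw [Complex.re_sum, Complex.re_sum, ← sum_sub_distrib, sum_div]
        refine sum_congr rfl fun m _ => ?_
        rw [Complex.mul_re, Complex.mul_re, Complex.conj_re, Complex.conj_im]
        ring
      rw [e, abs_div, abs_two, div_le_iff₀ two_pos]
      have h3 := Complex.abs_re_le_norm (∑ n ∈ Icc 1 (N / r), F (p * n + s) * F (r * n + s))
      have h4 := Complex.abs_re_le_norm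
        (∑ n ∈ Icc 1 (N / r), F (p * n + s) * (starRingEnd ℂ) (F (r * n + s)))
      have h5 := abs_sub (∑ n ∈ Icc 1 (N / r), F (p * n + s) * (starRingEnd ℂ) (F (r * n + s))).re
        (∑ n ∈ Icc 1 (N / r), F (p * n + s) * F (r * n + s)).re
      linarith)
  have er : (∑ n ∈ Icc 1 N, mc n * F (n + s)).re = ∑ n ∈ Icc 1 N, mu n * (F (n + s)).re := by
    rw [Complex.re_sum]
    refine sum_congr rfl fun n _ => ?_
    rw [PI.Kat_mc, Complex.re_ofReal_mul]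
  have ei : (∑ n ∈ Icc 1 N, mc n * F (n + s)).im = ∑ n ∈ Icc 1 N, mu n * (F (n + s)).im := by
    rw [Complex.im_sum]
    refine sum_congr rfl fun n _ => ?_
    rw [PI.Kat_mc, Complex.im_ofReal_mul]
  have hfin := Complex.norm_le_abs_re_add_abs_im (∑ n ∈ Icc 1 N, mc n * F (n + s))
  rw [er, ei] at hfin
  exact absurd (by linarith [hre, him, hfin]) hb

end Pool.Agent.Lib.MP_3e612f_nt.RD
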