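import Pool.Agent.Lib.MP_3e612f_nt.RD.L.ClsL
import Pool.Agent.Lib.MP_3e612f_nt.RD.CellA

/-!
The law, with independent digits below and above a cell.

PROOF of `law2_exists`. As `law_exists` (`RD/CellA.lean`), but with an explicit family: for disjoint windows
`[a k, a k + W)` let `rep v c = v - ∑_k (v / q ^ (a k) % q ^ W) * q ^ (a k) + ∑_k c k * q ^ (a k)`: the contents of the windows are
replaced by `c k`, the other digits stay. By induction on the set of the windows (`PI.Avg_R`, `Avg_R_eq`, `Avg_single` in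
`PI/Avg.lean` for one window): content of `rep v c` at `a k` is `c k`, `rep v (update c k x) + c k * q ^ (a k) = rep v c + x * q ^ (a k)`, the
sum over `v < q ^ K` of the average over `c` of `Ψ (rep v c)` is the sum of `Ψ v`; `rep v c / q ^ b` only depends on `v / q ^ b` and the
`c k` with `b ≤ a k`, and `rep v c % q ^ b` only depends on `v % q ^ b` and the `c k` with `a k + W ≤ b`, if no window contains `b` in its
interior. Here `W = G.W = g + l + D`, so the content of the window modulo `q ^ (g + l) * T` is `c k` itself (`T = q ^ D`; no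
correction of the state is needed), and `b = τ + P0 * W1` is the start of the cell `P0` (`po_cell`). `N v σ = rep v c` for the
windows `a k = (G.po W1 R P τ k (σ k).1).1` and `c k = (σ k).2`; it does not depend on `A`. The third property of `Law` as in
`law_exists`.
-/

set_option autoImplicit false

namespace Pool.Agent.Lib.MP_3e612f_nt.RD

open Finset
open Pool.Agent.Lib.MP_3e612f_nt.PI (ee mc Avg_R Avg_R_eq Avg_R_div Avg_R_mod Avg_R_content
  Avg_R_other Avg_content_le Avg_single Avg_coord)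
open Pool.Agent.Lib.MP_3e612f_nt.DI (av pr mlt)
open Pool.Agent.Lib.MP_3e612f_nt.EM

/-- the contents of the first `n` windows are replaced, one after the other -/
private def llrep (q W : ℕ) (a c : ℕ → ℕ) : ℕ → ℕ → ℕ
  | 0, v => v
  | n + 1, v => Avg_R q W (a n) (llrep q W a c n v) (c n)

private theorem rep_congr {q W : ℕ} {a a' c c' : ℕ → ℕ} (n v : ℕ) (ha : ∀ k < n, a k = a' k)
    (hc : ∀ k < n, c k = c' k) : llrep q W a c n v = llrep q W a' c' n v := by
  induction n with
  | zero => rfl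
  | succ n ih =>
    rw [llrep, llrep, ih (fun k hk => ha k (by omega)) fun k hk => hc k (by omega),
      ha n (by omega), hc n (by omega)]

private theorem rep_out {q W : ℕ} (hq : 2 ≤ q) {a c : ℕ → ℕ} (n v b : ℕ)
    (hc : ∀ k < n, c k < q ^ W) (hb : ∀ k < n, a k + W ≤ b ∨ b + W ≤ a k) :
    llrep q W a c n v / q ^ b % q ^ W = v / q ^ b % q ^ W := by
  induction n with
  | zero => rfl
  | succ n ih =>
    rw [llrep, Avg_R_other hq (hc n (by omega)) (hb n (by omega))]
    exact ih (fun k hk => hc k (by omega)) fun k hk => hb k (by omega)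

private theorem rep_content {q W : ℕ} (hq : 2 ≤ q) {a c : ℕ → ℕ} (n v : ℕ)
    (hc : ∀ k < n, c k < q ^ W)
    (hs : ∀ i < n, ∀ j < n, i ≠ j → a i + W ≤ a j ∨ a j + W ≤ a i) (i : ℕ) (hi : i < n) :
    llrep q W a c n v / q ^ a i % q ^ W = c i := by
  induction n with
  | zero => omega
  | succ n ih =>
    rw [llrep]
    rcases Nat.lt_or_ge i n with h | h
    · rw [Avg_R_other hq (hc n (by omega)) (hs n (by omega) i (by omega) (by omega))]
      exact ih (fun k hk => hc k (by omega))
        (fun i hi j hj hij => hs i (by omega) j (by omega) hij) h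
    · obtain rfl : i = n := by omega
      exact Avg_R_content hq (hc i (by omega))

private theorem rep_zero {q W : ℕ} (hq : 2 ≤ q) {a c : ℕ → ℕ} (n v : ℕ)
    (hc : ∀ k < n, c k < q ^ W)
    (hs : ∀ i < n, ∀ j < n, i ≠ j → a i + W ≤ a j ∨ a j + W ≤ a i) :
    llrep q W a c n v = llrep q W a (fun _ => 0) n v + ∑ k ∈ range n, c k * q ^ a k := by
  induction n with
  | zero => simp [llrep]
  | succ n ih =>
    have ih' := ih (fun k hk => hc k (by omega))
      fun i hi j hj hij => hs i (by omega) j (by omega) hij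
    have h0 : 0 < q ^ W := by positivity
    have hsn : ∀ k < n, a k + W ≤ a n ∨ a n + W ≤ a k := fun k hk =>
      hs k (by omega) n (by omega) (by omega)
    have h1 := rep_out hq n v (a n) (fun k hk => hc k (by omega)) hsn
    have h2 := rep_out hq (c := fun _ => 0) n v (a n) (fun k hk => h0) hsn
    have h3 := Avg_content_le q W (a n) (llrep q W a (fun _ => 0) n v)
    rw [llrep, llrep, sum_range_succ]
    unfold Avg_R
    rw [h1, ← h2, ih']
    omega

/-- one window, above a lower place -/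
private theorem R_high {q W a v x b : ℕ} (hq : 2 ≤ q) (hb : b ≤ a) :
    Avg_R q W a v x / q ^ b = Avg_R q W (a - b) (v / q ^ b) x := by
  obtain ⟨d, rfl⟩ := Nat.exists_eq_add_of_le hb
  have h0 : 0 < q ^ b := by positivity
  rw [Nat.add_sub_cancel_left, Avg_R_eq, Avg_R_eq, Nat.div_div_eq_div_mul, ← pow_add]
  have h1 : v % q ^ (b + d) = v % q ^ b + q ^ b * (v / q ^ b % q ^ d) := by
    rw [pow_add, Nat.mod_mul]
  have h2 : v / q ^ (b + d + W) * q ^ (b + d + W) + x * q ^ (b + d) + v % q ^ (b + d) =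
      v % q ^ b + q ^ b * (v / q ^ (b + (d + W)) * q ^ (d + W) + x * q ^ d +
        v / q ^ b % q ^ d) := by
    rw [h1, ← add_assoc b d W, pow_add q (b + d) W, pow_add q b d, pow_add q d W]
    ring
  rw [h2, Nat.add_mul_div_left _ _ h0, Nat.div_eq_of_lt (Nat.mod_lt _ h0), zero_add]

/-- one window, below a higher place -/
private theorem R_low {q W a v x b : ℕ} (hb : a + W ≤ b) :
    Avg_R q W a v x % q ^ b = Avg_R q W a (v % q ^ b) x % q ^ b := by
  have h1 : v % q ^ b / q ^ a % q ^ W = v / q ^ a % q ^ W := by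
    obtain ⟨d, rfl⟩ := Nat.exists_eq_add_of_le hb
    rw [pow_add, pow_add, mul_assoc, Nat.mod_mul_right_div_self, Nat.mod_mul_right_mod]
  have h2 := Avg_content_le q W a (v % q ^ b)
  have h3 : Avg_R q W a v x = Avg_R q W a (v % q ^ b) x + q ^ b * (v / q ^ b) := by
    unfold Avg_R
    rw [h1] at h2 ⊢
    have h4 := Nat.mod_add_div v (q ^ b)
    omega
  rw [h3, Nat.add_mul_mod_self_left]

private theorem rep_high {q W : ℕ} (hq : 2 ≤ q) {a a' c c' : ℕ → ℕ} (b n v v' : ℕ)
    (hc : ∀ k < n, c k < q ^ W) (hc' : ∀ k < n, c' k < q ^ W)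
    (h : ∀ k < n, (a k + W ≤ b ∧ a' k + W ≤ b) ∨ (b ≤ a k ∧ a k = a' k ∧ c k = c' k))
    (hv : v / q ^ b = v' / q ^ b) : llrep q W a c n v / q ^ b = llrep q W a' c' n v' / q ^ b := by
  induction n with
  | zero => exact hv
  | succ n ih =>
    have ih' := ih (fun k hk => hc k (by omega)) (fun k hk => hc' k (by omega))
      fun k hk => h k (by omega)
    rw [llrep, llrep]
    rcases h n (by omega) with ⟨h1, h2⟩ | ⟨h1, h2, h3⟩
    · rw [Avg_R_div hq (hc n (by omega)) h1, Avg_R_div hq (hc' n (by omega)) h2, ih']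
    · rw [← h2, ← h3, R_high hq h1, R_high hq h1, ih']

private theorem rep_low {q W : ℕ} {a a' c c' : ℕ → ℕ} (b n v v' : ℕ)
    (h : ∀ k < n, (b ≤ a k ∧ b ≤ a' k) ∨ (a k + W ≤ b ∧ a k = a' k ∧ c k = c' k))
    (hv : v % q ^ b = v' % q ^ b) : llrep q W a c n v % q ^ b = llrep q W a' c' n v' % q ^ b := by
  induction n with
  | zero => exact hv
  | succ n ih =>
    have ih' := ih fun k hk => h k (by omega)
    rw [llrep, llrep]
    rcases h n (by omega) with ⟨h1, h2⟩ | ⟨h1, h2, h3⟩
    · rw [Avg_R_mod h1, Avg_R_mod h2, ih']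
    · rw [← h2, ← h3, R_low h1, R_low (v := llrep q W a' c' n v') h1, ih']

/-- a function on `Fin P` as a function on `ℕ` -/
private def ex {P : ℕ} (f : Fin P → ℕ) (k : ℕ) : ℕ := if h : k < P then f ⟨k, h⟩ else 0

private theorem ex_lt {P : ℕ} (f : Fin P → ℕ) {k : ℕ} (h : k < P) : ex f k = f ⟨k, h⟩ :=
  dif_pos h

private theorem ex_coe {P : ℕ} (f : Fin P → ℕ) (k : Fin P) : ex f k = f k := by
  rw [ex_lt f k.2]

private theorem rep_avg {q W K P : ℕ} (hq : 2 ≤ q) (a : ℕ → ℕ) (n : ℕ) (hn : n ≤ P)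
    (hK : ∀ k < n, a k + W ≤ K) (Ψ : ℕ → ℂ) :
    ∑ v ∈ range (q ^ K), ∑ c : Fin P → Fin (q ^ W), Ψ (llrep q W a (ex fun k => (c k : ℕ)) n v) =
      (((q ^ W) ^ P : ℕ) : ℂ) * ∑ v ∈ range (q ^ K), Ψ v := by
  induction n generalizing Ψ with
  | zero =>
    simp only [llrep, Finset.sum_const, card_univ, Fintype.card_fun, Fintype.card_fin,
      nsmul_eq_mul]
    rw [Finset.mul_sum]
  | succ n ih =>
    have hm : ((q ^ W : ℕ) : ℂ) ≠ 0 := by
      have : 0 < q ^ W := by positivity
      exact_mod_cast this.ne'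
    have h1 : ∀ v, ((q ^ W : ℕ) : ℂ) * ∑ c : Fin P → Fin (q ^ W),
        Ψ (llrep q W a (ex fun k => (c k : ℕ)) (n + 1) v) =
        ∑ c : Fin P → Fin (q ^ W), ∑ x : Fin (q ^ W),
          Ψ (Avg_R q W (a n) (llrep q W a (ex fun k => (c k : ℕ)) n v) x) := by
      intro v
      rw [Avg_coord (⟨n, by omega⟩ : Fin P)]
      refine Finset.sum_congr rfl fun c _ => Finset.sum_congr rfl fun x _ => ?_
      have h2 : ex (fun k => ((Function.update c (⟨n, by omega⟩ : Fin P) x) k : ℕ)) n = x := by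
        rw [ex_lt _ (by omega), Function.update_self]
      have h3 : llrep q W a (ex fun k => ((Function.update c (⟨n, by omega⟩ : Fin P) x) k : ℕ)) n v =
          llrep q W a (ex fun k => (c k : ℕ)) n v := by
        refine rep_congr n v (fun _ _ => rfl) fun k hk => ?_
        rw [ex_lt _ (by omega), ex_lt _ (by omega), Function.update_of_ne]
        intro h
        have := congrArg Fin.val h
        simp only at this
        omega
      rw [llrep, h2, h3]
    have h2 := ih (by omega) (fun k hk => hK k (by omega))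
      (fun u => ∑ x : Fin (q ^ W), Ψ (Avg_R q W (a n) u x))
    rw [Avg_single hq (hK n (by omega))] at h2
    refine mul_left_cancel₀ hm ?_
    rw [Finset.mul_sum, Finset.sum_congr rfl fun v _ => h1 v, h2]
    ring

/-- the averages over the states are averages over the choices and the contents -/
private theorem ll_av {P R Q : ℕ} (f : (Fin P → Fin R × Fin Q) → ℂ) :
    av f = av fun ω : Fin P → Fin R => av fun c : Fin P → Fin Q => f fun k => (ω k, c k) := by
  have h1 := DI.av_equiv (Equiv.arrowProdEquivProdArrow (Fin P) (fun _ => Fin R) (fun _ => Fin Q)).symm f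
  rw [← h1, DI.av_prod]
  rfl

private theorem ll_ave_av {α : Type} [Fintype α] (f : α → ℝ) :
    ((ave f : ℝ) : ℂ) = av fun a => (f a : ℂ) := by
  unfold ave av
  push_cast
  rfl

/-- **the law with independent digits below and above a cell** -/
theorem law2_exists (G : GP) {W1 R P τ K : ℕ} (s u : ℕ) (hW1 : G.W ≤ W1) (hR : 0 < R)
    (hK : τ + P * W1 ≤ K) :
    ∃ N : ℕ → (Fin P → Fin R × Fin (G.q ^ G.W)) → ℕ, Law2 G W1 R P τ s K u N := by
  classical
  have : Nonempty (Fin R) := ⟨⟨0, hR⟩⟩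
  have hq := G.hq
  have hW0 : 0 < G.q ^ G.W := by positivity
  have hcell : ∀ (ω : Fin P → Fin R) (k : Fin P), (G.po W1 R P τ k (ω k)).1 + G.W ≤ K := by
    intro ω k
    have h1 := (po_cell G (τ := τ) hW1 (ω k) k).2
    have h2 : ((k : ℕ) + 1) * W1 ≤ P * W1 := Nat.mul_le_mul_right _ k.2
    omega
  let S : (Fin P → Fin R) → ℕ → (Fin P → Fin (G.q ^ G.W)) → ℕ := fun ω v c =>
    llrep G.q G.W (ex fun k => (G.po W1 R P τ k (ω k)).1) (ex fun k => (c k : ℕ)) P v
  have hsep : ∀ ω : Fin P → Fin R, ∀ i < P, ∀ j < P, i ≠ j →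
      ex (fun k => (G.po W1 R P τ k (ω k)).1) i + G.W ≤ ex (fun k => (G.po W1 R P τ k (ω k)).1) j ∨
      ex (fun k => (G.po W1 R P τ k (ω k)).1) j + G.W ≤
        ex (fun k => (G.po W1 R P τ k (ω k)).1) i := by
    intro ω i hi j hj hij
    rw [ex_lt _ hi, ex_lt _ hj]
    exact po_sep G hW1 ω ⟨i, hi⟩ ⟨j, hj⟩ fun h => hij (congrArg Fin.val h)
  have hcl : ∀ c : Fin P → Fin (G.q ^ G.W), ∀ k < P, ex (fun k => (c k : ℕ)) k < G.q ^ G.W := by
    intro c k hk
    rw [ex_lt _ hk]
    exact (c ⟨k, hk⟩).2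
  have hS1 : ∀ ω v c (i : Fin P),
      S ω v c / G.q ^ (G.po W1 R P τ i (ω i)).1 % G.q ^ G.W = (c i : ℕ) := by
    intro ω v c i
    have h1 := rep_content hq P v (hcl c) (hsep ω) i i.2
    rw [ex_coe, ex_coe] at h1
    exact h1
  have hS2 : ∀ ω v c, S ω v c = llrep G.q G.W (ex fun k => (G.po W1 R P τ k (ω k)).1)
      (fun _ => 0) P v + ∑ k : Fin P, (c k : ℕ) * G.q ^ (G.po W1 R P τ k (ω k)).1 := by
    intro ω v c
    have h1 := rep_zero hq P v (hcl c) (hsep ω)
    rw [Finset.sum_range] at h1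
    simp only [ex_coe] at h1
    exact h1
  have hS3 : ∀ ω (Ψ : ℕ → ℂ), ∑ v ∈ range (G.q ^ K), av (fun c => Ψ (S ω v c)) =
      ∑ v ∈ range (G.q ^ K), Ψ v := by
    intro ω Ψ
    have h5 := rep_avg (W := G.W) (K := K) (P := P) hq
      (ex fun k => (G.po W1 R P τ k (ω k)).1) P le_rfl (fun k hk => by
        rw [ex_lt _ hk]
        exact hcell ω ⟨k, hk⟩) Ψ
    unfold av
    rw [← Finset.mul_sum]
    have h6 : (Fintype.card (Fin P → Fin (G.q ^ G.W)) : ℂ) ≠ 0 := by
      have : Nonempty (Fin (G.q ^ G.W)) := ⟨⟨0, hW0⟩⟩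
      exact_mod_cast Fintype.card_ne_zero
    have h7 : (((G.q ^ G.W) ^ P : ℕ) : ℂ) =
        (Fintype.card (Fin P → Fin (G.q ^ G.W)) : ℂ) := by
      rw [Fintype.card_fun, Fintype.card_fin, Fintype.card_fin]
    rw [h7] at h5
    rw [h5, ← mul_assoc, inv_mul_cancel₀ h6, one_mul]
  refine ⟨fun v σ => S (fun k => (σ k).1) v fun k => (σ k).2, fun A => ⟨?_, ?_, ?_⟩, ?_⟩
  · intro Ψ
    have h1 : ((∑ v ∈ range (G.q ^ K), ave (fun σ : Fin P → Fin R × Fin (G.q ^ G.W) =>
        Ψ (fun k => (σ k).1) (S (fun k => (σ k).1) v fun k => (σ k).2)) : ℝ) : ℂ) =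
        ((∑ v ∈ range (G.q ^ K), ave fun ω => Ψ ω v : ℝ) : ℂ) := by
      push_cast
      simp only [ll_ave_av]
      simp only [ll_av (P := P) (R := R) (Q := G.q ^ G.W)]
      rw [← DI.av_sum, ← DI.av_sum]
      congr 1
      funext ω
      exact hS3 ω fun v => (Ψ ω v : ℂ)
    exact_mod_cast h1
  · intro Ψ
    simp only [ll_av (P := P) (R := R) (Q := G.q ^ G.W)]
    rw [← DI.av_sum]
    have h1 : ∀ ω : Fin P → Fin R, ∑ v ∈ range (G.q ^ K),
        av (fun c : Fin P → Fin (G.q ^ G.W) => Ψ (S ω v c)) = ∑ v ∈ range (G.q ^ K), Ψ v :=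
      fun ω => hS3 ω Ψ
    simp only [h1]
    exact DI.av_const _
  · intro v σ
    set ω : Fin P → Fin R := fun k => (σ k).1 with hω
    set B := (G.sw W1 R P τ s A).act σ with hB
    have hmem : ∀ k, k ∈ B ↔ G.lb W1 R P τ s A k (σ k) ≠ none := by
      intro k
      rw [hB]
      unfold Sw.act
      rw [mem_filter, Option.isSome_iff_ne_none]
      simp only [mem_univ, true_and]
      rfl
    set c0 : Fin P → Fin (G.q ^ G.W) := fun k => if k ∈ B then
      ⟨G.z s (G.po W1 R P τ k (ω k)), G.z_lt0 s (G.po_lt W1 R P τ k (ω k))⟩ else (σ k).2 with hc0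
    have hc0B : ∀ k ∈ B, (c0 k : ℕ) = G.z s (G.po W1 R P τ k (ω k)) := by
      intro k hk
      rw [hc0]
      simp only [hk, if_true]
    refine ⟨G.q ^ K * u + S ω v c0, ?_, ?_⟩
    · intro k hk
      have h1 := hS1 ω v c0 k
      rw [hc0B k hk] at h1
      have hKk := hcell ω k
      set a := (G.po W1 R P τ k (ω k)).1 with ha
      have h3 : G.q ^ (G.g + G.l) * G.T = G.q ^ G.W := (pow_add _ _ _).symm
      have h4 : G.q ^ (K - a) = G.q ^ G.W * G.q ^ (K - a - G.W) := by
        rw [← pow_add]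
        congr 1
        omega
      rw [h3, Law_div_base hq (by omega), h4, mul_assoc, Nat.mul_add_mod]
      exact h1
    · intro w
      set c1 : Fin P → Fin (G.q ^ G.W) := fun k => ((G.sw W1 R P τ s A).flp w σ k).2 with hc1
      have hfst : (fun k => ((G.sw W1 R P τ s A).flp w σ k).1) = ω := by
        funext k
        unfold Sw.flp
        by_cases h : w k = true
        · rw [if_pos h]
          show (if G.lb W1 R P τ s A k (σ k) = none then σ k
            else ((σ k).1, G.oth W1 R P τ s k (σ k))).1 = (σ k).1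
          split_ifs <;> rfl
        · rw [if_neg h]
      have hc1B : ∀ k ∈ B, (c1 k : ℕ) = G.z s (G.po W1 R P τ k (ω k)) +
          (if xor (G.bt W1 R P τ s k (σ k)) (w k) = true then 1 else 0) * (G.T * G.q ^ G.g) := by
        intro k hk
        have h1 := (hmem k).1 hk
        have h2 := (G.lb_some h1).2.2
        rw [hc1]
        unfold Sw.flp
        by_cases h : w k = true
        · simp only [h, if_true]
          show ((if G.lb W1 R P τ s A k (σ k) = none then σ k
            else ((σ k).1, G.oth W1 R P τ s k (σ k))).2 : ℕ) = _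
          rw [if_neg h1]
          simp only
          unfold GP.oth GP.bt
          by_cases h3 : ((σ k).2 : ℕ) = G.z s (G.po W1 R P τ k (σ k).1)
          · simp [h3]
            rfl
          · simp [h3]
            rfl
        · simp only [h]
          unfold GP.bt
          rcases h2 with h3 | h3
          · simp [h3]
            rfl
          · have h4 : ((σ k).2 : ℕ) ≠ G.z s (G.po W1 R P τ k (σ k).1) := by
              rw [h3]
              exact G.z_ne s _
            simp [h4]
            exact h3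
      have hc1n : ∀ k, k ∉ B → c1 k = c0 k := by
        intro k hk
        have h1 : G.lb W1 R P τ s A k (σ k) = none := by
          by_contra h
          exact hk ((hmem k).2 h)
        rw [hc1, hc0]
        simp only [hk, if_false]
        unfold Sw.flp
        by_cases h : w k = true
        · rw [if_pos h]
          show (if G.lb W1 R P τ s A k (σ k) = none then σ k
            else ((σ k).1, G.oth W1 R P τ s k (σ k))).2 = (σ k).2
          rw [if_pos h1]
        · rw [if_neg h]
      show G.q ^ K * u + S (fun k => ((G.sw W1 R P τ s A).flp w σ k).1) v c1 = _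
      rw [hfst, hS2 ω v c1, hS2 ω v c0]
      have h5 : ∑ k : Fin P, (c1 k : ℕ) * G.q ^ (G.po W1 R P τ k (ω k)).1 =
          ∑ k : Fin P, (c0 k : ℕ) * G.q ^ (G.po W1 R P τ k (ω k)).1 +
          ∑ k ∈ B, (if xor (G.bt W1 R P τ s k (σ k)) (w k) = true then 1 else 0) *
            (G.T * G.q ^ ((G.po W1 R P τ k (σ k).1).1 + G.g)) := by
        have h6 : ∀ k : Fin P, (c1 k : ℕ) * G.q ^ (G.po W1 R P τ k (ω k)).1 =
            (c0 k : ℕ) * G.q ^ (G.po W1 R P τ k (ω k)).1 +
            if k ∈ B then (if xor (G.bt W1 R P τ s k (σ k)) (w k) = true then 1 else 0) *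
              (G.T * G.q ^ ((G.po W1 R P τ k (σ k).1).1 + G.g)) else 0 := by
          intro k
          by_cases hk : k ∈ B
          · rw [if_pos hk, hc1B k hk, hc0B k hk, add_mul, mul_assoc, mul_assoc, ← pow_add,
              add_comm G.g]
          · rw [if_neg hk, hc1n k hk, add_zero]
        rw [Finset.sum_congr rfl fun k _ => h6 k, Finset.sum_add_distrib, ← Finset.sum_filter,
          Finset.filter_mem_eq_inter, Finset.univ_inter]
      rw [h5]
      omega
  · intro P0 hP0 v v' σ σ'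
    have hpo : ∀ (x : Fin R) (k : Fin P), P0 ≤ (k : ℕ) →
        τ + P0 * W1 ≤ (G.po W1 R P τ k x).1 := by
      intro x k hk
      have h1 := (po_cell G (τ := τ) hW1 x k).1
      have h2 : P0 * W1 ≤ k * W1 := Nat.mul_le_mul_right _ hk
      omega
    have hpo' : ∀ (x : Fin R) (k : Fin P), (k : ℕ) < P0 →
        (G.po W1 R P τ k x).1 + G.W ≤ τ + P0 * W1 := by
      intro x k hk
      have h1 := (po_cell G (τ := τ) hW1 x k).2
      have h2 : ((k : ℕ) + 1) * W1 ≤ P0 * W1 := Nat.mul_le_mul_right _ hk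
      omega
    refine ⟨fun hv h => ?_, fun hv h => ?_⟩
    · refine rep_high hq _ P v v' (hcl _) (hcl _) (fun k hk => ?_) hv
      rw [ex_lt _ hk, ex_lt _ hk, ex_lt _ hk, ex_lt _ hk]
      rcases Nat.lt_or_ge k P0 with h1 | h1
      · exact Or.inl ⟨hpo' _ ⟨k, hk⟩ h1, hpo' _ ⟨k, hk⟩ h1⟩
      · refine Or.inr ⟨hpo _ ⟨k, hk⟩ h1, ?_, ?_⟩
        · beta_reduce
          rw [h ⟨k, hk⟩ h1]
        · beta_reduce
          rw [h ⟨k, hk⟩ h1]
    · refine rep_low _ P v v' (fun k hk => ?_) hv
      rw [ex_lt _ hk, ex_lt _ hk, ex_lt _ hk, ex_lt _ hk]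
      rcases Nat.lt_or_ge k P0 with h1 | h1
      · refine Or.inr ⟨hpo' _ ⟨k, hk⟩ h1, ?_, ?_⟩
        · beta_reduce
          rw [h ⟨k, hk⟩ h1]
        · beta_reduce
          rw [h ⟨k, hk⟩ h1]
      · exact Or.inl ⟨hpo _ ⟨k, hk⟩ h1, hpo _ ⟨k, hk⟩ h1⟩

end Pool.Agent.Lib.MP_3e612f_nt.RD
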