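import Pool.Agent.Lib.MP_3e612f_nt.RD.L.ShL
import Pool.Agent.Lib.MP_3e612f_nt.RD.Usd

/-!
The universal system of the real digit polynomials: Moebius disjointness on almost all short intervals along the orbits.

PROOF of `gx_blk`. As `gx_ms`: `trig_dense` and `rshift2`.
PROOF of `blk_win`. Every window `[n, n + H)` is the union of the blocks `{m : (m + s) / Q = u}` which it contains and of at most `2 Q`
further numbers; a block is contained in at most `H` windows.
PROOF of `gx_short`. `gx_blk` for `ε / 8`, `K = K0`, `Q = q ^ K`; for `x ∈ GX`, `x n = phd q D d L F (n + s)`, choose `cc u` with `|cc u| = 1` and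
`cc u * A u = |A u|`, `A u = ∑_{m ∈ [1, N'], (m + s) / Q = u} mc m * f (T^m x)`; so `∑_u |A u| ≤ ε / 8 N'` for `N' = N + H ≤ 2 N` (`mc 0 = 0`).
`blk_win`: `∑_{n < N} |∑_{h < H} ..| ≤ H ∑_u |A u| + 2 Q C N`, `C` a bound for `|f|`; `H ≥ H0 = ⌈8 Q C / ε⌉`. The set of the `x` with the bound
is closed for fixed `N`, `H`.
-/

set_option autoImplicit false

namespace Pool.Agent.Lib.MP_3e612f_nt.RD

open Finset
open Pool.Agent.Lib.MP_3e612f_nt.PI (ee mc wd)
open Pool.Agent.Lib.MP_3e612f_nt.DI (phd IsPhd shift_lowd)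
open Pool.Agent.Lib.MP_3e612f_nt.EM

private theorem usl_phd (q D d L I : ℕ) (F : (Fin d → ℕ) → (Fin d → ℕ) → ℕ → UnitAddCircle)
    (c : ℕ → ℤ) (m : ℕ) :
    ∑ k ∈ range I, c k • phd q D d L F m k =
      phd q D d L (fun j w => ∑ k ∈ range I, c k • F j w k) m := by
  unfold phd
  rw [Finset.sum_comm]
  refine Finset.sum_congr rfl fun k _ => ?_
  rw [Finset.sum_apply, Finset.smul_sum]

theorem gx_blk {q : ℕ} (hq : 2 ≤ q) {d : ℕ} (hd : 1 ≤ d) (D : ℕ)
    (f : (ℕ → ℕ → UnitAddCircle) → ℂ) (hf : Continuous f) {ε : ℝ} (hε : 0 < ε) :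
    ∃ K N0 : ℕ, ∀ N ≥ N0, ∀ (L s : ℕ) (F : (Fin d → ℕ) → (Fin d → ℕ) → ℕ → UnitAddCircle)
      (cc : ℕ → ℂ), (∀ n, ‖cc n‖ ≤ 1) →
      ‖∑ n ∈ Icc 1 N, mc n * (cc ((n + s) / q ^ K) *
        f (fun i => phd q D d L F (i + n + s)))‖ ≤ ε * N := by
  obtain ⟨I, R, a, c, htd⟩ := trig_dense f hf (half_pos hε)
  obtain ⟨A, hA⟩ : ∃ A : ℝ, A = ∑ r ∈ range R, ‖a r‖ := ⟨_, rfl⟩
  have hA0 : 0 ≤ A := by
    rw [hA]
    exact Finset.sum_nonneg fun _ _ => norm_nonneg _
  obtain ⟨K, hK⟩ := rshift2 hq hd D I (ε := ε / (2 * (A + 1))) (by positivity)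
  obtain ⟨N0, hN0⟩ := hK K le_rfl
  refine ⟨K, N0, fun N hN L s F cc hcc => ?_⟩
  have e1 : ∑ n ∈ Icc 1 N, mc n * (cc ((n + s) / q ^ K) *
        f (fun i => phd q D d L F (i + n + s))) =
      ∑ n ∈ Icc 1 N, mc n * (cc ((n + s) / q ^ K) * (f (fun i => phd q D d L F (i + n + s)) -
        ∑ r ∈ range R, a r *
        et (∑ i ∈ range I, ∑ k ∈ range I, c r i k • phd q D d L F (i + n + s) k))) +
      ∑ r ∈ range R, a r * ∑ n ∈ Icc 1 N, mc n * (cc ((n + s) / q ^ K) *
        et (∑ i ∈ range I, phd q D d L (fun j w => ∑ k ∈ range I, c r i k • F j w k)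
          (n + s + i))) := by
    have e2 : ∑ r ∈ range R, a r * ∑ n ∈ Icc 1 N, mc n * (cc ((n + s) / q ^ K) *
        et (∑ i ∈ range I, phd q D d L (fun j w => ∑ k ∈ range I, c r i k • F j w k)
          (n + s + i))) = ∑ n ∈ Icc 1 N, mc n * (cc ((n + s) / q ^ K) * ∑ r ∈ range R, a r *
        et (∑ i ∈ range I, ∑ k ∈ range I, c r i k • phd q D d L F (i + n + s) k)) := by
      simp only [Finset.mul_sum]
      rw [Finset.sum_comm]
      refine Finset.sum_congr rfl fun n _ => Finset.sum_congr rfl fun r _ => ?_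
      have e3 : ∑ i ∈ range I, phd q D d L (fun j w => ∑ k ∈ range I, c r i k • F j w k)
          (n + s + i) =
          ∑ i ∈ range I, ∑ k ∈ range I, c r i k • phd q D d L F (i + n + s) k := by
        refine Finset.sum_congr rfl fun i _ => ?_
        rw [← usl_phd, show n + s + i = i + n + s by omega]
      rw [e3]
      ring
    rw [e2, ← Finset.sum_add_distrib]
    exact Finset.sum_congr rfl fun n _ => by ring
  rw [e1]
  have hN : ∀ r, ‖∑ n ∈ Icc 1 N, mc n * (cc ((n + s) / q ^ K) *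
        et (∑ i ∈ range I, phd q D d L (fun j w => ∑ k ∈ range I, c r i k • F j w k)
          (n + s + i)))‖ ≤ ε / (2 * (A + 1)) * N := fun r =>
    hN0 N hN L s (fun i j w => ∑ k ∈ range I, c r i k • F j w k) cc hcc
  refine (norm_add_le _ _).trans ?_
  have h1 : ‖∑ n ∈ Icc 1 N, mc n * (cc ((n + s) / q ^ K) *
      (f (fun i => phd q D d L F (i + n + s)) - ∑ r ∈ range R, a r *
        et (∑ i ∈ range I, ∑ k ∈ range I, c r i k • phd q D d L F (i + n + s) k)))‖ ≤
      ε / 2 * N := by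
    refine (norm_sum_le _ _).trans ((Finset.sum_le_card_nsmul _ _ (ε / 2) fun n _ => ?_).trans ?_)
    · rw [norm_mul, norm_mul]
      exact (mul_le_of_le_one_left (by positivity) (LOD.base_norm_mc _)).trans
        ((mul_le_of_le_one_left (norm_nonneg _) (hcc _)).trans
        (htd fun i => phd q D d L F (i + n + s)))
    · rw [Nat.card_Icc, Nat.add_sub_cancel, nsmul_eq_mul]
      exact le_of_eq (mul_comm _ _)
  have h2 : ‖∑ r ∈ range R, a r * ∑ n ∈ Icc 1 N, mc n * (cc ((n + s) / q ^ K) *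
        et (∑ i ∈ range I, phd q D d L (fun j w => ∑ k ∈ range I, c r i k • F j w k)
          (n + s + i)))‖ ≤ ε / 2 * N := by
    have h3 : ∀ r ∈ range R, ‖a r * ∑ n ∈ Icc 1 N, mc n * (cc ((n + s) / q ^ K) *
        et (∑ i ∈ range I, phd q D d L (fun j w => ∑ k ∈ range I, c r i k • F j w k)
          (n + s + i)))‖ ≤ ‖a r‖ * (ε / (2 * (A + 1)) * N) := by
      intro r _
      rw [norm_mul]
      exact mul_le_mul_of_nonneg_left (hN r) (norm_nonneg _)
    refine (norm_sum_le _ _).trans ((Finset.sum_le_sum h3).trans ?_)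
    rw [← Finset.sum_mul, ← hA]
    have h4 : A * (ε / (2 * (A + 1)) * N) = ε / 2 * N * (A / (A + 1)) := by
      field_simp
    rw [h4]
    refine mul_le_of_le_one_right (by positivity) ?_
    rw [div_le_one (by positivity)]
    linarith
  linarith

/-- at most `Q` numbers in a block -/
private theorem usl_blk_card (W : Finset ℕ) (Q s u : ℕ) (hQ : 1 ≤ Q) :
    (W.filter fun m => (m + s) / Q = u).card ≤ Q := by
  have h1 : (W.filter fun m => (m + s) / Q = u) ⊆ Ico (Q * u - s) (Q * u + Q - s) := by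
    intro m hm
    have h2 := (Finset.mem_filter.1 hm).2
    have h3 := Nat.div_add_mod (m + s) Q
    have h4 := Nat.mod_lt (m + s) (show 0 < Q by omega)
    rw [h2] at h3
    rw [Finset.mem_Ico]
    omega
  refine (Finset.card_le_card h1).trans ?_
  rw [Nat.card_Ico]
  omega

/-- windows and blocks -/
theorem blk_win (a : ℕ → ℂ) {C : ℝ} (hC : ∀ n, ‖a n‖ ≤ C) (Q s N H : ℕ) (hQ : 1 ≤ Q) (hH : 1 ≤ H) :
    ∑ n ∈ range N, ‖∑ h ∈ range H, a (n + h)‖ ≤
      H * ∑ u ∈ range ((N + H + s) / Q + 1),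
        ‖∑ m ∈ (range (N + H)).filter (fun m => (m + s) / Q = u), a m‖ + 2 * Q * C * N := by
  have hC0 : 0 ≤ C := (norm_nonneg _).trans (hC 0)
  obtain ⟨U, hU⟩ : ∃ U, U = (N + H + s) / Q + 1 := ⟨_, rfl⟩
  obtain ⟨A, hA⟩ : ∃ A : ℕ → ℝ, A = fun u =>
      ‖∑ m ∈ (range (N + H)).filter (fun m => (m + s) / Q = u), a m‖ := ⟨_, rfl⟩
  have hA0 : ∀ u, 0 ≤ A u := fun u => by rw [hA]; exact norm_nonneg _
  obtain ⟨T, hT⟩ : ∃ T : ℕ → ℕ → Prop, T = fun n u => (n + s) / Q < u ∧ u < (n + H + s) / Q :=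
    ⟨_, rfl⟩
  classical
  have hwin : ∀ n ∈ range N, ‖∑ h ∈ range H, a (n + h)‖ ≤
      ∑ u ∈ range U, (if T n u then A u else 0) + 2 * Q * C := by
    intro n hn
    rw [Finset.mem_range] at hn
    have e1 : ∑ h ∈ range H, a (n + h) = ∑ m ∈ Ico n (n + H), a m := by
      rw [Finset.sum_Ico_eq_sum_range, Nat.add_sub_cancel_left]
    rw [e1, ← Finset.sum_filter_add_sum_filter_not (Ico n (n + H)) (fun m => T n ((m + s) / Q))]
    refine (norm_add_le _ _).trans (add_le_add ?_ ?_)
    · have e2 : ∑ m ∈ (Ico n (n + H)).filter (fun m => T n ((m + s) / Q)), a m =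
          ∑ u ∈ (range U).filter (fun u => T n u),
            ∑ m ∈ (range (N + H)).filter (fun m => (m + s) / Q = u), a m := by
        rw [← Finset.sum_fiberwise_of_maps_to (s := (Ico n (n + H)).filter
          (fun m => T n ((m + s) / Q))) (t := (range U).filter (fun u => T n u))
          (g := fun m => (m + s) / Q)]
        · refine Finset.sum_congr rfl fun u hu => ?_
          refine Finset.sum_congr ?_ fun _ _ => rfl
          have hu1 := (Finset.mem_filter.1 hu).2
          rw [hT] at hu1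
          ext m
          simp only [Finset.mem_filter, Finset.mem_Ico, Finset.mem_range, hT]
          constructor
          · rintro ⟨⟨⟨h1, h2⟩, h3⟩, h4⟩
            exact ⟨by omega, h4⟩
          · rintro ⟨h1, h2⟩
            have h3 : n + s < m + s := by
              by_contra h5
              have := Nat.div_le_div_right (c := Q) (not_lt.1 h5)
              omega
            have h4 : m + s < n + H + s := by
              by_contra h5
              have := Nat.div_le_div_right (c := Q) (not_lt.1 h5)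
              omega
            refine ⟨⟨⟨by omega, by omega⟩, ?_⟩, h2⟩
            rw [h2]
            exact hu1
        · intro m hm
          rw [Finset.mem_filter] at hm ⊢
          refine ⟨?_, hm.2⟩
          rw [Finset.mem_range, hU]
          have h1 := (Finset.mem_Ico.1 hm.1).2
          have := Nat.div_le_div_right (c := Q) (show m + s ≤ N + H + s by omega)
          omega
      rw [e2]
      refine (norm_sum_le _ _).trans ?_
      rw [Finset.sum_filter, hA]
    · have h1 : ((Ico n (n + H)).filter (fun m => ¬ T n ((m + s) / Q))).card ≤ 2 * Q := by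
        have h2 : (Ico n (n + H)).filter (fun m => ¬ T n ((m + s) / Q)) ⊆
            (Ico n (n + H)).filter (fun m => (m + s) / Q = (n + s) / Q) ∪
            (Ico n (n + H)).filter (fun m => (m + s) / Q = (n + H + s) / Q) := by
          intro m hm
          rw [Finset.mem_filter, hT] at hm
          rw [Finset.mem_union, Finset.mem_filter, Finset.mem_filter]
          obtain ⟨h3, h4⟩ := hm
          have h5 := Finset.mem_Ico.1 h3
          have h6 := Nat.div_le_div_right (c := Q) (show n + s ≤ m + s by omega)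
          have h7 := Nat.div_le_div_right (c := Q) (show m + s ≤ n + H + s by omega)
          by_cases h8 : (m + s) / Q = (n + s) / Q
          · exact Or.inl ⟨h3, h8⟩
          · refine Or.inr ⟨h3, ?_⟩
            by_contra h9
            exact h4 ⟨by omega, by omega⟩
        refine (Finset.card_le_card h2).trans ((Finset.card_union_le _ _).trans ?_)
        have := usl_blk_card (Ico n (n + H)) Q s ((n + s) / Q) hQ
        have := usl_blk_card (Ico n (n + H)) Q s ((n + H + s) / Q) hQ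
        omega
      refine (norm_sum_le _ _).trans ((Finset.sum_le_card_nsmul _ _ C fun m _ => hC m).trans ?_)
      rw [nsmul_eq_mul]
      have h3 : (((Ico n (n + H)).filter (fun m => ¬ T n ((m + s) / Q))).card : ℝ) ≤ 2 * Q := by
        exact_mod_cast h1
      exact mul_le_mul_of_nonneg_right h3 hC0
  refine (Finset.sum_le_sum hwin).trans ?_
  rw [Finset.sum_add_distrib, Finset.sum_const, Finset.card_range, nsmul_eq_mul, ← hU]
  have e3 : ∑ n ∈ range N, ∑ u ∈ range U, (if T n u then A u else 0) ≤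
      H * ∑ u ∈ range U, A u := by
    rw [Finset.sum_comm, Finset.mul_sum]
    refine Finset.sum_le_sum fun u _ => ?_
    rw [← Finset.sum_filter, Finset.sum_const, nsmul_eq_mul]
    refine mul_le_mul_of_nonneg_right ?_ (hA0 u)
    have h1 : ((range N).filter fun n => T n u) ⊆ Ico (Q * u + Q - H - s) (Q * u - s) := by
      intro n hn
      have h2 := (Finset.mem_filter.1 hn).2
      rw [hT] at h2
      obtain ⟨h3, h4⟩ := h2
      rw [Nat.div_lt_iff_lt_mul (by omega)] at h3
      have h5 := (Nat.le_div_iff_mul_le (k := Q) (by omega)).1 h4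
      rw [Finset.mem_Ico]
      have h6 : u * Q = Q * u := mul_comm _ _
      have h7 : u.succ * Q = Q * u + Q := by rw [Nat.succ_mul, h6]
      rw [h6] at h3
      rw [h7] at h5
      omega
    have h2 := Finset.card_le_card h1
    rw [Nat.card_Ico] at h2
    have h3 : ((range N).filter fun n => T n u).card ≤ H := by omega
    exact_mod_cast h3
  rw [hA] at e3
  have e4 : (N : ℝ) * (2 * Q * C) = 2 * Q * C * N := by ring
  rw [e4, hA]
  linarith

private theorem usl_mc0 : mc 0 = 0 := by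
  unfold mc
  simp

private theorem usl_short {q : ℕ} (hq : 2 ≤ q) {d : ℕ} (hd : 1 ≤ d) (D : ℕ)
    (f : (ℕ → ℕ → UnitAddCircle) → ℂ) (hf : Continuous f) {ε : ℝ} (hε : 0 < ε) :
    ∃ H0 N0 : ℕ, ∀ N ≥ N0, ∀ H, H0 ≤ H → H ≤ N → ∀ x ∈ GX q D d,
      ∑ n ∈ range N, ‖∑ h ∈ range H, mc (n + h) * f (fun i => x (i + (n + h)))‖ ≤ ε * H * N := by
  obtain ⟨C, hC⟩ : ∃ C : ℝ, ∀ y, ‖f y‖ ≤ C := by
    obtain ⟨C, hC⟩ := (isCompact_range (continuous_norm.comp hf)).bddAbove
    exact ⟨C, fun y => hC ⟨y, rfl⟩⟩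
  have hC0 : 0 ≤ C := (norm_nonneg _).trans (hC fun _ _ => 0)
  obtain ⟨K, N0, hN0⟩ := gx_blk hq hd D f hf (ε := ε / 8) (by positivity)
  obtain ⟨Q, hQ⟩ : ∃ Q, Q = q ^ K := ⟨_, rfl⟩
  have hQ1 : 1 ≤ Q := by
    rw [hQ]
    exact Nat.one_le_pow _ _ (by omega)
  refine ⟨⌈8 * Q * C / ε⌉₊ + 1, N0 + 1, fun N hN H hH hHN x hx => ?_⟩
  obtain ⟨L, s, F, hx⟩ := hx
  obtain ⟨a, ha⟩ : ∃ a : ℕ → ℂ, a = fun m => mc m * f (fun i => x (i + m)) := ⟨_, rfl⟩
  have haC : ∀ n, ‖a n‖ ≤ C := by
    intro n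
    rw [ha]
    show ‖mc n * f (fun i => x (i + n))‖ ≤ C
    rw [norm_mul]
    exact (mul_le_of_le_one_left (norm_nonneg _) (LOD.base_norm_mc _)).trans (hC _)
  have hbw := blk_win a haC Q s N H hQ1 (by omega)
  obtain ⟨U, hU⟩ : ∃ U, U = (N + H + s) / Q + 1 := ⟨_, rfl⟩
  rw [← hU] at hbw
  obtain ⟨A, hA⟩ : ∃ A : ℕ → ℂ, A = fun u =>
      ∑ m ∈ (range (N + H)).filter (fun m => (m + s) / Q = u), a m := ⟨_, rfl⟩
  obtain ⟨cc, hcc1, hcc2⟩ : ∃ cc : ℕ → ℂ, (∀ u, ‖cc u‖ ≤ 1) ∧ ∀ u, cc u * A u = (‖A u‖ : ℂ) := by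
    refine ⟨fun u => (starRingEnd ℂ) (A u) / (‖A u‖ : ℂ), fun u => ?_, fun u => ?_⟩
    · rw [norm_div, RCLike.norm_conj, Complex.norm_real, norm_norm]
      exact div_self_le_one _
    · show (starRingEnd ℂ) (A u) / (‖A u‖ : ℂ) * A u = _
      by_cases h0 : A u = 0
      · rw [h0]
        simp
      · have h1 : ((‖A u‖ : ℝ) : ℂ) ≠ 0 := by
          rw [Complex.ofReal_ne_zero]
          exact norm_ne_zero_iff.2 h0
        rw [div_mul_eq_mul_div, div_eq_iff h1, mul_comm, Complex.mul_conj, Complex.normSq_eq_norm_sq]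
        push_cast
        ring
  have hsum : ∑ u ∈ range U, ‖A u‖ ≤ ε / 8 * (2 * N) := by
    have e1 : ((∑ u ∈ range U, ‖A u‖ : ℝ) : ℂ) =
        ∑ m ∈ range (N + H), cc ((m + s) / Q) * a m := by
      push_cast
      rw [← Finset.sum_fiberwise_of_maps_to (s := range (N + H)) (t := range U)
          (g := fun m => (m + s) / Q)]
      · refine Finset.sum_congr rfl fun u _ => ?_
        rw [← hcc2 u, hA, Finset.mul_sum]
        refine Finset.sum_congr rfl fun m hm => ?_
        rw [(Finset.mem_filter.1 hm).2]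
      · intro m hm
        rw [Finset.mem_range] at hm ⊢
        have := Nat.div_le_div_right (c := Q) (show m + s ≤ N + H + s by omega)
        omega
    have e2 : ∑ m ∈ range (N + H), cc ((m + s) / Q) * a m =
        ∑ n ∈ Icc 1 (N + H - 1), mc n * (cc ((n + s) / q ^ K) *
        f (fun i => phd q D d L F (i + n + s))) := by
      have e3 : range (N + H) = insert 0 (Icc 1 (N + H - 1)) := by
        ext m
        rw [Finset.mem_insert, Finset.mem_range, Finset.mem_Icc]
        omega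
      rw [e3, Finset.sum_insert (by simp)]
      have e4 : a 0 = 0 := by
        rw [ha]
        show mc 0 * _ = 0
        rw [usl_mc0, zero_mul]
      rw [e4, mul_zero, zero_add]
      refine Finset.sum_congr rfl fun m _ => ?_
      rw [ha, ← hQ]
      have e5 : (fun i => x (i + m)) = fun i => phd q D d L F (i + m + s) := by
        funext i
        rw [hx]
      show cc ((m + s) / Q) * (mc m * f (fun i => x (i + m))) = _
      rw [e5]
      ring
    have h1 := hN0 (N + H - 1) (by omega) L s F cc hcc1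
    rw [← e2, ← e1, Complex.norm_real] at h1
    have h2 := (le_abs_self _).trans (h1 : |∑ u ∈ range U, ‖A u‖| ≤ _)
    refine h2.trans (mul_le_mul_of_nonneg_left ?_ (by positivity))
    have h3 : N + H - 1 ≤ 2 * N := by omega
    exact_mod_cast h3
  have e6 : ∑ n ∈ range N, ‖∑ h ∈ range H, mc (n + h) * f (fun i => x (i + (n + h)))‖ =
      ∑ n ∈ range N, ‖∑ h ∈ range H, a (n + h)‖ := by
    rw [ha]
  rw [e6]
  have e7 : ∑ u ∈ range U, ‖∑ m ∈ (range (N + H)).filter (fun m => (m + s) / Q = u), a m‖ =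
      ∑ u ∈ range U, ‖A u‖ := by
    rw [hA]
  rw [e7] at hbw
  have hH1 : 8 * Q * C / ε ≤ H := by
    have h1 := Nat.le_ceil (8 * Q * C / ε)
    have h2 : ((⌈8 * Q * C / ε⌉₊ : ℕ) : ℝ) ≤ H := by
      exact_mod_cast (show ⌈8 * (Q : ℝ) * C / ε⌉₊ ≤ H by omega)
    linarith
  rw [div_le_iff₀ hε] at hH1
  have hN1 : (0 : ℝ) ≤ N := by positivity
  have hH2 : (0 : ℝ) ≤ H := by positivity
  have h4 := mul_le_mul_of_nonneg_left hsum hH2
  have h5 := mul_le_mul_of_nonneg_right hH1 hN1
  nlinarith [mul_nonneg hH2 hN1, mul_nonneg (mul_nonneg hH2 hN1) hε.le]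

/-- **Moebius disjointness on almost all short intervals, uniformly over the orbits** -/
theorem gx_short {q : ℕ} (hq : 2 ≤ q) {d : ℕ} (hd : 1 ≤ d) (D : ℕ)
    (f : (ℕ → ℕ → UnitAddCircle) → ℂ) (hf : Continuous f) {ε : ℝ} (hε : 0 < ε) :
    ∃ H0 N0 : ℕ, ∀ N ≥ N0, ∀ H, H0 ≤ H → H ≤ N → ∀ x ∈ closure (GX q D d),
      ∑ n ∈ range N, ‖∑ h ∈ range H, mc (n + h) * f (fun i => x (i + (n + h)))‖ ≤ ε * H * N := by
  obtain ⟨H0, N0, h0⟩ := usl_short hq hd D f hf hε
  refine ⟨H0, N0, fun N hN H hH hHN x hx => ?_⟩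
  have hcl : IsClosed {x : ℕ → ℕ → UnitAddCircle |
      ∑ n ∈ range N, ‖∑ h ∈ range H, mc (n + h) * f (fun i => x (i + (n + h)))‖ ≤
        ε * H * N} := by
    refine isClosed_le (continuous_finsetSum _ fun n _ => continuous_norm.comp
      (continuous_finsetSum _ fun h _ => continuous_const.mul (hf.comp
        (continuous_pi fun i => continuous_apply (i + (n + h))))))
      continuous_const
  exact closure_minimal (fun y hy => h0 N hN H hH hHN y hy) hcl hx

end Pool.Agent.Lib.MP_3e612f_nt.RD
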